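import Pool.Agent.PPB.DefsB

/-!
# PPB/Api (size 2)

Small lemmas for the counting function `nb` (all by `Finset.card_le_card`, `Finset.card_biUnion_le`,
`Finset.card_le_card_of_injOn`).
-/

set_option autoImplicit false

namespace Pool.Agent.PPB

theorem nb_nonneg (S : Finset (ℤ × ℤ × ℤ × ℤ)) (P : ℤ → ℤ → ℤ → ℤ → Prop) : 0 ≤ nb S P := by
  unfold nb
  exact Nat.cast_nonneg _

theorem nb_mono (S : Finset (ℤ × ℤ × ℤ × ℤ)) (P Q : ℤ → ℤ → ℤ → ℤ → Prop)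
    (h : ∀ F ∈ S, P F.1 F.2.1 F.2.2.1 F.2.2.2 → Q F.1 F.2.1 F.2.2.1 F.2.2.2) : nb S P ≤ nb S Q := by
  classical
  unfold nb
  apply Nat.cast_le.2
  apply Finset.card_le_card
  intro F hF
  rw [Finset.mem_filter] at hF ⊢
  exact ⟨hF.1, h F hF.1 hF.2⟩

theorem nb_sub (S S' : Finset (ℤ × ℤ × ℤ × ℤ)) (P : ℤ → ℤ → ℤ → ℤ → Prop) (h : S ⊆ S') : nb S P ≤ nb S' P := by
  classical
  unfold nb
  apply Nat.cast_le.2
  apply Finset.card_le_card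
  intro F hF
  rw [Finset.mem_filter] at hF ⊢
  exact ⟨h hF.1, hF.2⟩

theorem nb_add (S : Finset (ℤ × ℤ × ℤ × ℤ)) (P Q R : ℤ → ℤ → ℤ → ℤ → Prop)
    (h : ∀ F ∈ S, P F.1 F.2.1 F.2.2.1 F.2.2.2 →
      Q F.1 F.2.1 F.2.2.1 F.2.2.2 ∨ R F.1 F.2.1 F.2.2.1 F.2.2.2) : nb S P ≤ nb S Q + nb S R := by
  classical
  unfold nb
  rw [← Nat.cast_add]
  apply Nat.cast_le.2
  refine le_trans (Finset.card_le_card ?_) (Finset.card_union_le _ _)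
  intro F hF
  rw [Finset.mem_filter] at hF
  rw [Finset.mem_union, Finset.mem_filter, Finset.mem_filter]
  rcases h F hF.1 hF.2 with h1 | h1
  · exact Or.inl ⟨hF.1, h1⟩
  · exact Or.inr ⟨hF.1, h1⟩

theorem nb_sum {ι : Type*} (I : Finset ι) (S : Finset (ℤ × ℤ × ℤ × ℤ)) (P : ℤ → ℤ → ℤ → ℤ → Prop)
    (Q : ι → ℤ → ℤ → ℤ → ℤ → Prop)
    (h : ∀ F ∈ S, P F.1 F.2.1 F.2.2.1 F.2.2.2 → ∃ i ∈ I, Q i F.1 F.2.1 F.2.2.1 F.2.2.2) :
    nb S P ≤ ∑ i ∈ I, nb S (Q i) := by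
  classical
  unfold nb
  rw [← Nat.cast_sum]
  apply Nat.cast_le.2
  refine le_trans (Finset.card_le_card ?_) (Finset.card_biUnion_le (s := I)
    (t := fun i => S.filter (fun F => Q i F.1 F.2.1 F.2.2.1 F.2.2.2)))
  intro F hF
  rw [Finset.mem_filter] at hF
  obtain ⟨i, hi, h1⟩ := h F hF.1 hF.2
  rw [Finset.mem_biUnion]
  exact ⟨i, hi, Finset.mem_filter.2 ⟨hF.1, h1⟩⟩

/-- an injective map into a finite set -/
theorem nb_inj {α : Type*} (S : Finset (ℤ × ℤ × ℤ × ℤ)) (P : ℤ → ℤ → ℤ → ℤ → Prop) (I : Finset α)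
    (f : ℤ × ℤ × ℤ × ℤ → α) (h1 : ∀ F ∈ S, P F.1 F.2.1 F.2.2.1 F.2.2.2 → f F ∈ I)
    (h2 : ∀ F ∈ S, ∀ G ∈ S, P F.1 F.2.1 F.2.2.1 F.2.2.2 → P G.1 G.2.1 G.2.2.1 G.2.2.2 → f F = f G → F = G) :
    nb S P ≤ (I.card : ℝ) := by
  classical
  unfold nb
  apply Nat.cast_le.2
  apply Finset.card_le_card_of_injOn f
  · intro F hF
    have hF' := Finset.mem_filter.1 (Finset.mem_coe.1 hF)
    exact Finset.mem_coe.2 (h1 F hF'.1 hF'.2)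
  · intro F hF G' hG he
    have hF' := Finset.mem_filter.1 (Finset.mem_coe.1 hF)
    have hG' := Finset.mem_filter.1 (Finset.mem_coe.1 hG)
    exact h2 F hF'.1 G' hG'.1 hF'.2 hG'.2 he

/-- a map into a finite set with all fibres of size at most `y` -/
theorem nb_fib {α : Type*} (S : Finset (ℤ × ℤ × ℤ × ℤ)) (P : ℤ → ℤ → ℤ → ℤ → Prop) (I : Finset α)
    (f : ℤ × ℤ × ℤ × ℤ → α) (y : ℝ) (h1 : ∀ F ∈ S, P F.1 F.2.1 F.2.2.1 F.2.2.2 → f F ∈ I)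
    (h2 : ∀ i ∈ I, nb S (fun a b c d => P a b c d ∧ f (a, b, c, d) = i) ≤ y) :
    nb S P ≤ (I.card : ℝ) * y := by
  refine le_trans (nb_sum I S P (fun i a b c d => P a b c d ∧ f (a, b, c, d) = i) ?_) ?_
  · intro F hF hP
    exact ⟨f F, h1 F hF hP, hP, rfl⟩
  · refine le_trans (Finset.sum_le_sum h2) ?_
    rw [Finset.sum_const, nsmul_eq_mul]

end Pool.Agent.PPB
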