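import Pool.Agent.PPB.DefsB

/-!
# PPB/Lin (size 3)

Vectors `w` with prescribed determinant with a primitive vector `u = (p, r)`.  PROOF.  If `S` is empty: clear.  Fix `w0 ∈ S`.  For `w ∈ S`:
`p (w.2 - w0.2) = r (w.1 - w0.1)`, `p, r` coprime, so `w - w0 = j (p, r)` with an integer `j`, and `w ↦ j` is injective.
`j² H(u) = H(w - w0) ≤ 2 H(w) + 2 H(w0) ≤ 4 X2 ≤ 4 N² X1 ≤ 4 N² H(u)` (`H` is positive definite: `H(x - y) + H(x + y) = 2 H(x) + 2 H(y)`), so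
`|j| ≤ 2 N`: at most `4 N + 1` values.
-/

set_option autoImplicit false

namespace Pool.Agent.PPB

private theorem lin_nonneg (A B C : ℤ) (hA1 : 0 < A) (hD : 0 < 4 * A * C - B ^ 2) (x y : ℤ) :
    0 ≤ qf A B C x y := by
  unfold qf
  have h1 : 4 * A * (A * x ^ 2 + B * x * y + C * y ^ 2) =
      (2 * A * x + B * y) ^ 2 + (4 * A * C - B ^ 2) * y ^ 2 := by ring
  have h2 : 0 ≤ (2 * A * x + B * y) ^ 2 + (4 * A * C - B ^ 2) * y ^ 2 := by positivity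
  rw [← h1] at h2
  have h3 : 0 < 4 * A := by linarith
  exact nonneg_of_mul_nonneg_right h2 h3

theorem lin (A B C : ℤ) (hA1 : 0 < A) (hD : 0 < 4 * A * C - B ^ 2) (p r : ℤ) (hpr : IsCoprime p r) (m : ℤ)
    (X1 X2 : ℝ) (N : ℕ) (hX1 : 0 < X1) (hu : X1 ≤ (qf A B C p r : ℤ)) (hX : X2 ≤ (N : ℝ) ^ 2 * X1)
    (S : Finset (ℤ × ℤ)) (hS : ∀ w ∈ S, p * w.2 - w.1 * r = m ∧ ((qf A B C w.1 w.2 : ℤ) : ℝ) ≤ X2) :
    S.card ≤ 4 * N + 1 := by
  rcases S.eq_empty_or_nonempty with h0 | ⟨w0, hw0⟩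
  · rw [h0, Finset.card_empty]
    exact Nat.zero_le _
  obtain ⟨α, β, hab⟩ := hpr
  have hj : ∀ w ∈ S, w.1 - w0.1 = p * (α * (w.1 - w0.1) + β * (w.2 - w0.2)) ∧
      w.2 - w0.2 = r * (α * (w.1 - w0.1) + β * (w.2 - w0.2)) := by
    intro w hw
    have e1 := (hS w hw).1
    have e2 := (hS w0 hw0).1
    have e3 : p * (w.2 - w0.2) = r * (w.1 - w0.1) := by linear_combination e1 - e2
    constructor
    · linear_combination (-(w.1 - w0.1)) * hab - β * e3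
    · linear_combination (-(w.2 - w0.2)) * hab + α * e3
  have hinj : Set.InjOn (fun w : ℤ × ℤ => α * (w.1 - w0.1) + β * (w.2 - w0.2)) (S : Set (ℤ × ℤ)) := by
    intro w hw z hz hwz
    have h1 := hj w (Finset.mem_coe.1 hw)
    have h2 := hj z (Finset.mem_coe.1 hz)
    have hwz' : α * (w.1 - w0.1) + β * (w.2 - w0.2) = α * (z.1 - w0.1) + β * (z.2 - w0.2) := hwz
    rw [hwz'] at h1
    refine Prod.ext ?_ ?_
    · linarith [h1.1, h2.1]
    · linarith [h1.2, h2.2]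
  have hmaps : Set.MapsTo (fun w : ℤ × ℤ => α * (w.1 - w0.1) + β * (w.2 - w0.2)) (S : Set (ℤ × ℤ))
      (Finset.Icc (-(2 * N : ℤ)) (2 * N) : Finset ℤ) := by
    intro w hw
    have hw' := Finset.mem_coe.1 hw
    obtain ⟨h1, h2⟩ := hj w hw'
    set j := α * (w.1 - w0.1) + β * (w.2 - w0.2) with hjdef
    have e1 : qf A B C (w.1 - w0.1) (w.2 - w0.2) = j ^ 2 * qf A B C p r := by
      rw [h1, h2]
      unfold qf
      ring
    have e2 : qf A B C (w.1 - w0.1) (w.2 - w0.2) + qf A B C (w.1 + w0.1) (w.2 + w0.2) =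
        2 * qf A B C w.1 w.2 + 2 * qf A B C w0.1 w0.2 := by
      unfold qf
      ring
    have e3 := lin_nonneg A B C hA1 hD (w.1 + w0.1) (w.2 + w0.2)
    have e4 := (hS w hw').2
    have e5 := (hS w0 hw0).2
    have e6 : j ^ 2 * qf A B C p r ≤ 2 * qf A B C w.1 w.2 + 2 * qf A B C w0.1 w0.2 := by
      linarith
    have e7 : (j : ℝ) ^ 2 * (qf A B C p r : ℤ) ≤
        2 * ((qf A B C w.1 w.2 : ℤ) : ℝ) + 2 * ((qf A B C w0.1 w0.2 : ℤ) : ℝ) := by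
      exact_mod_cast e6
    have hu0 : (0 : ℝ) < (qf A B C p r : ℤ) := lt_of_lt_of_le hX1 hu
    have e8 : (j : ℝ) ^ 2 * (qf A B C p r : ℤ) ≤ (2 * (N : ℝ)) ^ 2 * (qf A B C p r : ℤ) := by
      have e9 : (N : ℝ) ^ 2 * X1 ≤ (N : ℝ) ^ 2 * (qf A B C p r : ℤ) :=
        mul_le_mul_of_nonneg_left hu (sq_nonneg _)
      nlinarith
    have e10 : (j : ℝ) ^ 2 ≤ (2 * (N : ℝ)) ^ 2 := le_of_mul_le_mul_right e8 hu0
    have e11 : j ^ 2 ≤ (2 * (N : ℤ)) ^ 2 := by exact_mod_cast e10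
    have e12 := abs_le_of_sq_le_sq' e11 (by positivity)
    exact Finset.mem_coe.2 (Finset.mem_Icc.2 ⟨e12.1, e12.2⟩)
  have hc := Finset.card_le_card_of_injOn _ hmaps hinj
  rw [Int.card_Icc] at hc
  omega

end Pool.Agent.PPB
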