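import Pool.Agent.PPB.DefsB

/-!
# PPB/Rts

The roots of a cubic form modulo `q`.
-/

set_option autoImplicit false

namespace Pool.Agent.PPB

open Polynomial in
theorem rts (q : ℕ) (hq : q.Prime) (h3 : 3 < q) (a b c d : ℤ)
    (hR : ¬ ((q : ℤ) ∣ a ∧ (q : ℤ) ∣ b ∧ (q : ℤ) ∣ c ∧ (q : ℤ) ∣ d)) :
    ∃ f : ℤ × ℤ → Fin 4, ∀ u v : ℤ × ℤ, (q : ℤ) ∣ ev a b c d u.1 u.2 → (q : ℤ) ∣ ev a b c d v.1 v.2 →
      f u = f v → (q : ℤ) ∣ u.1 * v.2 - v.1 * u.2 := by
  classical
  have : Fact q.Prime := ⟨hq⟩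
  have hd : ∀ z : ℤ, ((z : ZMod q) = 0) ↔ (q : ℤ) ∣ z := fun z =>
    ZMod.intCast_zmod_eq_zero_iff_dvd z q
  have h30 : (3 : ZMod q) ≠ 0 := by
    intro h
    have h1 : ((3 : ℤ) : ZMod q) = 0 := by exact_mod_cast h
    rw [hd] at h1
    have h2 := Int.le_of_dvd (by norm_num) h1
    omega
  obtain ⟨p, hp⟩ : ∃ p : (ZMod q)[X], p = C (a : ZMod q) * X ^ 3 + C (3 * (b : ZMod q)) * X ^ 2 +
      C (3 * (c : ZMod q)) * X + C (d : ZMod q) := ⟨_, rfl⟩
  have hp0 : p ≠ 0 := by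
    intro h0
    apply hR
    obtain ⟨P, hP⟩ : ∃ P : Cubic (ZMod q), P = ⟨(a : ZMod q), 3 * (b : ZMod q), 3 * (c : ZMod q),
      (d : ZMod q)⟩ := ⟨_, rfl⟩
    have hpP : p = P.toPoly := by rw [hp, hP]; rfl
    have hco : ∀ n, P.toPoly.coeff n = 0 := fun n => by rw [← hpP, h0, coeff_zero]
    have e3 := hco 3
    have e2 := hco 2
    have e1 := hco 1
    have e0 := hco 0
    rw [Cubic.coeff_eq_a] at e3
    rw [Cubic.coeff_eq_b] at e2
    rw [Cubic.coeff_eq_c] at e1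
    rw [Cubic.coeff_eq_d] at e0
    rw [hP] at e3 e2 e1 e0
    replace e3 : (a : ZMod q) = 0 := e3
    replace e2 : 3 * (b : ZMod q) = 0 := e2
    replace e1 : 3 * (c : ZMod q) = 0 := e1
    replace e0 : (d : ZMod q) = 0 := e0
    rw [mul_eq_zero] at e2 e1
    refine ⟨(hd a).mp e3, (hd b).mp ?_, (hd c).mp ?_, (hd d).mp e0⟩
    · rcases e2 with h | h
      · exact absurd h h30
      · exact h
    · rcases e1 with h | h
      · exact absurd h h30
      · exact h
  have hcard : p.roots.toFinset.card ≤ 3 := by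
    refine (Multiset.toFinset_card_le _).trans ((card_roots' p).trans ?_)
    rw [hp]
    exact natDegree_cubic_le
  obtain ⟨S, hS⟩ : ∃ S : Finset (ZMod q), S = p.roots.toFinset := ⟨_, rfl⟩
  rw [← hS] at hcard
  obtain ⟨g, hg⟩ : ∃ g : ZMod q → Fin 4, g = fun r => if h : r ∈ S then
      ⟨(S.equivFin ⟨r, h⟩).val, by have := (S.equivFin ⟨r, h⟩).isLt; omega⟩ else 3 := ⟨_, rfl⟩
  have hg1 : ∀ r ∈ S, (g r).val < 3 := by
    intro r hr
    rw [hg]
    simp only [dif_pos hr]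
    have := (S.equivFin ⟨r, hr⟩).isLt
    omega
  have hg2 : ∀ r ∈ S, ∀ s ∈ S, g r = g s → r = s := by
    intro r hr s hs h
    rw [hg] at h
    simp only [dif_pos hr, dif_pos hs] at h
    have h1 : (S.equivFin ⟨r, hr⟩).val = (S.equivFin ⟨s, hs⟩).val :=
      congrArg (fun z : Fin 4 => z.val) h
    have h2 := S.equivFin.injective (Fin.ext h1)
    exact congrArg Subtype.val h2
  have hroot : ∀ u : ℤ × ℤ, (q : ℤ) ∣ ev a b c d u.1 u.2 → (u.2 : ZMod q) ≠ 0 →
      (u.1 : ZMod q) / (u.2 : ZMod q) ∈ S := by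
    intro u hu hy
    rw [hS, Multiset.mem_toFinset, mem_roots hp0, IsRoot.def, hp]
    simp only [eval_add, eval_mul, eval_C, eval_pow, eval_X]
    have h1 := (hd _).mpr hu
    unfold ev at h1
    push_cast at h1
    have h2 : ((a : ZMod q) * ((u.1 : ZMod q) / (u.2 : ZMod q)) ^ 3 +
        3 * (b : ZMod q) * ((u.1 : ZMod q) / (u.2 : ZMod q)) ^ 2 +
        3 * (c : ZMod q) * ((u.1 : ZMod q) / (u.2 : ZMod q)) + (d : ZMod q)) *
          (u.2 : ZMod q) ^ 3 = 0 := by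
      rw [← h1]
      field_simp
    rcases mul_eq_zero.mp h2 with h | h
    · exact h
    · exact absurd (pow_eq_zero_iff (by norm_num) |>.mp h) hy
  refine ⟨fun u => if (u.2 : ZMod q) = 0 then 3 else g ((u.1 : ZMod q) / (u.2 : ZMod q)), ?_⟩
  intro u v hu hv hf
  rw [← hd]
  push_cast
  by_cases hy : (u.2 : ZMod q) = 0
  · by_cases hy' : (v.2 : ZMod q) = 0
    · rw [hy, hy']; ring
    · exfalso
      simp only [hy, hy', if_true, if_false] at hf
      have := hg1 _ (hroot v hv hy')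
      rw [← hf] at this
      exact absurd this (by decide)
  · by_cases hy' : (v.2 : ZMod q) = 0
    · exfalso
      simp only [hy, hy', if_true, if_false] at hf
      have := hg1 _ (hroot u hu hy)
      rw [hf] at this
      exact absurd this (by decide)
    · simp only [hy, hy', if_false] at hf
      have h1 := hg2 _ (hroot u hu hy) _ (hroot v hv hy') hf
      rw [div_eq_div_iff hy hy'] at h1
      rw [h1, sub_self]

end Pool.Agent.PPB
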