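import Pool.Agent.PPB.DefsB
import Pool.Agent.PPB.Lin
import Pool.Agent.PPB.Rts

/-!
# PPB/CuA (size 4)

The number of pairs `(u, v)` for a given `(R, q)` is bounded.  PROOF.  Let `H = qf A B C` (Hessian of `R`, positive definite: `Red`),
`4 A C - B² = D`.  Let `N` be a natural number with `K ≤ N² k` (take `X1 = k T²`, `X2 = K T²` in `lin`).
(1) For given `u` at most `4 N + 1` vectors `v` (`lin` with `m = q`).
(2) Number of `u`: partition by `f u ∈ Fin 4` (`rts`).  Fix a class and `u0` in it (if non-empty).  For `u` in the class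
`q ∣ det (u0, u)`, and the identity `4 H(u0) H(u) = (...)² + D det(u0, u)²` gives
`D det² ≤ 4 K² T⁴`; with `k T⁴ ≤ q² D`: `k det² ≤ 4 K² q²`, so `det / q` is an integer of absolute value `≤ 2 K / sqrt k ≤ 2 N K` (say;
`K / sqrt k ≤ K N` if `1 ≤ N² k`, which holds since `K ≥ 1`), and for each value `lin` gives at most `4 N + 1` vectors `u`.
So `N2 = 4 (4 N ⌈K⌉ + 1) (4 N + 1) (4 N + 1)` works (any bound is fine).
-/

set_option autoImplicit false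

namespace Pool.Agent.PPB

private theorem idH (A B C x y z w : ℤ) :
    4 * (qf A B C x y) * (qf A B C z w) =
      (2 * A * x * z + B * (x * w + z * y) + 2 * C * y * w) ^ 2 +
        (4 * A * C - B ^ 2) * (x * w - z * y) ^ 2 := by
  unfold qf; ring

private theorem dD_eq (a b c d : ℤ) :
    dD a b c d = 4 * hA a b c * hC b c d - hB a b c d ^ 2 := by
  unfold dD hA hB hC; ring

private theorem A_pos (a b c d : ℤ) (h : Red a b c d) : 0 < hA a b c := by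
  obtain ⟨h1, h2, h3⟩ := h
  have h0 : 0 ≤ hA a b c := le_trans (abs_nonneg _) h1
  rcases h0.lt_or_eq with h | h
  · exact h
  · exfalso
    rw [dD_eq, ← h] at h3
    nlinarith [sq_nonneg (hB a b c d)]

private theorem classBound (k K : ℝ) (hk : 0 < k) (hK : 1 ≤ K) (N : ℕ) (hN : K ≤ (N : ℝ) ^ 2 * k)
    (T : ℝ) (hT : 1 ≤ T) (q : ℕ) (hq : 0 < q) (A B C : ℤ) (hA1 : 0 < A) (hD : 0 < 4 * A * C - B ^ 2)
    (hTq : k * T ^ 4 ≤ (q : ℝ) ^ 2 * ((4 * A * C - B ^ 2 : ℤ) : ℝ))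
    (U : Finset (ℤ × ℤ)) (hU : ∀ u ∈ U, IsCoprime u.1 u.2 ∧ k * T ^ 2 ≤ (qf A B C u.1 u.2 : ℤ) ∧
      ((qf A B C u.1 u.2 : ℤ) : ℝ) ≤ K * T ^ 2)
    (hdet : ∀ u ∈ U, ∀ v ∈ U, (q : ℤ) ∣ u.1 * v.2 - v.1 * u.2) :
    U.card ≤ (2 * (2 * ⌈K⌉₊ * N) + 1) * (4 * N + 1) := by
  classical
  rcases U.eq_empty_or_nonempty with rfl | ⟨u0, hu0⟩
  · simp
  set L : ℕ := 2 * ⌈K⌉₊ * N with hL
  set I : Finset ℤ := Finset.Icc (-(L : ℤ)) (L : ℤ) with hI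
  have hIc : I.card = 2 * L + 1 := by
    rw [hI, Int.card_Icc]; omega
  have hT2 : 0 < T ^ 2 := by positivity
  have hq' : (0 : ℤ) < q := by exact_mod_cast hq
  have hqR : (0 : ℝ) < q := by exact_mod_cast hq
  have hmaps : ∀ u ∈ U, (u0.1 * u.2 - u.1 * u0.2) / (q : ℤ) ∈ I := by
    intro u hu
    obtain ⟨j, hj⟩ := hdet u0 hu0 u hu
    rw [hj, Int.mul_ediv_cancel_left _ hq'.ne']
    have h1 := idH A B C u0.1 u0.2 u.1 u.2
    rw [hj] at h1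
    have h2 : (4 * A * C - B ^ 2) * ((q : ℤ) * j) ^ 2 ≤ 4 * (qf A B C u0.1 u0.2) * (qf A B C u.1 u.2) := by
      nlinarith [sq_nonneg (2 * A * u0.1 * u.1 + B * (u0.1 * u.2 + u.1 * u0.2) + 2 * C * u0.2 * u.2)]
    obtain ⟨-, ha1, ha2⟩ := hU u0 hu0
    obtain ⟨-, hb1, hb2⟩ := hU u hu
    have h3 : (((4 * A * C - B ^ 2 : ℤ) : ℝ)) * ((q : ℝ) * j) ^ 2 ≤
        4 * ((qf A B C u0.1 u0.2 : ℤ) : ℝ) * ((qf A B C u.1 u.2 : ℤ) : ℝ) := by
      exact_mod_cast h2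
    have ha0 : 0 < ((qf A B C u0.1 u0.2 : ℤ) : ℝ) := lt_of_lt_of_le (by positivity) ha1
    have hb0 : 0 < ((qf A B C u.1 u.2 : ℤ) : ℝ) := lt_of_lt_of_le (by positivity) hb1
    have h4 : ((qf A B C u0.1 u0.2 : ℤ) : ℝ) * ((qf A B C u.1 u.2 : ℤ) : ℝ) ≤ (K * T ^ 2) * (K * T ^ 2) :=
      mul_le_mul ha2 hb2 hb0.le (by positivity)
    set D : ℝ := ((4 * A * C - B ^ 2 : ℤ) : ℝ) with hDd
    have hD0 : 0 < D := by rw [hDd]; exact_mod_cast hD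
    have h5 : D * ((q : ℝ) * j) ^ 2 ≤ 4 * K ^ 2 * T ^ 4 := by nlinarith
    -- k * D * q^2 j^2 ≤ 4 K^2 (k T^4) ≤ 4 K^2 q^2 D
    have h6 : k * (D * ((q : ℝ) * j) ^ 2) ≤ 4 * K ^ 2 * ((q : ℝ) ^ 2 * D) := by
      calc k * (D * ((q : ℝ) * j) ^ 2) ≤ k * (4 * K ^ 2 * T ^ 4) := by
            exact mul_le_mul_of_nonneg_left h5 hk.le
        _ = 4 * K ^ 2 * (k * T ^ 4) := by ring
        _ ≤ 4 * K ^ 2 * ((q : ℝ) ^ 2 * D) := by
            exact mul_le_mul_of_nonneg_left hTq (by positivity)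
    have h7 : k * (j : ℝ) ^ 2 ≤ 4 * K ^ 2 := by
      have hqD : 0 < (q : ℝ) ^ 2 * D := by positivity
      have : (k * (j : ℝ) ^ 2) * ((q : ℝ) ^ 2 * D) ≤ (4 * K ^ 2) * ((q : ℝ) ^ 2 * D) := by
        calc (k * (j : ℝ) ^ 2) * ((q : ℝ) ^ 2 * D) = k * (D * ((q : ℝ) * j) ^ 2) := by ring
          _ ≤ _ := h6
      exact le_of_mul_le_mul_right this hqD
    have h8 : (j : ℝ) ^ 2 ≤ (2 * K * N) ^ 2 := by
      have : (1 : ℝ) ≤ (N : ℝ) ^ 2 * k := hK.trans hN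
      calc (j : ℝ) ^ 2 = 1 * (j : ℝ) ^ 2 := by ring
        _ ≤ ((N : ℝ) ^ 2 * k) * (j : ℝ) ^ 2 := mul_le_mul_of_nonneg_right this (sq_nonneg _)
        _ = (N : ℝ) ^ 2 * (k * (j : ℝ) ^ 2) := by ring
        _ ≤ (N : ℝ) ^ 2 * (4 * K ^ 2) := mul_le_mul_of_nonneg_left h7 (sq_nonneg _)
        _ = (2 * K * N) ^ 2 := by ring
    have h9 : |(j : ℝ)| ≤ 2 * K * N := abs_le_of_sq_le_sq h8 (by positivity)
    have h10 : 2 * K * N ≤ (L : ℝ) := by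
      rw [hL]; push_cast
      have := Nat.le_ceil K
      have hN0 : (0 : ℝ) ≤ N := Nat.cast_nonneg N
      nlinarith
    have h11 : |(j : ℝ)| ≤ (L : ℝ) := h9.trans h10
    rw [hI, Finset.mem_Icc]
    rw [abs_le] at h11
    constructor
    · exact_mod_cast h11.1
    · exact_mod_cast h11.2
  calc U.card ≤ (4 * N + 1) * I.card := by
        refine Finset.card_le_mul_card_image_of_maps_to hmaps (4 * N + 1) ?_
        intro j hj
        obtain ⟨hc, ha1, ha2⟩ := hU u0 hu0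
        refine lin A B C hA1 hD u0.1 u0.2 hc ((q : ℤ) * j) (k * T ^ 2) (K * T ^ 2) N (by positivity) ha1 ?_ _ ?_
        · nlinarith
        · intro w hw
          rw [Finset.mem_filter] at hw
          obtain ⟨hw1, hw2⟩ := hw
          refine ⟨?_, (hU w hw1).2.2⟩
          obtain ⟨i, hi⟩ := hdet u0 hu0 w hw1
          rw [hi, Int.mul_ediv_cancel_left _ hq'.ne'] at hw2
          rw [hi, hw2]
    _ = (2 * L + 1) * (4 * N + 1) := by rw [hIc, mul_comm]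

theorem cuA (k K : ℝ) (hk : 0 < k) (hk1 : k ≤ 1) (hK : 1 ≤ K) : ∃ N2 : ℕ, ∀ T : ℝ, 1 ≤ T →
    ∀ q : ℕ, q.Prime → 3 < q → ∀ a b c d : ℤ, Red a b c d →
      ¬ ((q : ℤ) ∣ a ∧ (q : ℤ) ∣ b ∧ (q : ℤ) ∣ c ∧ (q : ℤ) ∣ d) →
      k * T ^ 4 ≤ (q : ℝ) ^ 2 * (dD a b c d : ℤ) →
      ∀ S : Finset ((ℤ × ℤ) × (ℤ × ℤ)),
        (∀ w ∈ S, IsCoprime w.1.1 w.1.2 ∧ w.1.1 * w.2.2 - w.2.1 * w.1.2 = (q : ℤ) ∧
          (q : ℤ) ∣ ev a b c d w.1.1 w.1.2 ∧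
          k * T ^ 2 ≤ (qf (hA a b c) (hB a b c d) (hC b c d) w.1.1 w.1.2 : ℤ) ∧
          ((qf (hA a b c) (hB a b c d) (hC b c d) w.1.1 w.1.2 : ℤ) : ℝ) ≤ K * T ^ 2 ∧
          ((qf (hA a b c) (hB a b c d) (hC b c d) w.2.1 w.2.2 : ℤ) : ℝ) ≤ K * T ^ 2) →
        S.card ≤ N2 := by
  classical
  obtain ⟨N, hN⟩ : ∃ N : ℕ, K ≤ (N : ℝ) ^ 2 * k := by
    obtain ⟨N, hN⟩ := exists_nat_ge (K / k)
    refine ⟨N, ?_⟩
    have h1 : 1 ≤ K / k := by rw [le_div_iff₀ hk]; linarith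
    have h2 : (1 : ℝ) ≤ N := h1.trans hN
    have h3 : K ≤ N * k := by rwa [div_le_iff₀ hk] at hN
    nlinarith [mul_nonneg (sub_nonneg.2 h2) (mul_nonneg (Nat.cast_nonneg (α := ℝ) N) hk.le)]
  refine ⟨(4 * N + 1) * (((2 * (2 * ⌈K⌉₊ * N) + 1) * (4 * N + 1)) * 4), ?_⟩
  intro T hT q hq h3 a b c d hred hnd hTq S hS
  have hA1 := A_pos a b c d hred
  have hD : 0 < 4 * hA a b c * hC b c d - hB a b c d ^ 2 := by rw [← dD_eq]; exact hred.2.2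
  have hT2 : 0 < T ^ 2 := by positivity
  have hX : K * T ^ 2 ≤ (N : ℝ) ^ 2 * (k * T ^ 2) := by nlinarith
  obtain ⟨f, hf⟩ := rts q hq h3 a b c d hnd
  set U := S.image Prod.fst with hUdef
  have hUp : ∀ u ∈ U, ∃ w ∈ S, w.1 = u := by
    intro u hu
    rw [hUdef, Finset.mem_image] at hu
    exact hu
  have hcardS : S.card ≤ (4 * N + 1) * U.card := by
    refine Finset.card_le_mul_card_image (f := Prod.fst) S (4 * N + 1) ?_
    intro u hu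
    obtain ⟨w0, hw0, rfl⟩ := hUp u hu
    obtain ⟨hc, hdet, hdiv, hlow, hup1, hup2⟩ := hS w0 hw0
    have hinj : Set.InjOn Prod.snd (↑({x ∈ S | x.1 = w0.1} : Finset ((ℤ × ℤ) × (ℤ × ℤ))) : Set ((ℤ × ℤ) × (ℤ × ℤ))) := by
      intro x hx y hy hxy
      simp only [Finset.coe_filter, Set.mem_setOf_eq] at hx hy
      exact Prod.ext (hx.2.trans hy.2.symm) hxy
    rw [← Finset.card_image_of_injOn hinj]
    refine lin (hA a b c) (hB a b c d) (hC b c d) hA1 hD w0.1.1 w0.1.2 hc (q : ℤ) (k * T ^ 2) (K * T ^ 2) N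
      (by positivity) hlow hX _ ?_
    intro v hv
    rw [Finset.mem_image] at hv
    obtain ⟨x, hx, rfl⟩ := hv
    rw [Finset.mem_filter] at hx
    obtain ⟨hx1, hx2⟩ := hx
    obtain ⟨-, h2, -, -, -, h6⟩ := hS x hx1
    rw [← hx2]
    exact ⟨h2, h6⟩
  have hcardU : U.card ≤ ((2 * (2 * ⌈K⌉₊ * N) + 1) * (4 * N + 1)) * 4 := by
    have h4 : (Finset.univ : Finset (Fin 4)).card = 4 := by simp
    have := Finset.card_le_mul_card_image_of_maps_to (s := U) (t := (Finset.univ : Finset (Fin 4))) (f := f)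
      (fun _ _ => Finset.mem_univ _) ((2 * (2 * ⌈K⌉₊ * N) + 1) * (4 * N + 1)) ?_
    · rwa [h4] at this
    intro i _
    refine classBound k K hk hK N hN T hT q hq.pos (hA a b c) (hB a b c d) (hC b c d) hA1 hD ?_ _ ?_ ?_
    · rw [← dD_eq]; exact hTq
    · intro u hu
      rw [Finset.mem_filter] at hu
      obtain ⟨w, hw, rfl⟩ := hUp u hu.1
      obtain ⟨h1, -, -, h4, h5, -⟩ := hS w hw
      exact ⟨h1, h4, h5⟩
    · intro u hu v hv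
      rw [Finset.mem_filter] at hu hv
      obtain ⟨w, hw, rfl⟩ := hUp u hu.1
      obtain ⟨w', hw', rfl⟩ := hUp v hv.1
      exact hf _ _ (hS w hw).2.2.1 (hS w' hw').2.2.1 (hu.2.trans hv.2.symm)
  calc S.card ≤ (4 * N + 1) * U.card := hcardS
    _ ≤ _ := Nat.mul_le_mul_left _ hcardU

end Pool.Agent.PPB
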