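import Pool.Agent.PPB.DefsB

/-!
# PPB/RcI (size 3)

Inequalities for a reduced form.  PROOF.  Write `A, B, C, D`.  `4 A³ = G² + D a²` and `4 A C = D + B² > 0` give `A > 0`;
`B² ≤ A² ≤ A C`, so `D = 4 A C - B² ≥ 3 A C`.  Identity `A b² - B a b + C a² = A²` (ring after unfolding; it follows from
`a C - b B + c A = 0`) times `4 C`: `(2 C a - B b)² + D b² = 4 C A²`, so `3 A C b² ≤ D b² ≤ 4 C A²`, `3 b² ≤ 4 A`; times `4 A`:
`(2 A b - B a)² + D a² = 4 A³`, so `3 C a² ≤ 4 A²`.  In the same way with `C c² - B c d + A d² = C²`.  Then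
`9 A C (a d)² ≤ 16 A² C²`, etc., and `A C ≤ D / 3`.
-/

set_option autoImplicit false

namespace Pool.Agent.PPB

private theorem rcI_aux (a b c d A B C D : ℤ) (hB : |B| ≤ A) (hAC : A ≤ C) (hD : 0 < D)
    (eD : 4 * (A * C) = D + B ^ 2)
    (e1 : (2 * C * a - B * b) ^ 2 + D * b ^ 2 = 4 * C * A ^ 2)
    (e2 : (2 * A * b - B * a) ^ 2 + D * a ^ 2 = 4 * A ^ 3)
    (e3 : (2 * A * d - B * c) ^ 2 + D * c ^ 2 = 4 * A * C ^ 2)
    (e4 : (2 * C * c - B * d) ^ 2 + D * d ^ 2 = 4 * C ^ 3) :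
    0 < A ∧ 3 * (A * C) ≤ D ∧ 3 * b ^ 2 ≤ 4 * A ∧ 3 * c ^ 2 ≤ 4 * C ∧
    3 * C * a ^ 2 ≤ 4 * A ^ 2 ∧ 3 * A * d ^ 2 ≤ 4 * C ^ 2 ∧
    (a * d) ^ 2 ≤ D ∧ (b * c) ^ 2 ≤ D ∧ a ^ 2 ≤ D ^ 2 ∧ b ^ 2 ≤ D ∧ c ^ 2 ≤ D ∧ d ^ 2 ≤ D ^ 2 := by
  have hA0 : 0 ≤ A := (abs_nonneg B).trans hB
  have hA : 0 < A := by
    rcases hA0.lt_or_eq with h | h
    · exact h
    · exfalso
      rw [← h] at eD
      nlinarith [sq_nonneg B]
  have hC : 0 < C := lt_of_lt_of_le hA hAC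
  have hBB : B ^ 2 ≤ A ^ 2 := sq_le_sq' (by linarith [neg_abs_le B]) ((le_abs_self B).trans hB)
  have hAAC : A ^ 2 ≤ A * C := by nlinarith
  have hD3 : 3 * (A * C) ≤ D := by linarith
  have hACp : 0 < A * C := mul_pos hA hC
  have hb2 : 3 * b ^ 2 ≤ 4 * A := by
    have h1 : 3 * (A * C) * b ^ 2 ≤ D * b ^ 2 := mul_le_mul_of_nonneg_right hD3 (sq_nonneg b)
    have h2 : D * b ^ 2 ≤ 4 * C * A ^ 2 := by linarith [sq_nonneg (2 * C * a - B * b)]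
    have h3 : (A * C) * (3 * b ^ 2) ≤ (A * C) * (4 * A) := by
      calc (A * C) * (3 * b ^ 2) = 3 * (A * C) * b ^ 2 := by ring
        _ ≤ 4 * C * A ^ 2 := h1.trans h2
        _ = (A * C) * (4 * A) := by ring
    exact le_of_mul_le_mul_left h3 hACp
  have hc2 : 3 * c ^ 2 ≤ 4 * C := by
    have h1 : 3 * (A * C) * c ^ 2 ≤ D * c ^ 2 := mul_le_mul_of_nonneg_right hD3 (sq_nonneg c)
    have h2 : D * c ^ 2 ≤ 4 * A * C ^ 2 := by linarith [sq_nonneg (2 * A * d - B * c)]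
    have h3 : (A * C) * (3 * c ^ 2) ≤ (A * C) * (4 * C) := by
      calc (A * C) * (3 * c ^ 2) = 3 * (A * C) * c ^ 2 := by ring
        _ ≤ 4 * A * C ^ 2 := h1.trans h2
        _ = (A * C) * (4 * C) := by ring
    exact le_of_mul_le_mul_left h3 hACp
  have ha2 : 3 * C * a ^ 2 ≤ 4 * A ^ 2 := by
    have h1 : 3 * (A * C) * a ^ 2 ≤ D * a ^ 2 := mul_le_mul_of_nonneg_right hD3 (sq_nonneg a)
    have h2 : D * a ^ 2 ≤ 4 * A ^ 3 := by linarith [sq_nonneg (2 * A * b - B * a)]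
    have h3 : A * (3 * C * a ^ 2) ≤ A * (4 * A ^ 2) := by
      calc A * (3 * C * a ^ 2) = 3 * (A * C) * a ^ 2 := by ring
        _ ≤ 4 * A ^ 3 := h1.trans h2
        _ = A * (4 * A ^ 2) := by ring
    exact le_of_mul_le_mul_left h3 hA
  have hd2 : 3 * A * d ^ 2 ≤ 4 * C ^ 2 := by
    have h1 : 3 * (A * C) * d ^ 2 ≤ D * d ^ 2 := mul_le_mul_of_nonneg_right hD3 (sq_nonneg d)
    have h2 : D * d ^ 2 ≤ 4 * C ^ 3 := by linarith [sq_nonneg (2 * C * c - B * d)]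
    have h3 : C * (3 * A * d ^ 2) ≤ C * (4 * C ^ 2) := by
      calc C * (3 * A * d ^ 2) = 3 * (A * C) * d ^ 2 := by ring
        _ ≤ 4 * C ^ 3 := h1.trans h2
        _ = C * (4 * C ^ 2) := by ring
    exact le_of_mul_le_mul_left h3 hC
  have hbc : (b * c) ^ 2 ≤ D := by
    have h1 : (3 * b ^ 2) * (3 * c ^ 2) ≤ (4 * A) * (4 * C) :=
      mul_le_mul hb2 hc2 (by positivity) (by positivity)
    have h2 : (b * c) ^ 2 = b ^ 2 * c ^ 2 := by ring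
    have h3 : 9 * (b ^ 2 * c ^ 2) ≤ 16 * (A * C) := by
      calc 9 * (b ^ 2 * c ^ 2) = (3 * b ^ 2) * (3 * c ^ 2) := by ring
        _ ≤ (4 * A) * (4 * C) := h1
        _ = 16 * (A * C) := by ring
    rw [h2]
    linarith
  have had : (a * d) ^ 2 ≤ D := by
    have h1 : (3 * C * a ^ 2) * (3 * A * d ^ 2) ≤ (4 * A ^ 2) * (4 * C ^ 2) :=
      mul_le_mul ha2 hd2 (by positivity) (by positivity)
    have h3 : (A * C) * (9 * (a * d) ^ 2) ≤ (A * C) * (16 * (A * C)) := by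
      calc (A * C) * (9 * (a * d) ^ 2) = (3 * C * a ^ 2) * (3 * A * d ^ 2) := by ring
        _ ≤ (4 * A ^ 2) * (4 * C ^ 2) := h1
        _ = (A * C) * (16 * (A * C)) := by ring
    have h4 := le_of_mul_le_mul_left h3 hACp
    linarith
  have hA1 : A ≤ A * C := by nlinarith
  have hC1 : C ≤ A * C := by nlinarith
  have hDD : D ≤ D ^ 2 := by nlinarith
  have ha3 : 3 * a ^ 2 ≤ 4 * A := by
    have h3 : C * (3 * a ^ 2) ≤ C * (4 * A) := by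
      calc C * (3 * a ^ 2) = 3 * C * a ^ 2 := by ring
        _ ≤ 4 * A ^ 2 := ha2
        _ ≤ 4 * (A * C) := by linarith
        _ = C * (4 * A) := by ring
    exact le_of_mul_le_mul_left h3 hC
  have hd3 : 3 * d ^ 2 ≤ 4 * C ^ 2 := by
    have h3 : 3 * d ^ 2 ≤ 3 * A * d ^ 2 := by nlinarith [sq_nonneg d]
    exact h3.trans hd2
  have hC2 : C ^ 2 ≤ (A * C) ^ 2 := by
    exact pow_le_pow_left₀ hC.le hC1 2
  have hACD : A * C ≤ D := by linarith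
  have hACD2 : 9 * (A * C) ^ 2 ≤ D ^ 2 := by
    have h5 : (3 * (A * C)) ^ 2 ≤ D ^ 2 := pow_le_pow_left₀ (by positivity) hD3 2
    calc 9 * (A * C) ^ 2 = (3 * (A * C)) ^ 2 := by ring
      _ ≤ D ^ 2 := h5
  refine ⟨hA, hD3, hb2, hc2, ha2, hd2, had, hbc, ?_, ?_, ?_, ?_⟩
  · linarith
  · linarith
  · linarith
  · linarith [sq_nonneg (A * C)]

theorem rcI (a b c d : ℤ) (h : Red a b c d) :
    0 < hA a b c ∧ 3 * (hA a b c * hC b c d) ≤ dD a b c d ∧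
    3 * b ^ 2 ≤ 4 * hA a b c ∧ 3 * c ^ 2 ≤ 4 * hC b c d ∧
    3 * hC b c d * a ^ 2 ≤ 4 * hA a b c ^ 2 ∧ 3 * hA a b c * d ^ 2 ≤ 4 * hC b c d ^ 2 ∧
    (a * d) ^ 2 ≤ dD a b c d ∧ (b * c) ^ 2 ≤ dD a b c d ∧
    a ^ 2 ≤ dD a b c d ^ 2 ∧ b ^ 2 ≤ dD a b c d ∧ c ^ 2 ≤ dD a b c d ∧ d ^ 2 ≤ dD a b c d ^ 2 := by
  obtain ⟨h1, h2, h3⟩ := h
  refine rcI_aux a b c d (hA a b c) (hB a b c d) (hC b c d) (dD a b c d) h1 h2 h3 ?_ ?_ ?_ ?_ ?_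
  all_goals
    simp only [hA, hB, hC, dD]
    ring

end Pool.Agent.PPB
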