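import Pool.Agent.PPB.DefsB
import Pool.Agent.PPB.RcI

/-!
# PPB/RcB

Reduced forms with `a = 0` or `d = 0`.
-/

set_option autoImplicit false

namespace Pool.Agent.PPB

theorem rcF (Y : ℝ) : (redS Y).Finite := by
  obtain ⟨N, hN⟩ : ∃ N : ℤ, N = ⌊Y⌋ := ⟨_, rfl⟩
  have hsub : redS Y ⊆ ((Finset.Icc (-N) N ×ˢ Finset.Icc (-N) N ×ˢ Finset.Icc (-N) N ×ˢ
      Finset.Icc (-N) N : Finset (ℤ × ℤ × ℤ × ℤ)) : Set (ℤ × ℤ × ℤ × ℤ)) := by
    rintro ⟨a, b, c, d⟩ ⟨hR, hD⟩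
    replace hR : Red a b c d := hR
    replace hD : ((dD a b c d : ℤ) : ℝ) ≤ Y := hD
    obtain ⟨-, -, -, -, -, -, -, -, h1, h2, h3, h4⟩ := rcI a b c d hR
    have hD0 : 0 < dD a b c d := hR.2.2
    have hDN : dD a b c d ≤ N := by rw [hN]; exact Int.le_floor.mpr hD
    obtain ⟨D, hDD⟩ : ∃ D : ℤ, D = dD a b c d := ⟨_, rfl⟩
    rw [← hDD] at h1 h2 h3 h4 hD0 hDN
    have hDD2 : D ≤ D ^ 2 := by nlinarith
    have a1 := abs_le_of_sq_le_sq' h1 hD0.le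
    have a2 := abs_le_of_sq_le_sq' (h2.trans hDD2) hD0.le
    have a3 := abs_le_of_sq_le_sq' (h3.trans hDD2) hD0.le
    have a4 := abs_le_of_sq_le_sq' h4 hD0.le
    rw [Finset.mem_coe, Finset.mem_product, Finset.mem_product, Finset.mem_product]
    refine ⟨Finset.mem_Icc.mpr ?_, Finset.mem_Icc.mpr ?_, Finset.mem_Icc.mpr ?_,
      Finset.mem_Icc.mpr ?_⟩
    · exact ⟨by show -N ≤ a; linarith [a1.1], by show a ≤ N; linarith [a1.2]⟩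
    · exact ⟨by show -N ≤ b; linarith [a2.1], by show b ≤ N; linarith [a2.2]⟩
    · exact ⟨by show -N ≤ c; linarith [a3.1], by show c ≤ N; linarith [a3.2]⟩
    · exact ⟨by show -N ≤ d; linarith [a4.1], by show d ≤ N; linarith [a4.2]⟩
  exact (Finset.finite_toSet _).subset hsub

private theorem RcB_sum (n : ℕ) : ∑ t ∈ Finset.Icc 1 n, (1 : ℝ) / (t : ℝ) ^ 2 ≤ 2 := by
  have h : ∀ m : ℕ, ∑ t ∈ Finset.Icc 1 (m + 1), (1 : ℝ) / (t : ℝ) ^ 2 ≤ 2 - 1 / ((m : ℝ) + 1) := by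
    intro m
    induction m with
    | zero => norm_num
    | succ m ih =>
      rw [Finset.sum_Icc_succ_top (by omega)]
      have hm : (0 : ℝ) < (m : ℝ) + 1 := by positivity
      have hm2 : (0 : ℝ) < (m : ℝ) + 1 + 1 := by positivity
      have key : (1 : ℝ) / ((m : ℝ) + 1 + 1) ^ 2 ≤ 1 / ((m : ℝ) + 1) - 1 / ((m : ℝ) + 1 + 1) := by
        rw [div_sub_div _ _ hm.ne' hm2.ne', div_le_div_iff₀ (by positivity) (by positivity)]
        nlinarith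
      push_cast
      linarith
  rcases Nat.eq_zero_or_pos n with h0 | h0
  · rw [h0]; norm_num
  · obtain ⟨m, rfl⟩ : ∃ m, n = m + 1 := ⟨n - 1, by omega⟩
    have := h m
    have h2 : (0 : ℝ) ≤ 1 / ((m : ℝ) + 1) := by positivity
    linarith

private theorem RcB_tot (Y : ℝ) (hY : 1 ≤ Y) (f : ℕ → ℝ) (c : ℝ) (hc : 0 ≤ c)
    (hf : ∀ t : ℕ, 1 ≤ t → (t : ℝ) ^ 3 ≤ Y → f t ≤ c * Y / (t : ℝ) ^ 2) :
    ∑ t ∈ (Finset.Icc 1 ⌊Y⌋₊).filter (fun t : ℕ => (t : ℝ) ^ 3 ≤ Y), f t ≤ 2 * c * Y := by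
  calc ∑ t ∈ (Finset.Icc 1 ⌊Y⌋₊).filter (fun t : ℕ => (t : ℝ) ^ 3 ≤ Y), f t
      ≤ ∑ t ∈ (Finset.Icc 1 ⌊Y⌋₊).filter (fun t : ℕ => (t : ℝ) ^ 3 ≤ Y), c * Y / (t : ℝ) ^ 2 := by
        refine Finset.sum_le_sum fun t ht => ?_
        rw [Finset.mem_filter, Finset.mem_Icc] at ht
        exact hf t ht.1.1 ht.2
    _ ≤ ∑ t ∈ Finset.Icc 1 ⌊Y⌋₊, c * Y / (t : ℝ) ^ 2 := by
        refine Finset.sum_le_sum_of_subset_of_nonneg (Finset.filter_subset _ _) ?_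
        intro t _ _
        positivity
    _ = c * Y * ∑ t ∈ Finset.Icc 1 ⌊Y⌋₊, (1 : ℝ) / (t : ℝ) ^ 2 := by
        rw [Finset.mul_sum]
        refine Finset.sum_congr rfl fun t _ => ?_
        ring
    _ ≤ c * Y * 2 := mul_le_mul_of_nonneg_left (RcB_sum _) (by positivity)
    _ = 2 * c * Y := by ring

private noncomputable def RcB_T1 (Y : ℝ) : Finset (ℤ × ℤ × ℤ × ℤ) :=
  ((Finset.Icc 1 ⌊Y⌋₊).filter (fun t : ℕ => (t : ℝ) ^ 3 ≤ Y)).biUnion fun t =>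
    ({0} : Finset ℤ) ×ˢ ({(t : ℤ), -(t : ℤ)} : Finset ℤ) ×ˢ Finset.Icc (-(t : ℤ)) (t : ℤ) ×ˢ
      Finset.Icc (-(⌊Y / (t : ℝ) ^ 3⌋₊ : ℤ)) (⌊Y / (t : ℝ) ^ 3⌋₊ : ℤ)

private noncomputable def RcB_T2 (Y : ℝ) : Finset (ℤ × ℤ × ℤ × ℤ) :=
  ((Finset.Icc 1 ⌊Y⌋₊).filter (fun t : ℕ => (t : ℝ) ^ 3 ≤ Y)).biUnion fun t =>
    ((Finset.Icc (-(⌊Y / (t : ℝ) ^ 3⌋₊ : ℤ)) (⌊Y / (t : ℝ) ^ 3⌋₊ : ℤ)).erase 0) ×ˢ
      Finset.Icc (-(2 * (t : ℤ))) (2 * (t : ℤ)) ×ˢ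
      ({(t : ℤ), -(t : ℤ)} : Finset ℤ) ×ˢ ({0} : Finset ℤ)

private theorem RcB_icc (m : ℕ) : ((Finset.Icc (-(m : ℤ)) (m : ℤ)).card : ℝ) = 2 * (m : ℝ) + 1 := by
  rw [Int.card_Icc]
  have h : ((m : ℤ) + 1 - -(m : ℤ)).toNat = 2 * m + 1 := by omega
  rw [h]; push_cast; ring

private theorem RcB_two (t : ℕ) : ((({(t : ℤ), -(t : ℤ)} : Finset ℤ)).card : ℝ) ≤ 2 := by
  have h : (({(t : ℤ), -(t : ℤ)} : Finset ℤ)).card ≤ 2 := Finset.card_le_two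
  exact_mod_cast h

private theorem RcB_c1 (Y : ℝ) (hY : 1 ≤ Y) : ((RcB_T1 Y).card : ℝ) ≤ 36 * Y := by
  have h1 : ((RcB_T1 Y).card : ℝ) ≤
      ∑ t ∈ (Finset.Icc 1 ⌊Y⌋₊).filter (fun t : ℕ => (t : ℝ) ^ 3 ≤ Y),
      ((({0} : Finset ℤ) ×ˢ ({(t : ℤ), -(t : ℤ)} : Finset ℤ) ×ˢ Finset.Icc (-(t : ℤ)) (t : ℤ) ×ˢ
      Finset.Icc (-(⌊Y / (t : ℝ) ^ 3⌋₊ : ℤ)) (⌊Y / (t : ℝ) ^ 3⌋₊ : ℤ)).card : ℝ) := by
    rw [← Nat.cast_sum]
    exact Nat.cast_le.mpr Finset.card_biUnion_le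
  have h2 := RcB_tot Y hY (fun t => ((({0} : Finset ℤ) ×ˢ ({(t : ℤ), -(t : ℤ)} : Finset ℤ) ×ˢ
    Finset.Icc (-(t : ℤ)) (t : ℤ) ×ˢ
      Finset.Icc (-(⌊Y / (t : ℝ) ^ 3⌋₊ : ℤ)) (⌊Y / (t : ℝ) ^ 3⌋₊ : ℤ)).card : ℝ)) 18 (by norm_num)
    (by
      intro t ht ht3
      have ht0 : (1 : ℝ) ≤ (t : ℝ) := by exact_mod_cast ht
      have ht00 : (0 : ℝ) < (t : ℝ) := by linarith
      have hq0 : 0 ≤ Y / (t : ℝ) ^ 3 := by positivity
      have hq1 : 1 ≤ Y / (t : ℝ) ^ 3 := by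
        rw [le_div_iff₀ (by positivity)]; linarith
      have hfl : ((⌊Y / (t : ℝ) ^ 3⌋₊ : ℕ) : ℝ) ≤ Y / (t : ℝ) ^ 3 := Nat.floor_le hq0
      simp only [Finset.card_product, Finset.card_singleton, one_mul]
      push_cast
      rw [RcB_icc, RcB_icc]
      have e1 : (2 * (t : ℝ) + 1) * (2 * (⌊Y / (t : ℝ) ^ 3⌋₊ : ℝ) + 1) ≤
          (3 * (t : ℝ)) * (3 * (Y / (t : ℝ) ^ 3)) :=
        mul_le_mul (by linarith) (by linarith) (by positivity) (by positivity)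
      have e2 : ((({(t : ℤ), -(t : ℤ)} : Finset ℤ)).card : ℝ) *
          ((2 * (t : ℝ) + 1) * (2 * (⌊Y / (t : ℝ) ^ 3⌋₊ : ℝ) + 1)) ≤
          2 * ((3 * (t : ℝ)) * (3 * (Y / (t : ℝ) ^ 3))) :=
        mul_le_mul (RcB_two t) e1 (by positivity) (by norm_num)
      refine e2.trans (le_of_eq ?_)
      field_simp
      ring)
  linarith

private theorem RcB_c2 (Y : ℝ) (hY : 1 ≤ Y) : ((RcB_T2 Y).card : ℝ) ≤ 40 * Y := by
  have h1 : ((RcB_T2 Y).card : ℝ) ≤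
      ∑ t ∈ (Finset.Icc 1 ⌊Y⌋₊).filter (fun t : ℕ => (t : ℝ) ^ 3 ≤ Y),
      ((((Finset.Icc (-(⌊Y / (t : ℝ) ^ 3⌋₊ : ℤ)) (⌊Y / (t : ℝ) ^ 3⌋₊ : ℤ)).erase 0) ×ˢ
      Finset.Icc (-(2 * (t : ℤ))) (2 * (t : ℤ)) ×ˢ
      ({(t : ℤ), -(t : ℤ)} : Finset ℤ) ×ˢ ({0} : Finset ℤ)).card : ℝ) := by
    rw [← Nat.cast_sum]
    exact Nat.cast_le.mpr Finset.card_biUnion_le
  have h2 := RcB_tot Y hY (fun t => ((((Finset.Icc (-(⌊Y / (t : ℝ) ^ 3⌋₊ : ℤ))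
      (⌊Y / (t : ℝ) ^ 3⌋₊ : ℤ)).erase 0) ×ˢ
      Finset.Icc (-(2 * (t : ℤ))) (2 * (t : ℤ)) ×ˢ
      ({(t : ℤ), -(t : ℤ)} : Finset ℤ) ×ˢ ({0} : Finset ℤ)).card : ℝ)) 20 (by norm_num)
    (by
      intro t ht ht3
      have ht0 : (1 : ℝ) ≤ (t : ℝ) := by exact_mod_cast ht
      have ht00 : (0 : ℝ) < (t : ℝ) := by linarith
      have hq0 : 0 ≤ Y / (t : ℝ) ^ 3 := by positivity
      have hfl : ((⌊Y / (t : ℝ) ^ 3⌋₊ : ℕ) : ℝ) ≤ Y / (t : ℝ) ^ 3 := Nat.floor_le hq0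
      obtain ⟨m, hm⟩ : ∃ m : ℕ, m = ⌊Y / (t : ℝ) ^ 3⌋₊ := ⟨_, rfl⟩
      rw [← hm] at hfl
      simp only [Finset.card_product, Finset.card_singleton, mul_one]
      rw [← hm]
      have hce : (((Finset.Icc (-(m : ℤ)) (m : ℤ)).erase 0).card : ℝ) = 2 * (m : ℝ) := by
        have hmem : (0 : ℤ) ∈ Finset.Icc (-(m : ℤ)) (m : ℤ) := by
          rw [Finset.mem_Icc]; omega
        have h3 := Finset.card_erase_add_one hmem
        have h4 := RcB_icc m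
        rw [← h3] at h4
        push_cast at h4
        linarith
      have hc2 : ((Finset.Icc (-(2 * (t : ℤ))) (2 * (t : ℤ))).card : ℝ) = 4 * (t : ℝ) + 1 := by
        have h3 := RcB_icc (2 * t)
        push_cast at h3
        rw [h3]; ring
      push_cast
      rw [hce, hc2]
      have e1 : (4 * (t : ℝ) + 1) * ((({(t : ℤ), -(t : ℤ)} : Finset ℤ)).card : ℝ) ≤
          (5 * (t : ℝ)) * 2 :=
        mul_le_mul (by linarith) (RcB_two t) (by positivity) (by positivity)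
      have e2 : 2 * (m : ℝ) * ((4 * (t : ℝ) + 1) *
          ((({(t : ℤ), -(t : ℤ)} : Finset ℤ)).card : ℝ)) ≤
          2 * (Y / (t : ℝ) ^ 3) * ((5 * (t : ℝ)) * 2) :=
        mul_le_mul (by linarith) e1 (by positivity) (by positivity)
      refine e2.trans (le_of_eq ?_)
      field_simp
      ring)
  linarith

private theorem RcB_fl (Y : ℝ) (z w : ℤ) (hw : w ≠ 0) (h : ((|z| * |w| ^ 3 : ℤ) : ℝ) ≤ Y) :
    -(⌊Y / ((w.natAbs : ℕ) : ℝ) ^ 3⌋₊ : ℤ) ≤ z ∧ z ≤ (⌊Y / ((w.natAbs : ℕ) : ℝ) ^ 3⌋₊ : ℤ) := by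
  have hw0 : (0 : ℝ) < ((w.natAbs : ℕ) : ℝ) := by
    exact_mod_cast Int.natAbs_pos.mpr hw
  have e1 : ((w.natAbs : ℕ) : ℝ) = ((|w| : ℤ) : ℝ) := by
    rw [Int.abs_eq_natAbs, Int.cast_natCast]
  have e2 : ((z.natAbs : ℕ) : ℝ) = ((|z| : ℤ) : ℝ) := by
    rw [Int.abs_eq_natAbs, Int.cast_natCast]
  have h1 : ((z.natAbs : ℕ) : ℝ) ≤ Y / ((w.natAbs : ℕ) : ℝ) ^ 3 := by
    rw [le_div_iff₀ (by positivity), e1, e2]
    push_cast at h ⊢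
    exact h
  have h2 : z.natAbs ≤ ⌊Y / ((w.natAbs : ℕ) : ℝ) ^ 3⌋₊ := Nat.le_floor h1
  constructor <;> omega

private theorem RcB_mem (Y : ℝ) (w : ℤ) (hw : w ≠ 0) (h : ((|w| ^ 3 : ℤ) : ℝ) ≤ Y) :
    w.natAbs ∈ (Finset.Icc 1 ⌊Y⌋₊).filter (fun t : ℕ => (t : ℝ) ^ 3 ≤ Y) := by
  have hw1 : 1 ≤ w.natAbs := Int.natAbs_pos.mpr hw
  have e1 : ((w.natAbs : ℕ) : ℝ) = ((|w| : ℤ) : ℝ) := by
    rw [Int.abs_eq_natAbs, Int.cast_natCast]
  have h3 : ((w.natAbs : ℕ) : ℝ) ^ 3 ≤ Y := by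
    rw [e1]; push_cast at h ⊢; exact h
  refine Finset.mem_filter.mpr ⟨Finset.mem_Icc.mpr ⟨hw1, ?_⟩, h3⟩
  refine Nat.le_floor (le_trans ?_ h3)
  have h4 : (1 : ℝ) ≤ ((w.natAbs : ℕ) : ℝ) := by exact_mod_cast hw1
  exact le_self_pow₀ h4 (by norm_num)

theorem rcB (Y : ℝ) (hY : 1 ≤ Y) :
    ((redS Y ∩ {F | F.1 = 0 ∨ F.2.2.2 = 0}).ncard : ℝ) ≤ 100 * Y := by
  classical
  have hsub : redS Y ∩ {F | F.1 = 0 ∨ F.2.2.2 = 0} ⊆
      ((RcB_T1 Y ∪ RcB_T2 Y : Finset (ℤ × ℤ × ℤ × ℤ)) : Set (ℤ × ℤ × ℤ × ℤ)) := by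
    rintro ⟨a, b, c, d⟩ ⟨⟨hR, hD⟩, h0⟩
    replace hR : Red a b c d := hR
    replace hD : ((dD a b c d : ℤ) : ℝ) ≤ Y := hD
    replace h0 : a = 0 ∨ d = 0 := h0
    obtain ⟨i1, i2, i3, i4, i5, i6, i7, i8, -, -, -, -⟩ := rcI a b c d hR
    obtain ⟨r1, r2, r3⟩ := hR
    rw [Finset.mem_coe, Finset.mem_union]
    by_cases ha : a = 0
    · left
      subst ha
      have hA' : hA 0 b c = b ^ 2 := by unfold hA; ring
      have hB' : hB 0 b c d = b * c := by unfold hB; ring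
      have hDeq : dD 0 b c d = 3 * (b * c) ^ 2 - 4 * (b ^ 3 * d) := by unfold dD; ring
      rw [hA'] at i1 i2 i3 r2 r1
      rw [hB'] at r1
      have hb0 : b ≠ 0 := by
        rintro rfl
        norm_num at i1
      have hbpos : 0 < |b| := abs_pos.mpr hb0
      have hcb : |c| ≤ |b| := by
        rw [abs_mul, ← sq_abs b, pow_two] at r1
        exact le_of_mul_le_mul_left r1 hbpos
      have hb4 : 3 * (b ^ 2 * b ^ 2) ≤ dD 0 b c d := by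
        have : b ^ 2 * b ^ 2 ≤ b ^ 2 * hC b c d := mul_le_mul_of_nonneg_left r2 (sq_nonneg b)
        linarith
      have hb3 : |b| ^ 3 ≤ dD 0 b c d := by
        have h1 : b ^ 2 * b ^ 2 = |b| ^ 3 * |b| := by
          have : b ^ 2 = |b| ^ 2 := (sq_abs b).symm
          rw [this]; ring
        have h2 : |b| ^ 3 ≤ |b| ^ 3 * |b| := le_mul_of_one_le_right (by positivity) hbpos
        have h3 : 0 ≤ |b| ^ 3 * |b| := by positivity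
        linarith
      have hd3 : |d| * |b| ^ 3 ≤ dD 0 b c d := by
        have h1 : |d| * |b| ^ 3 = |b ^ 3 * d| := by rw [abs_mul, abs_pow]; ring
        rw [h1, abs_le]
        have h2 : 0 ≤ (b * c) ^ 2 := sq_nonneg _
        constructor <;> linarith
      unfold RcB_T1
      rw [Finset.mem_biUnion]
      refine ⟨b.natAbs, RcB_mem Y b hb0 (le_trans (by exact_mod_cast hb3) hD), ?_⟩
      rw [Finset.mem_product, Finset.mem_product, Finset.mem_product]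
      refine ⟨by simp, ?_, ?_, ?_⟩
      · show b ∈ ({((b.natAbs : ℕ) : ℤ), -((b.natAbs : ℕ) : ℤ)} : Finset ℤ)
        rw [Finset.mem_insert, Finset.mem_singleton]
        omega
      · show c ∈ Finset.Icc (-((b.natAbs : ℕ) : ℤ)) ((b.natAbs : ℕ) : ℤ)
        rw [Finset.mem_Icc]
        have hcb' : (c.natAbs : ℤ) ≤ (b.natAbs : ℤ) := by
          rw [← Int.abs_eq_natAbs, ← Int.abs_eq_natAbs]; exact hcb
        omega
      · show d ∈ Finset.Icc _ _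
        rw [Finset.mem_Icc]
        exact RcB_fl Y d b hb0 (le_trans (by exact_mod_cast hd3) hD)
    · right
      have hd : d = 0 := by
        rcases h0 with h | h
        · exact absurd h ha
        · exact h
      subst hd
      have hC' : hC b c 0 = c ^ 2 := by unfold hC; ring
      have hDeq : dD a b c 0 = 3 * (b * c) ^ 2 - 4 * (a * c ^ 3) := by unfold dD; ring
      rw [hC'] at i2 i4 i5 r2
      have hc0 : c ≠ 0 := by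
        rintro rfl
        norm_num at r2
        linarith
      have hcpos : 0 < |c| := abs_pos.mpr hc0
      have hapos : 0 < |a| := abs_pos.mpr ha
      have hb2 : b ^ 2 ≤ (2 * |c|) ^ 2 := by
        have h1 : (2 * |c|) ^ 2 = 4 * c ^ 2 := by rw [mul_pow, sq_abs]; ring
        rw [h1]
        have := sq_nonneg b
        linarith
      have hb' := abs_le_of_sq_le_sq' hb2 (by positivity)
      have ha3 : |a| * |c| ^ 3 ≤ dD a b c 0 := by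
        have h1 : |a| * |c| ^ 3 = |a * c ^ 3| := by rw [abs_mul, abs_pow]
        rw [h1, abs_le]
        have h2 : 0 ≤ (b * c) ^ 2 := sq_nonneg _
        constructor <;> linarith
      have hc3 : |c| ^ 3 ≤ dD a b c 0 := by
        have h2 : |c| ^ 3 ≤ |a| * |c| ^ 3 := le_mul_of_one_le_left (by positivity) hapos
        linarith
      unfold RcB_T2
      rw [Finset.mem_biUnion]
      refine ⟨c.natAbs, RcB_mem Y c hc0 (le_trans (by exact_mod_cast hc3) hD), ?_⟩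
      rw [Finset.mem_product, Finset.mem_product, Finset.mem_product]
      refine ⟨?_, ?_, ?_, by simp⟩
      · show a ∈ Finset.erase _ _
        rw [Finset.mem_erase, Finset.mem_Icc]
        exact ⟨ha, RcB_fl Y a c hc0 (le_trans (by exact_mod_cast ha3) hD)⟩
      · show b ∈ Finset.Icc (-(2 * ((c.natAbs : ℕ) : ℤ))) (2 * ((c.natAbs : ℕ) : ℤ))
        rw [Finset.mem_Icc]
        have h1 : ((c.natAbs : ℕ) : ℤ) = |c| := (Int.abs_eq_natAbs c).symm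
        rw [h1]
        exact hb'
      · show c ∈ ({((c.natAbs : ℕ) : ℤ), -((c.natAbs : ℕ) : ℤ)} : Finset ℤ)
        rw [Finset.mem_insert, Finset.mem_singleton]
        omega
  have h1 : (redS Y ∩ {F | F.1 = 0 ∨ F.2.2.2 = 0}).ncard ≤ (RcB_T1 Y ∪ RcB_T2 Y).card := by
    rw [← Set.ncard_coe_finset]
    exact Set.ncard_le_ncard hsub (Finset.finite_toSet _)
  have h2 : (RcB_T1 Y ∪ RcB_T2 Y).card ≤ (RcB_T1 Y).card + (RcB_T2 Y).card :=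
    Finset.card_union_le _ _
  have h3 : ((redS Y ∩ {F | F.1 = 0 ∨ F.2.2.2 = 0}).ncard : ℝ) ≤
      ((RcB_T1 Y).card : ℝ) + ((RcB_T2 Y).card : ℝ) := by exact_mod_cast h1.trans h2
  have h4 := RcB_c1 Y hY
  have h5 := RcB_c2 Y hY
  linarith

end Pool.Agent.PPB
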