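import Pool.Agent.PPB.DefsB

/-!
# PPB/Gau (size 4)

Reduction of the Hessian.  Every `F` with `D > 0` is `R o g` with `g = (p, q; r, s)` of determinant 1 and `R` reduced.
PROOF.  `4 A³ = G² + D a²` (`G = 2 b³ - 3 a b c + a² d`) and `4 A C = D + B² > 0` give `A > 0`, `C > 0`.  Among all `h` of determinant 1
choose one for which `A(F o h) > 0` is minimal (well-founded induction on the positive integer `A`; `A(F o h)` is `qf A B C`
evaluated at the first column of `h`), and among these (translate by `(1, n; 0, 1)`, which changes `B` by `2 n A`) one with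
`|B| ≤ A`; then `C ≥ A`, since `(0, -1; 1, 0)` exchanges `A` and `C`.  Alternatively strong induction on `A.toNat`: translate to
`|B| ≤ A`; if `C < A` swap and use the induction hypothesis.  You need: composition of two substitutions is the substitution by the
product matrix (`ring`), the inverse of `g`, and the invariance of `dD` (`ring` after `p s - q r = 1`:
`dD(F o g) = (p s - q r)^6 dD F`).
-/

set_option autoImplicit false

namespace Pool.Agent.PPB

private theorem gau_pos (a b c d : ℤ) (hD : 0 < dD a b c d) : 0 < hA a b c ∧ 0 < hC b c d := by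
  have h1 : 4 * hA a b c ^ 3 = (2 * b ^ 3 - 3 * a * b * c + a ^ 2 * d) ^ 2 + dD a b c d * a ^ 2 := by
    unfold hA dD; ring
  have h2 : 4 * (hA a b c * hC b c d) = dD a b c d + hB a b c d ^ 2 := by
    unfold hA dD hB hC; ring
  have h3 : 0 < hA a b c * hC b c d := by nlinarith [sq_nonneg (hB a b c d)]
  have h4 : 0 ≤ hA a b c ^ 3 := by
    nlinarith [sq_nonneg (2 * b ^ 3 - 3 * a * b * c + a ^ 2 * d), mul_nonneg hD.le (sq_nonneg a)]
  have h5 : 0 ≤ hA a b c := by
    by_contra hn
    push Not at hn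
    have : hA a b c ^ 3 < 0 := Odd.pow_neg (by decide) hn
    linarith
  have h6 : 0 < hA a b c := by
    rcases h5.lt_or_eq with h | h
    · exact h
    · rw [← h] at h3; simp at h3
  exact ⟨h6, (pos_iff_pos_of_mul_pos h3).1 h6⟩

private theorem gau_aux (m : ℕ) : ∀ a b c d : ℤ, 0 < dD a b c d → (hA a b c).toNat = m →
    ∃ p q r s a1 b1 c1 d1 : ℤ, p * s - q * r = 1 ∧ Red a1 b1 c1 d1 ∧ dD a1 b1 c1 d1 = dD a b c d ∧
      a = ev a1 b1 c1 d1 p r ∧ b = tb a1 b1 c1 d1 p q r s ∧ c = tc a1 b1 c1 d1 p q r s ∧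
      d = ev a1 b1 c1 d1 q s := by
  induction m using Nat.strong_induction_on with
  | _ m ih =>
    intro a b c d hD hm
    obtain ⟨hA0, hC0⟩ := gau_pos a b c d hD
    obtain ⟨n, hn1, hn2⟩ : ∃ n : ℤ, -hA a b c ≤ hB a b c d + 2 * n * hA a b c ∧
        hB a b c d + 2 * n * hA a b c ≤ hA a b c := by
      refine ⟨-((hB a b c d + hA a b c) / (2 * hA a b c)), ?_, ?_⟩
      · have h1 := Int.emod_nonneg (hB a b c d + hA a b c) (b := 2 * hA a b c) (by positivity)
        have h2 := Int.emod_add_mul_ediv (hB a b c d + hA a b c) (2 * hA a b c)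
        nlinarith
      · have h1 := Int.emod_lt_of_pos (hB a b c d + hA a b c) (b := 2 * hA a b c) (by positivity)
        have h2 := Int.emod_add_mul_ediv (hB a b c d + hA a b c) (2 * hA a b c)
        nlinarith
    -- the translated form
    by_cases hc : hA a b c ≤ hA a b c * n ^ 2 + hB a b c d * n + hC b c d
    · refine ⟨1, -n, 0, 1, a, a * n + b, a * n ^ 2 + 2 * b * n + c,
        a * n ^ 3 + 3 * b * n ^ 2 + 3 * c * n + d, by ring, ⟨?_, ?_, ?_⟩, ?_, ?_, ?_, ?_, ?_⟩
      · have e1 : hB a (a * n + b) (a * n ^ 2 + 2 * b * n + c)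
            (a * n ^ 3 + 3 * b * n ^ 2 + 3 * c * n + d) = hB a b c d + 2 * n * hA a b c := by
          unfold hA hB; ring
        have e2 : hA a (a * n + b) (a * n ^ 2 + 2 * b * n + c) = hA a b c := by unfold hA; ring
        rw [e1, e2, abs_le]
        exact ⟨hn1, hn2⟩
      · have e2 : hA a (a * n + b) (a * n ^ 2 + 2 * b * n + c) = hA a b c := by unfold hA; ring
        have e3 : hC (a * n + b) (a * n ^ 2 + 2 * b * n + c)
            (a * n ^ 3 + 3 * b * n ^ 2 + 3 * c * n + d) =
            hA a b c * n ^ 2 + hB a b c d * n + hC b c d := by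
          unfold hA hB hC; ring
        rw [e2, e3]; exact hc
      · have e4 : dD a (a * n + b) (a * n ^ 2 + 2 * b * n + c)
            (a * n ^ 3 + 3 * b * n ^ 2 + 3 * c * n + d) = dD a b c d := by unfold dD; ring
        rw [e4]; exact hD
      · unfold dD; ring
      · unfold ev; ring
      · unfold tb; ring
      · unfold tc; ring
      · unfold ev; ring
    · push Not at hc
      -- the swapped form
      set a2 := a * n ^ 3 + 3 * b * n ^ 2 + 3 * c * n + d with ha2
      set b2 := -(a * n ^ 2 + 2 * b * n + c) with hb2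
      set c2 := a * n + b with hc2
      set d2 := -a with hd2
      have e1 : hA a2 b2 c2 = hA a b c * n ^ 2 + hB a b c d * n + hC b c d := by
        rw [ha2, hb2, hc2]; unfold hA hB hC; ring
      have e4 : dD a2 b2 c2 d2 = dD a b c d := by
        rw [ha2, hb2, hc2, hd2]; unfold dD; ring
      have hp2 := (gau_pos a2 b2 c2 d2 (by rw [e4]; exact hD)).1
      have hlt : (hA a2 b2 c2).toNat < m := by
        rw [← hm]
        rw [e1] at hp2 ⊢
        omega
      obtain ⟨p, q, r, s, a1, b1, c1, d1, hdet, hred, hdD, h1, h2, h3, h4⟩ :=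
        ih _ hlt a2 b2 c2 d2 (by rw [e4]; exact hD) rfl
      have f1 : a = -d2 := by rw [hd2]; ring
      have f2 : b = c2 + d2 * n := by rw [hc2, hd2]; ring
      have f3 : c = -b2 - 2 * n * c2 - n ^ 2 * d2 := by rw [hb2, hc2, hd2]; ring
      have f4 : d = a2 + 3 * b2 * n + 3 * c2 * n ^ 2 + d2 * n ^ 3 := by
        rw [ha2, hb2, hc2, hd2]; ring
      refine ⟨-q, p + q * n, -s, r + s * n, a1, b1, c1, d1, by linear_combination hdet, hred,
        hdD.trans e4, ?_, ?_, ?_, ?_⟩
      · rw [f1, h4]; unfold ev; ring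
      · rw [f2, h3, h4]; unfold ev tb tc; ring
      · rw [f3, h2, h3, h4]; unfold ev tb tc; ring
      · rw [f4, h1, h2, h3, h4]; unfold ev tb tc; ring

theorem gau (a b c d : ℤ) (hD : 0 < dD a b c d) :
    ∃ p q r s a1 b1 c1 d1 : ℤ, p * s - q * r = 1 ∧ Red a1 b1 c1 d1 ∧ dD a1 b1 c1 d1 = dD a b c d ∧
      a = ev a1 b1 c1 d1 p r ∧ b = tb a1 b1 c1 d1 p q r s ∧ c = tc a1 b1 c1 d1 p q r s ∧ d = ev a1 b1 c1 d1 q s :=
  gau_aux _ a b c d hD rfl

end Pool.Agent.PPB
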