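import Pool.Agent.PPB.DefsB

/-!
# PPB/TrA (size 3)

The substitution at a prime with `q² ∣ D`, `q ∤ A`.  PROOF.  Choose `t` with `q ∣ 2 A t + B` (`2 A` is invertible modulo `q`), and let
`(a', b', c', d')` be the coefficients of `F(t x - y, x)`: `a' = ev a b c d t 1`, `b' = tb a b c d t (-1) 1 0`,
`c' = tc a b c d t (-1) 1 0`, `d' = ev a b c d (-1) 0 = -a`.  Its Hessian is `A' = A t² + B t + C`, `B' = -(2 A t + B)`, `C' = A`
(ring identities; `D' = D`).  `4 A A' = (2 A t + B)² + D`, so `q ∣ A'` (even `q² ∣ A'`), `q ∣ B'`, `q ∤ C'`.  From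
`a' C' - b' B' + c' A' = 0` and `b' C' - c' B' + d' A' = 0`: `q ∣ a'`, `q ∣ b'`.  `q² ∣ A' = b'² - a' c'`, so `q² ∣ a' c'`, and
`q ∤ c'` (`c'² = C' + b' d'`), so `q² ∣ a'`.  Put `a1 = a' / q²`, `b1 = b' / q`, `c1 = c'`, `d1 = q d'`.  Then
`F'(x, y) = (1/q) F1 (q x, y)` and `F(x, y) = F'(y, t y - x)`... precisely: `(x, y) = g0 (X, Y)` with `g0 = (t, -1; 1, 0)`, so
`(X, Y) = (y, t y - x)` and `q F(x, y) = F1 (q y, t y - x)`: the claimed four identities are its coefficients (substitution matrix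
`(0, q; -1, t)`).
-/

set_option autoImplicit false

namespace Pool.Agent.PPB

theorem trA (q : ℕ) (hq : q.Prime) (h2 : q ≠ 2) (a b c d : ℤ) (hD : (q : ℤ) ^ 2 ∣ dD a b c d)
    (hA1 : ¬ (q : ℤ) ∣ hA a b c) :
    ∃ t a1 b1 c1 d1 : ℤ, dD a b c d = (q : ℤ) ^ 2 * dD a1 b1 c1 d1 ∧
      (q : ℤ) * a = ev a1 b1 c1 d1 0 (-1) ∧ (q : ℤ) * b = tb a1 b1 c1 d1 0 (q : ℤ) (-1) t ∧
      (q : ℤ) * c = tc a1 b1 c1 d1 0 (q : ℤ) (-1) t ∧ (q : ℤ) * d = ev a1 b1 c1 d1 (q : ℤ) t := by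
  have hqp : Prime (q : ℤ) := Nat.prime_iff_prime_int.mp hq
  have hq0 : (q : ℤ) ≠ 0 := hqp.ne_zero
  have hq2 : ¬ (q : ℤ) ∣ 2 := by
    intro h
    have h' : q ∣ 2 := by exact_mod_cast h
    exact h2 ((Nat.prime_dvd_prime_iff_eq hq Nat.prime_two).mp h')
  have h2A : ¬ (q : ℤ) ∣ 2 * hA a b c := by
    intro h
    rcases hqp.dvd_or_dvd h with h | h
    · exact hq2 h
    · exact hA1 h
  obtain ⟨t, ht⟩ : ∃ t : ℤ, (q : ℤ) ∣ 2 * hA a b c * t + hB a b c d := by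
    have hcop : IsCoprime (q : ℤ) (2 * hA a b c) := hqp.coprime_iff_not_dvd.mpr h2A
    obtain ⟨v, u, huv⟩ := hcop
    refine ⟨-(u * hB a b c d), v * hB a b c d, ?_⟩
    linear_combination (-(hB a b c d)) * huv
  -- the transformed form
  obtain ⟨a', ha'⟩ : ∃ x : ℤ, x = a * t ^ 3 + 3 * b * t ^ 2 + 3 * c * t + d := ⟨_, rfl⟩
  obtain ⟨b', hb'⟩ : ∃ x : ℤ, x = -(a * t ^ 2 + 2 * b * t + c) := ⟨_, rfl⟩
  obtain ⟨c', hc'⟩ : ∃ x : ℤ, x = a * t + b := ⟨_, rfl⟩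
  obtain ⟨d', hd'⟩ : ∃ x : ℤ, x = -a := ⟨_, rfl⟩
  have hC' : c' ^ 2 - b' * d' = hA a b c := by
    rw [hb', hc', hd']; unfold hA; ring
  have hB' : b' * c' - a' * d' = -(2 * hA a b c * t + hB a b c d) := by
    rw [ha', hb', hc', hd']; unfold hA hB; ring
  have hDD : dD a b c d = 4 * (b' ^ 2 - a' * c') * (c' ^ 2 - b' * d') - (b' * c' - a' * d') ^ 2 := by
    rw [ha', hb', hc', hd']; unfold dD; ring
  have hqB : (q : ℤ) ∣ b' * c' - a' * d' := by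
    rw [hB']; exact (dvd_neg).mpr ht
  have hqC : ¬ (q : ℤ) ∣ c' ^ 2 - b' * d' := by
    rw [hC']; exact hA1
  have hqA2 : (q : ℤ) ^ 2 ∣ b' ^ 2 - a' * c' := by
    have h1 : (q : ℤ) ^ 2 ∣ (b' ^ 2 - a' * c') * (4 * (c' ^ 2 - b' * d')) := by
      have h3 : (q : ℤ) ^ 2 ∣ (b' * c' - a' * d') ^ 2 := pow_dvd_pow_of_dvd hqB 2
      have h4 : (q : ℤ) ^ 2 ∣ dD a b c d + (b' * c' - a' * d') ^ 2 := dvd_add hD h3
      have h5 : (b' ^ 2 - a' * c') * (4 * (c' ^ 2 - b' * d')) =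
          dD a b c d + (b' * c' - a' * d') ^ 2 := by rw [hDD]; ring
      rw [h5]; exact h4
    have h6 : ¬ (q : ℤ) ∣ 4 * (c' ^ 2 - b' * d') := by
      intro h
      rcases hqp.dvd_or_dvd h with h | h
      · have h7 : (q : ℤ) ∣ 2 ^ 2 := by
          have : (2 : ℤ) ^ 2 = 4 := by norm_num
          rw [this]; exact h
        exact hq2 (hqp.dvd_of_dvd_pow h7)
      · exact hqC h
    have h7 : IsCoprime ((q : ℤ) ^ 2) (4 * (c' ^ 2 - b' * d')) :=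
      IsCoprime.pow_left (hqp.coprime_iff_not_dvd.mpr h6)
    exact h7.dvd_of_dvd_mul_right h1
  have hqA : (q : ℤ) ∣ b' ^ 2 - a' * c' := dvd_trans (dvd_pow_self _ (by norm_num)) hqA2
  have hqa : (q : ℤ) ∣ a' := by
    have h1 : (q : ℤ) ∣ a' * (c' ^ 2 - b' * d') := by
      have e : a' * (c' ^ 2 - b' * d') = b' * (b' * c' - a' * d') - c' * (b' ^ 2 - a' * c') := by ring
      rw [e]
      exact dvd_sub (Dvd.dvd.mul_left hqB _) (Dvd.dvd.mul_left hqA _)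
    rcases hqp.dvd_or_dvd h1 with h | h
    · exact h
    · exact absurd h hqC
  have hqb : (q : ℤ) ∣ b' := by
    have h1 : (q : ℤ) ∣ b' * (c' ^ 2 - b' * d') := by
      have e : b' * (c' ^ 2 - b' * d') = c' * (b' * c' - a' * d') - d' * (b' ^ 2 - a' * c') := by ring
      rw [e]
      exact dvd_sub (Dvd.dvd.mul_left hqB _) (Dvd.dvd.mul_left hqA _)
    rcases hqp.dvd_or_dvd h1 with h | h
    · exact h
    · exact absurd h hqC
  have hqc : ¬ (q : ℤ) ∣ c' := by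
    intro h
    apply hqC
    exact dvd_sub (Dvd.dvd.pow h (by norm_num)) (Dvd.dvd.mul_right hqb _)
  have hqa2 : (q : ℤ) ^ 2 ∣ a' := by
    have h1 : (q : ℤ) ^ 2 ∣ a' * c' := by
      have e : a' * c' = b' ^ 2 - (b' ^ 2 - a' * c') := by ring
      rw [e]
      exact dvd_sub (pow_dvd_pow_of_dvd hqb 2) hqA2
    have h7 : IsCoprime ((q : ℤ) ^ 2) c' :=
      IsCoprime.pow_left (hqp.coprime_iff_not_dvd.mpr hqc)
    exact h7.dvd_of_dvd_mul_right h1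
  obtain ⟨a1, ha1⟩ := hqa2
  obtain ⟨b1, hb1⟩ := hqb
  refine ⟨t, a1, b1, c', (q : ℤ) * d', ?_, ?_, ?_, ?_, ?_⟩
  · rw [hDD, ha1, hb1]
    unfold dD
    ring
  · unfold ev
    rw [hd']
    ring
  · unfold tb
    rw [hc', hd']
    ring
  · unfold tc
    have e : (q : ℤ) * b1 = -(a * t ^ 2 + 2 * b * t + c) := by rw [← hb1, hb']
    rw [hc', hd']
    linear_combination (q : ℤ) * e
  · unfold ev
    have e1 : (q : ℤ) * b1 = -(a * t ^ 2 + 2 * b * t + c) := by rw [← hb1, hb']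
    have e2 : (q : ℤ) ^ 2 * a1 = a * t ^ 3 + 3 * b * t ^ 2 + 3 * c * t + d := by rw [← ha1, ha']
    rw [hc', hd']
    linear_combination (-(q : ℤ)) * e2 - 3 * (q : ℤ) * t * e1

end Pool.Agent.PPB
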