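import Pool.Agent.PPB.DefsB
import Pool.Agent.PPB.TrA
import Pool.Agent.PPB.Gau

/-!
# PPB/Tl (size 3)

Lemma TL.  PROOF.  `trA` gives `F1` with `q F = F1 o (0, q; -1, t)`, `D(F) = q² D(F1)`, so `D(F1) > 0`; `gau` gives
`F1 = R o (p, q', r, s)`; so `q F = R o g`, `g = (p, q'; r, s) (0, q; -1, t) = (-q', p q + q' t; -s, r q + s t)`: first column
`u = (-q', -s)` (coprime, since `p s - q' r = 1`), second column `v`, `det (u, v) = q`.  The Hessian: `H(R o g) = (det g)² H_R o g`, i.e.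
`q² A(F) = q² qf A_R B_R C_R u` (ring), etc.  `q ∤ R`: if `q` divides all four coefficients then `q ∣ A_R, B_R, C_R` and `q ∣ A(F)`.
-/

set_option autoImplicit false

namespace Pool.Agent.PPB

private theorem Tl_hA (a b c d p s r t : ℤ) :
    tb a b c d p s r t ^ 2 - ev a b c d p r * tc a b c d p s r t
      = (p * t - s * r) ^ 2 * qf (hA a b c) (hB a b c d) (hC b c d) p r := by
  unfold tb ev tc qf hA hB hC
  ring

private theorem Tl_hC (a b c d p s r t : ℤ) :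
    tc a b c d p s r t ^ 2 - tb a b c d p s r t * ev a b c d s t
      = (p * t - s * r) ^ 2 * qf (hA a b c) (hB a b c d) (hC b c d) s t := by
  unfold tb ev tc qf hA hB hC
  ring

theorem tl (q : ℕ) (hq : q.Prime) (h2 : q ≠ 2) (a b c d : ℤ) (h0 : 0 < dD a b c d)
    (hD : (q : ℤ) ^ 2 ∣ dD a b c d) (hA1 : ¬ (q : ℤ) ∣ hA a b c) :
    ∃ a1 b1 c1 d1 p s r t : ℤ, Red a1 b1 c1 d1 ∧ dD a b c d = (q : ℤ) ^ 2 * dD a1 b1 c1 d1 ∧
      IsCoprime p r ∧ p * t - s * r = (q : ℤ) ∧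
      (q : ℤ) * a = ev a1 b1 c1 d1 p r ∧ (q : ℤ) * b = tb a1 b1 c1 d1 p s r t ∧
      (q : ℤ) * c = tc a1 b1 c1 d1 p s r t ∧ (q : ℤ) * d = ev a1 b1 c1 d1 s t ∧
      hA a b c = qf (hA a1 b1 c1) (hB a1 b1 c1 d1) (hC b1 c1 d1) p r ∧
      hC b c d = qf (hA a1 b1 c1) (hB a1 b1 c1 d1) (hC b1 c1 d1) s t ∧
      ¬ ((q : ℤ) ∣ a1 ∧ (q : ℤ) ∣ b1 ∧ (q : ℤ) ∣ c1 ∧ (q : ℤ) ∣ d1) := by
  obtain ⟨t, a', b', c', d', e0, e1, e2, e3, e4⟩ := trA q hq h2 a b c d hD hA1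
  have hq0 : (0 : ℤ) < (q : ℤ) := by exact_mod_cast hq.pos
  have hq2 : (0 : ℤ) < (q : ℤ) ^ 2 := by positivity
  have hpos : 0 < dD a' b' c' d' := by
    rw [e0] at h0
    exact (mul_pos_iff_of_pos_left hq2).mp h0
  obtain ⟨p, k, r, s, a1, b1, c1, d1, hdet, hred, hd, f1, f2, f3, f4⟩ := gau a' b' c' d' hpos
  have g1 : (q : ℤ) * a = ev a1 b1 c1 d1 (-k) (-s) := by
    rw [e1, f1, f2, f3, f4]
    unfold ev tb tc
    ring
  have g2 : (q : ℤ) * b = tb a1 b1 c1 d1 (-k) (p * q + k * t) (-s) (r * q + s * t) := by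
    rw [e2, f1, f2, f3, f4]
    unfold ev tb tc
    ring
  have g3 : (q : ℤ) * c = tc a1 b1 c1 d1 (-k) (p * q + k * t) (-s) (r * q + s * t) := by
    rw [e3, f1, f2, f3, f4]
    unfold ev tb tc
    ring
  have g4 : (q : ℤ) * d = ev a1 b1 c1 d1 (p * q + k * t) (r * q + s * t) := by
    rw [e4, f1, f2, f3, f4]
    unfold ev tb tc
    ring
  have hdt : -k * (r * q + s * t) - (p * q + k * t) * -s = (q : ℤ) := by
    linear_combination (q : ℤ) * hdet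
  have hAeq : hA a b c = qf (hA a1 b1 c1) (hB a1 b1 c1 d1) (hC b1 c1 d1) (-k) (-s) := by
    have h := Tl_hA a1 b1 c1 d1 (-k) (p * q + k * t) (-s) (r * q + s * t)
    rw [hdt, ← g1, ← g2, ← g3] at h
    apply mul_left_cancel₀ hq2.ne'
    rw [← h]
    unfold hA
    ring
  have hCeq : hC b c d
      = qf (hA a1 b1 c1) (hB a1 b1 c1 d1) (hC b1 c1 d1) (p * q + k * t) (r * q + s * t) := by
    have h := Tl_hC a1 b1 c1 d1 (-k) (p * q + k * t) (-s) (r * q + s * t)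
    rw [hdt, ← g2, ← g3, ← g4] at h
    apply mul_left_cancel₀ hq2.ne'
    rw [← h]
    unfold hC
    ring
  refine ⟨a1, b1, c1, d1, -k, p * q + k * t, -s, r * q + s * t, hred, ?_, ?_, hdt, g1, g2, g3, g4,
    hAeq, hCeq, ?_⟩
  · rw [e0, hd]
  · refine ⟨r, -p, ?_⟩
    linear_combination hdet
  · rintro ⟨ha, hb, hc, hd1⟩
    apply hA1
    rw [hAeq]
    obtain ⟨x1, rfl⟩ := ha
    obtain ⟨x2, rfl⟩ := hb
    obtain ⟨x3, rfl⟩ := hc
    obtain ⟨x4, rfl⟩ := hd1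
    refine ⟨(q : ℤ) * qf (hA x1 x2 x3) (hB x1 x2 x3 x4) (hC x2 x3 x4) (-k) (-s), ?_⟩
    unfold qf hA hB hC
    ring

end Pool.Agent.PPB
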