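import Pool.Agent.PPB.DefsB
import Pool.Agent.PPB.Api
import Pool.Agent.PPB.Tl
import Pool.Agent.PPB.CuA
import Pool.Agent.PPB.RcB

/-!
# PPB/AlA (size 4)

The main case for one prime.  PROOF.  For `F` in the box with `q² ∣ D(F)`, `q ∤ A(F)` choose by `tl` a reduced `R` and `(u, v)` with
`q F = R o (u, v)`.  Here `D(R) = D(F) / q² ≤ K T⁴ / q²`, so `R ∈ redS (K T⁴ / q²)`.  `F ↦ R` has fibres of size at most `N2`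
(`cuA`): in a fibre `F ↦ (u, v)` is injective, since `q F = R o (u, v)`; the conditions of `cuA` are `A(F) = H_R(u)`, `C(F) = H_R(v)`
and the bounds of `Good`; `q ∣ ev R u = q a`.  (`nb_fib` with `I = (rcF _).toFinset`, or a direct `Finset.card` argument.)
-/

set_option autoImplicit false

namespace Pool.Agent.PPB

private theorem alA_ch (q : ℕ) (hq : q.Prime) (h3 : 3 < q) :
    ∃ g : ℤ × ℤ × ℤ × ℤ → (ℤ × ℤ × ℤ × ℤ) × ((ℤ × ℤ) × (ℤ × ℤ)), ∀ F : ℤ × ℤ × ℤ × ℤ,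
      0 < dD F.1 F.2.1 F.2.2.1 F.2.2.2 → (q : ℤ) ^ 2 ∣ dD F.1 F.2.1 F.2.2.1 F.2.2.2 →
      ¬ (q : ℤ) ∣ hA F.1 F.2.1 F.2.2.1 →
      Red (g F).1.1 (g F).1.2.1 (g F).1.2.2.1 (g F).1.2.2.2 ∧
      dD F.1 F.2.1 F.2.2.1 F.2.2.2 = (q : ℤ) ^ 2 * dD (g F).1.1 (g F).1.2.1 (g F).1.2.2.1 (g F).1.2.2.2 ∧
      IsCoprime (g F).2.1.1 (g F).2.1.2 ∧
      (g F).2.1.1 * (g F).2.2.2 - (g F).2.2.1 * (g F).2.1.2 = (q : ℤ) ∧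
      (q : ℤ) * F.1 = ev (g F).1.1 (g F).1.2.1 (g F).1.2.2.1 (g F).1.2.2.2 (g F).2.1.1 (g F).2.1.2 ∧
      (q : ℤ) * F.2.1 = tb (g F).1.1 (g F).1.2.1 (g F).1.2.2.1 (g F).1.2.2.2 (g F).2.1.1 (g F).2.2.1
        (g F).2.1.2 (g F).2.2.2 ∧
      (q : ℤ) * F.2.2.1 = tc (g F).1.1 (g F).1.2.1 (g F).1.2.2.1 (g F).1.2.2.2 (g F).2.1.1 (g F).2.2.1
        (g F).2.1.2 (g F).2.2.2 ∧
      (q : ℤ) * F.2.2.2 = ev (g F).1.1 (g F).1.2.1 (g F).1.2.2.1 (g F).1.2.2.2 (g F).2.2.1 (g F).2.2.2 ∧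
      hA F.1 F.2.1 F.2.2.1 = qf (hA (g F).1.1 (g F).1.2.1 (g F).1.2.2.1)
        (hB (g F).1.1 (g F).1.2.1 (g F).1.2.2.1 (g F).1.2.2.2) (hC (g F).1.2.1 (g F).1.2.2.1 (g F).1.2.2.2)
        (g F).2.1.1 (g F).2.1.2 ∧
      hC F.2.1 F.2.2.1 F.2.2.2 = qf (hA (g F).1.1 (g F).1.2.1 (g F).1.2.2.1)
        (hB (g F).1.1 (g F).1.2.1 (g F).1.2.2.1 (g F).1.2.2.2) (hC (g F).1.2.1 (g F).1.2.2.1 (g F).1.2.2.2)
        (g F).2.2.1 (g F).2.2.2 ∧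
      ¬ ((q : ℤ) ∣ (g F).1.1 ∧ (q : ℤ) ∣ (g F).1.2.1 ∧ (q : ℤ) ∣ (g F).1.2.2.1 ∧
        (q : ℤ) ∣ (g F).1.2.2.2) := by
  have h2 : q ≠ 2 := by omega
  have key : ∀ F : ℤ × ℤ × ℤ × ℤ, ∃ G : (ℤ × ℤ × ℤ × ℤ) × ((ℤ × ℤ) × (ℤ × ℤ)),
      0 < dD F.1 F.2.1 F.2.2.1 F.2.2.2 → (q : ℤ) ^ 2 ∣ dD F.1 F.2.1 F.2.2.1 F.2.2.2 →
      ¬ (q : ℤ) ∣ hA F.1 F.2.1 F.2.2.1 →
      Red G.1.1 G.1.2.1 G.1.2.2.1 G.1.2.2.2 ∧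
      dD F.1 F.2.1 F.2.2.1 F.2.2.2 = (q : ℤ) ^ 2 * dD G.1.1 G.1.2.1 G.1.2.2.1 G.1.2.2.2 ∧
      IsCoprime G.2.1.1 G.2.1.2 ∧
      G.2.1.1 * G.2.2.2 - G.2.2.1 * G.2.1.2 = (q : ℤ) ∧
      (q : ℤ) * F.1 = ev G.1.1 G.1.2.1 G.1.2.2.1 G.1.2.2.2 G.2.1.1 G.2.1.2 ∧
      (q : ℤ) * F.2.1 = tb G.1.1 G.1.2.1 G.1.2.2.1 G.1.2.2.2 G.2.1.1 G.2.2.1 G.2.1.2 G.2.2.2 ∧
      (q : ℤ) * F.2.2.1 = tc G.1.1 G.1.2.1 G.1.2.2.1 G.1.2.2.2 G.2.1.1 G.2.2.1 G.2.1.2 G.2.2.2 ∧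
      (q : ℤ) * F.2.2.2 = ev G.1.1 G.1.2.1 G.1.2.2.1 G.1.2.2.2 G.2.2.1 G.2.2.2 ∧
      hA F.1 F.2.1 F.2.2.1 = qf (hA G.1.1 G.1.2.1 G.1.2.2.1)
        (hB G.1.1 G.1.2.1 G.1.2.2.1 G.1.2.2.2) (hC G.1.2.1 G.1.2.2.1 G.1.2.2.2) G.2.1.1 G.2.1.2 ∧
      hC F.2.1 F.2.2.1 F.2.2.2 = qf (hA G.1.1 G.1.2.1 G.1.2.2.1)
        (hB G.1.1 G.1.2.1 G.1.2.2.1 G.1.2.2.2) (hC G.1.2.1 G.1.2.2.1 G.1.2.2.2) G.2.2.1 G.2.2.2 ∧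
      ¬ ((q : ℤ) ∣ G.1.1 ∧ (q : ℤ) ∣ G.1.2.1 ∧ (q : ℤ) ∣ G.1.2.2.1 ∧ (q : ℤ) ∣ G.1.2.2.2) := by
    intro F
    by_cases hF : 0 < dD F.1 F.2.1 F.2.2.1 F.2.2.2 ∧ (q : ℤ) ^ 2 ∣ dD F.1 F.2.1 F.2.2.1 F.2.2.2 ∧
      ¬ (q : ℤ) ∣ hA F.1 F.2.1 F.2.2.1
    · obtain ⟨a1, b1, c1, d1, p, s, r, t, h⟩ := tl q hq h2 F.1 F.2.1 F.2.2.1 F.2.2.2 hF.1 hF.2.1 hF.2.2
      exact ⟨((a1, b1, c1, d1), ((p, r), (s, t))), fun _ _ _ => h⟩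
    · refine ⟨((0, 0, 0, 0), ((0, 0), (0, 0))), fun h1 h2 h3 => absurd ⟨h1, h2, h3⟩ hF⟩
  choose g hg using key
  exact ⟨g, hg⟩

theorem alA (a0 b0 c0 d0 η k K : ℝ) (hG : Good a0 b0 c0 d0 η k K) : ∃ N2 : ℕ, ∀ T : ℝ, 1 ≤ T →
    ∀ q : ℕ, q.Prime → 3 < q →
      nb (box a0 b0 c0 d0 η T) (fun a b c d => (q : ℤ) ^ 2 ∣ dD a b c d ∧ ¬ (q : ℤ) ∣ hA a b c) ≤
        N2 * ((redS (K * T ^ 4 / (q : ℝ) ^ 2)).ncard : ℝ) := by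
  classical
  obtain ⟨hη, hη1, hk, hk1, hK, hgood⟩ := hG
  obtain ⟨N2, hN2⟩ := cuA k K hk hk1 hK
  refine ⟨N2, fun T hT q hq h3 => ?_⟩
  obtain ⟨g, hg⟩ := alA_ch q hq h3
  have hq0 : (0 : ℝ) < (q : ℝ) ^ 2 := by have := hq.pos; positivity
  have hqZ : (q : ℤ) ≠ 0 := by have := hq.pos; omega
  have hTpos : 0 < T := by linarith
  -- positivity of the discriminant on the box
  have hDpos : ∀ F ∈ box a0 b0 c0 d0 η T, 0 < dD F.1 F.2.1 F.2.2.1 F.2.2.2 := by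
    intro F hF
    obtain ⟨-, -, -, -, -, -, -, -, h9, -⟩ := hgood T hT F hF
    have : (0 : ℝ) < ((dD F.1 F.2.1 F.2.2.1 F.2.2.2 : ℤ) : ℝ) := lt_of_lt_of_le (by positivity) h9
    exact_mod_cast this
  rw [Set.ncard_eq_toFinset_card _ (rcF _), mul_comm]
  refine nb_fib _ _ _ (fun F => (g F).1) (N2 : ℝ) ?_ ?_
  · rintro F hF ⟨hF1, hF2⟩
    obtain ⟨r1, r2, -⟩ := hg F (hDpos F hF) hF1 hF2
    obtain ⟨-, -, -, -, -, -, -, -, -, h10⟩ := hgood T hT F hF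
    rw [Set.Finite.mem_toFinset]
    refine ⟨r1, ?_⟩
    rw [le_div_iff₀ hq0]
    rw [r2] at h10
    push_cast at h10
    linarith
  · intro R _
    set S := (box a0 b0 c0 d0 η T).filter (fun F : ℤ × ℤ × ℤ × ℤ =>
      ((q : ℤ) ^ 2 ∣ dD F.1 F.2.1 F.2.2.1 F.2.2.2 ∧ ¬ (q : ℤ) ∣ hA F.1 F.2.1 F.2.2.1) ∧ (g F).1 = R) with hS
    have hnb : nb (box a0 b0 c0 d0 η T) (fun a b c d =>
        ((q : ℤ) ^ 2 ∣ dD a b c d ∧ ¬ (q : ℤ) ∣ hA a b c) ∧ (g (a, b, c, d)).1 = R) = (S.card : ℝ) := by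
      unfold nb
      rw [hS]
      congr!
    have hgoal : nb (box a0 b0 c0 d0 η T) (fun a b c d =>
        ((q : ℤ) ^ 2 ∣ dD a b c d ∧ ¬ (q : ℤ) ∣ hA a b c) ∧ (g (a, b, c, d)).1 = R) ≤ (N2 : ℝ) := by
      rw [hnb]
      have hmem : ∀ F ∈ S, F ∈ box a0 b0 c0 d0 η T ∧ ((q : ℤ) ^ 2 ∣ dD F.1 F.2.1 F.2.2.1 F.2.2.2) ∧
          ¬ (q : ℤ) ∣ hA F.1 F.2.1 F.2.2.1 ∧ (g F).1 = R := by
        intro F hF
        rw [hS, Finset.mem_filter] at hF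
        exact ⟨hF.1, hF.2.1.1, hF.2.1.2, hF.2.2⟩
      have hcard : S.card = (S.image (fun F => (g F).2)).card := by
        rw [Finset.card_image_of_injOn]
        intro F hF G hG hFG
        simp only at hFG
        obtain ⟨f1, f2, f3, f4⟩ := hmem F hF
        obtain ⟨g1, g2, g3, g4⟩ := hmem G hG
        obtain ⟨-, -, -, -, fa, fb, fc, fd, -⟩ := hg F (hDpos F f1) f2 f3
        obtain ⟨-, -, -, -, ga, gb, gc, gd, -⟩ := hg G (hDpos G g1) g2 g3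
        rw [f4, hFG, ← g4] at fa fb fc fd
        have ea : F.1 = G.1 := mul_left_cancel₀ hqZ (fa.trans ga.symm)
        have eb : F.2.1 = G.2.1 := mul_left_cancel₀ hqZ (fb.trans gb.symm)
        have ec : F.2.2.1 = G.2.2.1 := mul_left_cancel₀ hqZ (fc.trans gc.symm)
        have ed : F.2.2.2 = G.2.2.2 := mul_left_cancel₀ hqZ (fd.trans gd.symm)
        exact Prod.ext ea (Prod.ext eb (Prod.ext ec ed))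
      rw [hcard]
      by_cases hne : S.Nonempty
      · obtain ⟨F0, hF0⟩ := hne
        obtain ⟨m1, m2, m3, m4⟩ := hmem F0 hF0
        obtain ⟨r1, r2, -, -, -, -, -, -, -, -, r11⟩ := hg F0 (hDpos F0 m1) m2 m3
        obtain ⟨-, -, -, -, -, -, -, -, h9, -⟩ := hgood T hT F0 m1
        rw [m4] at r1 r2 r11
        have hk4 : k * T ^ 4 ≤ (q : ℝ) ^ 2 * (dD R.1 R.2.1 R.2.2.1 R.2.2.2 : ℤ) := by
          rw [r2] at h9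
          push_cast at h9 ⊢
          exact h9
        have := hN2 T hT q hq h3 R.1 R.2.1 R.2.2.1 R.2.2.2 r1 r11 hk4 (S.image (fun F => (g F).2)) ?_
        · exact_mod_cast this
        · intro w hw
          rw [Finset.mem_image] at hw
          obtain ⟨F, hF, rfl⟩ := hw
          obtain ⟨f1, f2, f3, f4⟩ := hmem F hF
          obtain ⟨-, -, t3, t4, t5, -, -, -, t9, t10, -⟩ := hg F (hDpos F f1) f2 f3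
          obtain ⟨-, -, -, -, -, v6, v7, v8, -, -⟩ := hgood T hT F f1
          rw [f4] at t5 t9 t10
          refine ⟨t3, t4, ⟨F.1, t5.symm⟩, ?_, ?_, ?_⟩
          · rw [← t9]; exact v6
          · rw [← t9]; exact v7
          · rw [← t10]; exact v8
      · rw [Finset.not_nonempty_iff_eq_empty] at hne
        rw [hne]
        simp
    exact hgoal

end Pool.Agent.PPB
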