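import Pool.Agent.PPB.DefsB
import Pool.Agent.PPB.Api

/-!
# PPB/Be (size 2)

The primes with `q² ∣ a`.  PROOF.  On the box `a ≠ 0` (`k T ≤ |a|`), `|a| ≤ K T`, so `q² ≤ K T` if there is such an `F`.
`F ↦ (a / q², b, c, d)` is injective; `|a / q²| ≤ K T / q²` (at most `2 K T / q² + 1 ≤ 3 K T / q²` values), and `b, c, d` lie in
intervals of length `2 η T ≤ 2 T`: at most `3 T` values each (`T ≥ 1`).  Total `≤ 81 K T⁴ / q²`.
-/

set_option autoImplicit false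

namespace Pool.Agent.PPB

private theorem be_icc (x η T : ℝ) (hη : 0 < η) (hη1 : η ≤ 1) (hT : 1 ≤ T) :
    ((Finset.Icc ⌈x - η * T⌉ ⌊x + η * T⌋).card : ℝ) ≤ 3 * T := by
  have hpos : 0 < η * T := mul_pos hη (by linarith)
  have hle : η * T ≤ T := by nlinarith
  rw [Int.card_Icc]
  have h2 : x + η * T < ⌊x + η * T⌋ + 1 := Int.lt_floor_add_one _
  have h1 : ⌈x - η * T⌉ ≤ ⌊x + η * T⌋ + 1 := by
    apply Int.ceil_le.2
    push_cast
    linarith
  have h3 : (((⌊x + η * T⌋ + 1 - ⌈x - η * T⌉).toNat : ℤ) : ℝ) = ((⌊x + η * T⌋ + 1 - ⌈x - η * T⌉ : ℤ) : ℝ) := by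
    rw [Int.toNat_of_nonneg (by linarith)]
  have h4 : ((⌊x + η * T⌋ : ℤ) : ℝ) ≤ x + η * T := Int.floor_le _
  have h5 : x - η * T ≤ ((⌈x - η * T⌉ : ℤ) : ℝ) := Int.le_ceil _
  have h6 : (((⌊x + η * T⌋ + 1 - ⌈x - η * T⌉).toNat : ℕ) : ℝ) = ((⌊x + η * T⌋ : ℤ) : ℝ) + 1 - ((⌈x - η * T⌉ : ℤ) : ℝ) := by
    have : (((⌊x + η * T⌋ + 1 - ⌈x - η * T⌉).toNat : ℕ) : ℝ) = (((⌊x + η * T⌋ + 1 - ⌈x - η * T⌉).toNat : ℤ) : ℝ) := by
      norm_cast
    rw [this, h3]
    push_cast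
    ring
  rw [h6]
  linarith

theorem be (a0 b0 c0 d0 η k K : ℝ) (hG : Good a0 b0 c0 d0 η k K) (T : ℝ) (hT : 1 ≤ T) (q : ℕ) (hq : 0 < q) :
    nb (box a0 b0 c0 d0 η T) (fun a _ _ _ => (q : ℤ) ^ 2 ∣ a) ≤ 81 * K * T ^ 4 / (q : ℝ) ^ 2 := by
  obtain ⟨hη, hη1, hk, hk1, hK, hF⟩ := hG
  have hqR : (0 : ℝ) < (q : ℝ) := by exact_mod_cast hq
  have hq2 : (0 : ℝ) < (q : ℝ) ^ 2 := by positivity
  have hqZ : (0 : ℤ) < (q : ℤ) ^ 2 := by positivity
  have hT0 : (0 : ℝ) < T := by linarith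
  by_cases hc : (q : ℝ) ^ 2 ≤ K * T
  · have h := nb_inj (box a0 b0 c0 d0 η T) (fun a _ _ _ => (q : ℤ) ^ 2 ∣ a)
      (Finset.Icc (-⌊K * T / (q : ℝ) ^ 2⌋) ⌊K * T / (q : ℝ) ^ 2⌋ ×ˢ
        (Finset.Icc ⌈T * b0 - η * T⌉ ⌊T * b0 + η * T⌋ ×ˢ
        (Finset.Icc ⌈T * c0 - η * T⌉ ⌊T * c0 + η * T⌋ ×ˢ Finset.Icc ⌈T * d0 - η * T⌉ ⌊T * d0 + η * T⌋)))
      (fun F => (F.1 / (q : ℤ) ^ 2, F.2)) ?_ ?_
    · refine h.trans ?_
      rw [Finset.card_product, Finset.card_product, Finset.card_product]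
      push_cast
      have e1 := be_icc (T * b0) η T hη hη1 hT
      have e2 := be_icc (T * c0) η T hη hη1 hT
      have e3 := be_icc (T * d0) η T hη hη1 hT
      have hX : (1 : ℝ) ≤ K * T / (q : ℝ) ^ 2 := by
        rw [le_div_iff₀ hq2]
        linarith
      have hX0 : 0 ≤ ⌊K * T / (q : ℝ) ^ 2⌋ := Int.floor_nonneg.2 (by linarith)
      have e0 : ((Finset.Icc (-⌊K * T / (q : ℝ) ^ 2⌋) ⌊K * T / (q : ℝ) ^ 2⌋).card : ℝ) ≤ 3 * (K * T / (q : ℝ) ^ 2) := by
        rw [Int.card_Icc]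
        have h1 : (((⌊K * T / (q : ℝ) ^ 2⌋ + 1 - -⌊K * T / (q : ℝ) ^ 2⌋).toNat : ℕ) : ℝ)
            = (((⌊K * T / (q : ℝ) ^ 2⌋ + 1 - -⌊K * T / (q : ℝ) ^ 2⌋).toNat : ℤ) : ℝ) := by norm_cast
        rw [h1, Int.toNat_of_nonneg (by linarith)]
        push_cast
        have h2 : ((⌊K * T / (q : ℝ) ^ 2⌋ : ℤ) : ℝ) ≤ K * T / (q : ℝ) ^ 2 := Int.floor_le _
        linarith
      calc ((Finset.Icc (-⌊K * T / (q : ℝ) ^ 2⌋) ⌊K * T / (q : ℝ) ^ 2⌋).card : ℝ) *
            (((Finset.Icc ⌈T * b0 - η * T⌉ ⌊T * b0 + η * T⌋).card : ℝ) *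
            (((Finset.Icc ⌈T * c0 - η * T⌉ ⌊T * c0 + η * T⌋).card : ℝ) *
            ((Finset.Icc ⌈T * d0 - η * T⌉ ⌊T * d0 + η * T⌋).card : ℝ)))
          ≤ (3 * (K * T / (q : ℝ) ^ 2)) * ((3 * T) * ((3 * T) * (3 * T))) := by
            apply mul_le_mul e0 _ (by positivity) (by positivity)
            apply mul_le_mul e1 _ (by positivity) (by positivity)
            apply mul_le_mul e2 e3 (by positivity) (by positivity)
        _ = 81 * K * T ^ 4 / (q : ℝ) ^ 2 := by ring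
    · intro F hFb hdv
      have hb := hF T hT F hFb
      unfold box at hFb
      rw [Finset.mem_product, Finset.mem_product, Finset.mem_product] at hFb
      obtain ⟨_, hB, hC, hD⟩ := hFb
      rw [Finset.mem_product, Finset.mem_product, Finset.mem_product]
      refine ⟨?_, hB, hC, hD⟩
      obtain ⟨m, hm⟩ := hdv
      have hdiv : F.1 / (q : ℤ) ^ 2 = m := by
        rw [hm]
        exact Int.mul_ediv_cancel_left _ (ne_of_gt hqZ)
      show F.1 / (q : ℤ) ^ 2 ∈ _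
      rw [hdiv]
      have ha := hb.1
      have hm' : (F.1 : ℝ) = (q : ℝ) ^ 2 * (m : ℝ) := by
        rw [hm]
        push_cast
        ring
      rw [hm', abs_mul, abs_of_pos hq2] at ha
      have hmle : |(m : ℝ)| ≤ K * T / (q : ℝ) ^ 2 := by
        rw [le_div_iff₀ hq2]
        linarith
      rw [abs_le] at hmle
      rw [Finset.mem_Icc]
      constructor
      · have : -m ≤ ⌊K * T / (q : ℝ) ^ 2⌋ := by
          apply Int.le_floor.2
          push_cast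
          linarith [hmle.1]
        linarith
      · apply Int.le_floor.2
        exact hmle.2
    · intro F _ G _ hP hQ hfg
      have h1 : F.1 / (q : ℤ) ^ 2 = G.1 / (q : ℤ) ^ 2 := (Prod.mk.inj hfg).1
      have h2 : F.2 = G.2 := (Prod.mk.inj hfg).2
      have h3 : F.1 = G.1 := by
        have e1 := Int.mul_ediv_cancel' hP
        have e2 := Int.mul_ediv_cancel' hQ
        rw [← e1, ← e2, h1]
      exact Prod.ext h3 h2
  · push Not at hc
    have h0 : nb (box a0 b0 c0 d0 η T) (fun a _ _ _ => (q : ℤ) ^ 2 ∣ a) ≤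
        (((∅ : Finset Unit).card : ℕ) : ℝ) := by
      apply nb_inj _ _ _ (fun _ => ())
      · intro F hFb hdv
        exfalso
        have hb := hF T hT F hFb
        have hlow := hb.2.2.2.2.1
        have hupp := hb.1
        have hne : F.1 ≠ 0 := by
          intro h
          rw [h] at hlow
          simp only [Int.cast_zero, abs_zero] at hlow
          have : 0 < k * T := mul_pos hk hT0
          linarith
        have hle : (q : ℤ) ^ 2 ≤ |F.1| := Int.le_of_dvd (abs_pos.2 hne) ((dvd_abs _ _).2 hdv)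
        have hle' : (q : ℝ) ^ 2 ≤ |(F.1 : ℝ)| := by exact_mod_cast hle
        linarith
      · intro F hFb G _ hdv
        exfalso
        have hb := hF T hT F hFb
        have hlow := hb.2.2.2.2.1
        have hupp := hb.1
        have hne : F.1 ≠ 0 := by
          intro h
          rw [h] at hlow
          simp only [Int.cast_zero, abs_zero] at hlow
          have : 0 < k * T := mul_pos hk hT0
          linarith
        have hle : (q : ℤ) ^ 2 ≤ |F.1| := Int.le_of_dvd (abs_pos.2 hne) ((dvd_abs _ _).2 hdv)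
        have hle' : (q : ℝ) ^ 2 ≤ |(F.1 : ℝ)| := by exact_mod_cast hle
        linarith
    refine h0.trans ?_
    simp only [Finset.card_empty, Nat.cast_zero]
    positivity

end Pool.Agent.PPB
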