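import Pool.Agent.PPB.DefsB

/-!
# PPB/BeI (size 2)

Divisibility facts (`q` an odd prime).  Identities: `4 A C - B² = D`, `a C - b B + c A = 0`, `b C - c B + d A = 0`.
`beB`: `q ∣ A` and `q² ∣ D` give `q ∣ B²`.  `beI`: with moreover `q ∤ C`: `q ∣ B`, so `q ∣ a C`, `q ∣ a`; `q ∣ b C`, `q ∣ b`;
`q² ∣ 4 A C = D + B²`, so `q² ∣ A = b² - a c`, `q² ∣ a c`, and `q ∤ c` because `c² = C + b d`; so `q² ∣ a`.
`gaI`: `q ∣ A`, `q ∣ C`, `q ∣ a` give `q ∣ b`, `q ∣ c`.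
-/

set_option autoImplicit false

namespace Pool.Agent.PPB

theorem beB (q : ℕ) (hq : q.Prime) (a b c d : ℤ) (hD : (q : ℤ) ^ 2 ∣ dD a b c d)
    (hA1 : (q : ℤ) ∣ hA a b c) : (q : ℤ) ∣ hB a b c d := by
  have hp : Prime (q : ℤ) := Nat.prime_iff_prime_int.1 hq
  have e : hB a b c d ^ 2 = 4 * hA a b c * hC b c d - dD a b c d := by
    unfold hB hA hC dD
    ring
  have h1 : (q : ℤ) ∣ hB a b c d ^ 2 := by
    rw [e]
    apply dvd_sub
    · exact Dvd.dvd.mul_right (Dvd.dvd.mul_left hA1 4) _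
    · exact dvd_trans (dvd_pow_self _ two_ne_zero) hD
  exact hp.dvd_of_dvd_pow h1

theorem beI (q : ℕ) (hq : q.Prime) (h2 : q ≠ 2) (a b c d : ℤ) (hD : (q : ℤ) ^ 2 ∣ dD a b c d)
    (hA1 : (q : ℤ) ∣ hA a b c) (hC1 : ¬ (q : ℤ) ∣ hC b c d) : (q : ℤ) ^ 2 ∣ a := by
  have hp : Prime (q : ℤ) := Nat.prime_iff_prime_int.1 hq
  have hB1 := beB q hq a b c d hD hA1
  have ha : (q : ℤ) ∣ a := by
    have e : a * hC b c d = b * hB a b c d - c * hA a b c := by
      unfold hB hA hC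
      ring
    have h1 : (q : ℤ) ∣ a * hC b c d := by
      rw [e]
      exact dvd_sub (Dvd.dvd.mul_left hB1 _) (Dvd.dvd.mul_left hA1 _)
    exact (hp.dvd_or_dvd h1).resolve_right hC1
  have hb : (q : ℤ) ∣ b := by
    have e : b * hC b c d = c * hB a b c d - d * hA a b c := by
      unfold hB hA hC
      ring
    have h1 : (q : ℤ) ∣ b * hC b c d := by
      rw [e]
      exact dvd_sub (Dvd.dvd.mul_left hB1 _) (Dvd.dvd.mul_left hA1 _)
    exact (hp.dvd_or_dvd h1).resolve_right hC1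
  have hc : ¬ (q : ℤ) ∣ c := by
    intro h
    apply hC1
    unfold hC
    exact dvd_sub (dvd_trans h (dvd_pow_self _ two_ne_zero)) (Dvd.dvd.mul_right hb _)
  have h4 : ¬ (q : ℤ) ∣ 4 := by
    intro h
    have h' : (q : ℕ) ∣ 4 := by exact_mod_cast h
    have h'' : (q : ℕ) ∣ 2 ^ 2 := by simpa using h'
    have := hq.dvd_of_dvd_pow h''
    exact h2 ((Nat.prime_dvd_prime_iff_eq hq Nat.prime_two).1 this)
  have hAC : (q : ℤ) ^ 2 ∣ (4 * hC b c d) * hA a b c := by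
    have e : (4 * hC b c d) * hA a b c = dD a b c d + hB a b c d ^ 2 := by
      unfold hB hA hC dD
      ring
    rw [e]
    exact dvd_add hD (pow_dvd_pow_of_dvd hB1 2)
  have hcop : IsCoprime ((q : ℤ) ^ 2) (4 * hC b c d) := by
    apply IsCoprime.pow_left
    rw [Prime.coprime_iff_not_dvd hp]
    intro h
    rcases hp.dvd_or_dvd h with h | h
    · exact h4 h
    · exact hC1 h
  have hA2 : (q : ℤ) ^ 2 ∣ hA a b c := hcop.dvd_of_dvd_mul_left hAC
  have hac : (q : ℤ) ^ 2 ∣ c * a := by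
    have e : c * a = b ^ 2 - hA a b c := by
      unfold hA
      ring
    rw [e]
    exact dvd_sub (pow_dvd_pow_of_dvd hb 2) hA2
  have hcop2 : IsCoprime ((q : ℤ) ^ 2) c := by
    apply IsCoprime.pow_left
    rw [Prime.coprime_iff_not_dvd hp]
    exact hc
  exact hcop2.dvd_of_dvd_mul_left hac

theorem gaI (q : ℕ) (hq : q.Prime) (a b c d : ℤ) (hA1 : (q : ℤ) ∣ hA a b c) (hC1 : (q : ℤ) ∣ hC b c d)
    (ha : (q : ℤ) ∣ a) : (q : ℤ) ∣ b ∧ (q : ℤ) ∣ c := by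
  have hp : Prime (q : ℤ) := Nat.prime_iff_prime_int.1 hq
  have hb : (q : ℤ) ∣ b := by
    have e : b ^ 2 = hA a b c + a * c := by
      unfold hA
      ring
    have h1 : (q : ℤ) ∣ b ^ 2 := by
      rw [e]
      exact dvd_add hA1 (Dvd.dvd.mul_right ha _)
    exact hp.dvd_of_dvd_pow h1
  have hc : (q : ℤ) ∣ c := by
    have e : c ^ 2 = hC b c d + b * d := by
      unfold hC
      ring
    have h1 : (q : ℤ) ∣ c ^ 2 := by
      rw [e]
      exact dvd_add hC1 (Dvd.dvd.mul_right hb _)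
    exact hp.dvd_of_dvd_pow h1
  exact ⟨hb, hc⟩

end Pool.Agent.PPB
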