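import Pool.Agent.PPB.DefsB
import Pool.Agent.PPB.Api

/-!
# PPB/Cg (size 3)

Counting integers (and quadruples) in a residue class.  `cg1`: `Int.Ioc_filter_modEq_card` / `Int.Ico_filter_modEq_card`,
or a direct argument (the elements of the class in the interval are `n0, n0 + m, ..., n0 + k m`).  `cg4`: the filtered box is the
product of four filtered intervals (`Finset.filter_product`), so the number is a product of four numbers, each between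
`2 η T / m - 1` and `2 η T / m + 1`.
-/

set_option autoImplicit false

namespace Pool.Agent.PPB

theorem cg1 (x y : ℝ) (hxy : x ≤ y) (m : ℕ) (hm : 0 < m) (r : ℤ) :
    (((Finset.Icc ⌈x⌉ ⌊y⌋).filter (fun n => (m : ℤ) ∣ n - r)).card : ℝ) ≤ (y - x) / m + 1 ∧
    (y - x) / m - 1 ≤ (((Finset.Icc ⌈x⌉ ⌊y⌋).filter (fun n => (m : ℤ) ∣ n - r)).card : ℝ) := by
  have hm0 : (0 : ℝ) < m := by exact_mod_cast hm
  have himg : (Finset.Icc ⌈x⌉ ⌊y⌋).filter (fun n => (m : ℤ) ∣ n - r) =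
      (Finset.Icc ⌈(x - r) / m⌉ ⌊(y - r) / m⌋).image (fun k : ℤ => r + m * k) := by
    ext n
    rw [Finset.mem_filter, Finset.mem_Icc, Finset.mem_image, Int.ceil_le, Int.le_floor]
    constructor
    · rintro ⟨⟨h1, h2⟩, k, hk⟩
      have hn : n = r + m * k := by linarith
      refine ⟨k, ?_, hn.symm⟩
      have hnr : (n : ℝ) = r + m * k := by exact_mod_cast hn
      rw [Finset.mem_Icc, Int.ceil_le, Int.le_floor, div_le_iff₀ hm0, le_div_iff₀ hm0]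
      constructor <;> nlinarith
    · rintro ⟨k, hk, rfl⟩
      rw [Finset.mem_Icc, Int.ceil_le, Int.le_floor, div_le_iff₀ hm0, le_div_iff₀ hm0] at hk
      refine ⟨⟨?_, ?_⟩, k, by ring⟩
      · push_cast
        nlinarith [hk.1]
      · push_cast
        nlinarith [hk.2]
  have hinj : Function.Injective (fun k : ℤ => r + m * k) := by
    intro a b hab
    have h1 : (m : ℤ) * a = m * b := by
      have : r + (m : ℤ) * a = r + m * b := hab
      linarith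
    exact mul_left_cancel₀ (by exact_mod_cast hm.ne' : (m : ℤ) ≠ 0) h1
  rw [himg, Finset.card_image_of_injective _ hinj, Int.card_Icc]
  have hXY : (x - r) / m ≤ (y - r) / m := by
    rw [div_le_div_iff_of_pos_right hm0]
    linarith
  have e1 : (y - x) / m = (y - r) / m - (x - r) / m := by ring
  have f1 := Int.floor_le ((y - r) / (m : ℝ))
  have f2 := Int.lt_floor_add_one ((y - r) / (m : ℝ))
  have f3 := Int.le_ceil ((x - r) / (m : ℝ))
  have f4 := Int.ceil_lt_add_one ((x - r) / (m : ℝ))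
  have h0 : 0 ≤ ⌊(y - r) / (m : ℝ)⌋ + 1 - ⌈(x - r) / (m : ℝ)⌉ := by
    have h1 : ((⌈(x - r) / (m : ℝ)⌉ : ℤ) : ℝ) < ((⌊(y - r) / (m : ℝ)⌋ + 2 : ℤ) : ℝ) := by
      push_cast
      linarith
    have h2 : ⌈(x - r) / (m : ℝ)⌉ < ⌊(y - r) / (m : ℝ)⌋ + 2 := by exact_mod_cast h1
    linarith
  have hc : (((⌊(y - r) / (m : ℝ)⌋ + 1 - ⌈(x - r) / (m : ℝ)⌉).toNat : ℕ) : ℝ) =
      ((⌊(y - r) / (m : ℝ)⌋ : ℤ) : ℝ) + 1 - ((⌈(x - r) / (m : ℝ)⌉ : ℤ) : ℝ) := by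
    have h1 : (((⌊(y - r) / (m : ℝ)⌋ + 1 - ⌈(x - r) / (m : ℝ)⌉).toNat : ℤ)) =
        ⌊(y - r) / (m : ℝ)⌋ + 1 - ⌈(x - r) / (m : ℝ)⌉ := Int.toNat_of_nonneg h0
    have h2 := congrArg (fun z : ℤ => (z : ℝ)) h1
    push_cast at h2
    exact h2
  rw [hc, e1]
  constructor <;> linarith

private theorem cg_prod (A B C D : Finset ℤ) (P1 P2 P3 P4 : ℤ → Prop) [DecidablePred P1]
    [DecidablePred P2] [DecidablePred P3] [DecidablePred P4] :
    nb (A ×ˢ B ×ˢ C ×ˢ D) (fun a b c d => P1 a ∧ P2 b ∧ P3 c ∧ P4 d) =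
      ((A.filter P1).card : ℝ) * ((B.filter P2).card * ((C.filter P3).card *
        (D.filter P4).card)) := by
  classical
  unfold nb
  have h1 : ((A ×ˢ B ×ˢ C ×ˢ D).filter
      (fun F : ℤ × ℤ × ℤ × ℤ => P1 F.1 ∧ P2 F.2.1 ∧ P3 F.2.2.1 ∧ P4 F.2.2.2)) =
      (A.filter P1) ×ˢ (B.filter P2) ×ˢ (C.filter P3) ×ˢ (D.filter P4) := by
    ext F
    simp only [Finset.mem_filter, Finset.mem_product]
    tauto
  have h2 : (((A ×ˢ B ×ˢ C ×ˢ D).filter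
      (fun F : ℤ × ℤ × ℤ × ℤ => P1 F.1 ∧ P2 F.2.1 ∧ P3 F.2.2.1 ∧ P4 F.2.2.2)).card : ℝ) =
      ((A.filter P1).card : ℝ) * ((B.filter P2).card * ((C.filter P3).card *
        (D.filter P4).card)) := by
    rw [h1, Finset.card_product, Finset.card_product, Finset.card_product]
    push_cast
    rfl
  rw [← h2]
  congr!

theorem cg4 (a0 b0 c0 d0 η T : ℝ) (hT : 0 ≤ η * T) (m : ℕ) (hm : 0 < m) (a1 b1 c1 d1 : ℤ) :
    nb (box a0 b0 c0 d0 η T) (fun a b c d => (m : ℤ) ∣ a - a1 ∧ (m : ℤ) ∣ b - b1 ∧ (m : ℤ) ∣ c - c1 ∧ (m : ℤ) ∣ d - d1) ≤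
      (2 * η * T / m + 1) ^ 4 ∧
    ((m : ℝ) ≤ 2 * η * T → (2 * η * T / m - 1) ^ 4 ≤
      nb (box a0 b0 c0 d0 η T) (fun a b c d => (m : ℤ) ∣ a - a1 ∧ (m : ℤ) ∣ b - b1 ∧ (m : ℤ) ∣ c - c1 ∧ (m : ℤ) ∣ d - d1)) := by
  have hm0 : (0 : ℝ) < m := by exact_mod_cast hm
  have key : ∀ (w : ℝ) (r : ℤ), (((Finset.Icc ⌈T * w - η * T⌉ ⌊T * w + η * T⌋).filter
      (fun n => (m : ℤ) ∣ n - r)).card : ℝ) ≤ 2 * η * T / m + 1 ∧
      2 * η * T / m - 1 ≤ (((Finset.Icc ⌈T * w - η * T⌉ ⌊T * w + η * T⌋).filter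
      (fun n => (m : ℤ) ∣ n - r)).card : ℝ) := by
    intro w r
    have h1 := cg1 (T * w - η * T) (T * w + η * T) (by linarith) m hm r
    have h2 : (T * w + η * T) - (T * w - η * T) = 2 * η * T := by ring
    rw [h2] at h1
    exact h1
  have hb : nb (box a0 b0 c0 d0 η T)
      (fun a b c d => (m : ℤ) ∣ a - a1 ∧ (m : ℤ) ∣ b - b1 ∧ (m : ℤ) ∣ c - c1 ∧ (m : ℤ) ∣ d - d1) = _ :=
    cg_prod (Finset.Icc ⌈T * a0 - η * T⌉ ⌊T * a0 + η * T⌋)
      (Finset.Icc ⌈T * b0 - η * T⌉ ⌊T * b0 + η * T⌋)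
      (Finset.Icc ⌈T * c0 - η * T⌉ ⌊T * c0 + η * T⌋)
      (Finset.Icc ⌈T * d0 - η * T⌉ ⌊T * d0 + η * T⌋)
      (fun n => (m : ℤ) ∣ n - a1) (fun n => (m : ℤ) ∣ n - b1) (fun n => (m : ℤ) ∣ n - c1)
      (fun n => (m : ℤ) ∣ n - d1)
  rw [hb]
  obtain ⟨ka1, ka2⟩ := key a0 a1
  obtain ⟨kb1, kb2⟩ := key b0 b1
  obtain ⟨kc1, kc2⟩ := key c0 c1
  obtain ⟨kd1, kd2⟩ := key d0 d1
  have hu : 0 ≤ 2 * η * T / m + 1 := by
    have : 0 ≤ 2 * η * T / m := div_nonneg (by linarith) hm0.le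
    linarith
  constructor
  · have e4 : (2 * η * T / m + 1) ^ 4 = (2 * η * T / m + 1) * ((2 * η * T / m + 1) *
      ((2 * η * T / m + 1) * (2 * η * T / m + 1))) := by ring
    rw [e4]
    exact mul_le_mul ka1 (mul_le_mul kb1 (mul_le_mul kc1 kd1 (by positivity) hu) (by positivity) hu)
      (by positivity) hu
  · intro hmT
    have hl : 0 ≤ 2 * η * T / m - 1 := by
      have : 1 ≤ 2 * η * T / m := by
        rw [le_div_iff₀ hm0]
        linarith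
      linarith
    have e4 : (2 * η * T / m - 1) ^ 4 = (2 * η * T / m - 1) * ((2 * η * T / m - 1) *
      ((2 * η * T / m - 1) * (2 * η * T / m - 1))) := by ring
    rw [e4]
    exact mul_le_mul ka2 (mul_le_mul kb2 (mul_le_mul kc2 kd2 hl (by positivity))
      (by positivity) (by positivity)) (by positivity) (by positivity)

end Pool.Agent.PPB
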