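import Mathlib

/-!
# PPB/DefsB : definitions for Theorem B1 of PP3 (MP_0f260b_nt)

`F = (a, b, c, d)` stands for the binary cubic form `a x³ + 3 b x² y + 3 c x y² + d y³`; its Hessian is `A x² + B x y + C y²`
with `A = hA a b c = b² - a c`, `B = hB a b c d = b c - a d`, `C = hC b c d = c² - b d`, and `dD a b c d = 4 A C - B²`.
-/

set_option autoImplicit false

namespace Pool.Agent.PPB

def hA {R : Type*} [CommRing R] (a b c : R) : R := b ^ 2 - a * c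

def hB {R : Type*} [CommRing R] (a b c d : R) : R := b * c - a * d

def hC {R : Type*} [CommRing R] (b c d : R) : R := c ^ 2 - b * d

def dD {R : Type*} [CommRing R] (a b c d : R) : R :=
  3 * b ^ 2 * c ^ 2 - 4 * b ^ 3 * d - 4 * a * c ^ 3 + 6 * a * b * c * d - a ^ 2 * d ^ 2

/-- The value of the cubic form at `(x, y)`. -/
def ev {R : Type*} [CommRing R] (a b c d x y : R) : R :=
  a * x ^ 3 + 3 * b * x ^ 2 * y + 3 * c * x * y ^ 2 + d * y ^ 3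

/-- The second coefficient of the form `F(p x + q y, r x + s y)` (the first one is `ev a b c d p r`, the last one
`ev a b c d q s`). -/
def tb {R : Type*} [CommRing R] (a b c d p q r s : R) : R :=
  a * p ^ 2 * q + b * (p ^ 2 * s + 2 * p * q * r) + c * (2 * p * r * s + q * r ^ 2) + d * r ^ 2 * s

/-- The third coefficient of the form `F(p x + q y, r x + s y)`. -/
def tc {R : Type*} [CommRing R] (a b c d p q r s : R) : R :=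
  a * p * q ^ 2 + b * (q ^ 2 * r + 2 * p * q * s) + c * (2 * q * r * s + p * s ^ 2) + d * r * s ^ 2

/-- The binary quadratic form `A x² + B x y + C y²`. -/
def qf {R : Type*} [CommRing R] (A B C x y : R) : R := A * x ^ 2 + B * x * y + C * y ^ 2

/-- All integral quadruples with `|F_i - T w_i| ≤ η T`. -/
noncomputable def box (a0 b0 c0 d0 η T : ℝ) : Finset (ℤ × ℤ × ℤ × ℤ) :=
  Finset.Icc ⌈T * a0 - η * T⌉ ⌊T * a0 + η * T⌋ ×ˢ Finset.Icc ⌈T * b0 - η * T⌉ ⌊T * b0 + η * T⌋ ×ˢ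
    Finset.Icc ⌈T * c0 - η * T⌉ ⌊T * c0 + η * T⌋ ×ˢ Finset.Icc ⌈T * d0 - η * T⌉ ⌊T * d0 + η * T⌋

open Classical in
/-- The number of elements of `S` with property `P`. -/
noncomputable def nb (S : Finset (ℤ × ℤ × ℤ × ℤ)) (P : ℤ → ℤ → ℤ → ℤ → Prop) : ℝ :=
  ((S.filter (fun F => P F.1 F.2.1 F.2.2.1 F.2.2.2)).card : ℝ)

/-- The box is small enough: uniform bounds with constants `k, K`. -/
def Good (a0 b0 c0 d0 η k K : ℝ) : Prop :=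
  0 < η ∧ η ≤ 1 ∧ 0 < k ∧ k ≤ 1 ∧ 1 ≤ K ∧ ∀ T : ℝ, 1 ≤ T → ∀ F ∈ box a0 b0 c0 d0 η T,
    |(F.1 : ℝ)| ≤ K * T ∧ |(F.2.1 : ℝ)| ≤ K * T ∧ |(F.2.2.1 : ℝ)| ≤ K * T ∧ |(F.2.2.2 : ℝ)| ≤ K * T ∧
    k * T ≤ |(F.1 : ℝ)| ∧
    k * T ^ 2 ≤ (hA F.1 F.2.1 F.2.2.1 : ℤ) ∧ ((hA F.1 F.2.1 F.2.2.1 : ℤ) : ℝ) ≤ K * T ^ 2 ∧
    ((hC F.2.1 F.2.2.1 F.2.2.2 : ℤ) : ℝ) ≤ K * T ^ 2 ∧
    k * T ^ 4 ≤ (dD F.1 F.2.1 F.2.2.1 F.2.2.2 : ℤ) ∧ ((dD F.1 F.2.1 F.2.2.1 F.2.2.2 : ℤ) : ℝ) ≤ K * T ^ 4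

/-- The reduced Hessian condition. -/
def Red (a b c d : ℤ) : Prop :=
  |hB a b c d| ≤ hA a b c ∧ hA a b c ≤ hC b c d ∧ 0 < dD a b c d

/-- The set of reduced forms with `0 < D ≤ Y`. -/
def redS (Y : ℝ) : Set (ℤ × ℤ × ℤ × ℤ) :=
  {F | Red F.1 F.2.1 F.2.2.1 F.2.2.2 ∧ ((dD F.1 F.2.1 F.2.2.1 F.2.2.2 : ℤ) : ℝ) ≤ Y}

/-- The modulus: `M = (320!)²`. -/
def Mo : ℕ := (Nat.factorial 320) ^ 2

/-- Congruence to the fixed form `F* = (1, 1, -1, -2)` modulo `m`. -/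
def fs (m : ℕ) (a b c d : ℤ) : Prop :=
  (m : ℤ) ∣ a - 1 ∧ (m : ℤ) ∣ b - 1 ∧ (m : ℤ) ∣ c + 1 ∧ (m : ℤ) ∣ d + 2

end Pool.Agent.PPB
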