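import Pool.Agent.PPB.DefsB
import Pool.Agent.PPB.Api

/-!
# PPB/Eta

Existence of a good radius, and monotonicity of the box.
-/

set_option autoImplicit false

namespace Pool.Agent.PPB

private theorem Eta_near (a0 b0 c0 d0 : ℝ) (ha : a0 ≠ 0) (hA0 : 0 < hA a0 b0 c0)
    (hD0 : 0 < dD a0 b0 c0 d0) :
    ∃ δ : ℝ, 0 < δ ∧ ∀ x y z w : ℝ, |x - a0| < δ → |y - b0| < δ → |z - c0| < δ → |w - d0| < δ →
      |a0| / 2 < |x| ∧ hA a0 b0 c0 / 2 < hA x y z ∧ dD a0 b0 c0 d0 / 2 < dD x y z w := by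
  have hc1 : Continuous fun p : ℝ × ℝ × ℝ × ℝ => |p.1| := by fun_prop
  have hc2 : Continuous fun p : ℝ × ℝ × ℝ × ℝ => hA p.1 p.2.1 p.2.2.1 := by
    unfold hA; fun_prop
  have hc3 : Continuous fun p : ℝ × ℝ × ℝ × ℝ => dD p.1 p.2.1 p.2.2.1 p.2.2.2 := by
    unfold dD; fun_prop
  have ha' : 0 < |a0| := abs_pos.mpr ha
  have ho : IsOpen {p : ℝ × ℝ × ℝ × ℝ | |a0| / 2 < |p.1| ∧ hA a0 b0 c0 / 2 < hA p.1 p.2.1 p.2.2.1 ∧
      dD a0 b0 c0 d0 / 2 < dD p.1 p.2.1 p.2.2.1 p.2.2.2} :=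
    (isOpen_lt continuous_const hc1).inter
      ((isOpen_lt continuous_const hc2).inter (isOpen_lt continuous_const hc3))
  have hm : (a0, b0, c0, d0) ∈ {p : ℝ × ℝ × ℝ × ℝ | |a0| / 2 < |p.1| ∧
      hA a0 b0 c0 / 2 < hA p.1 p.2.1 p.2.2.1 ∧
      dD a0 b0 c0 d0 / 2 < dD p.1 p.2.1 p.2.2.1 p.2.2.2} := by
    refine ⟨?_, ?_, ?_⟩
    · show |a0| / 2 < |a0|
      linarith
    · show hA a0 b0 c0 / 2 < hA a0 b0 c0
      linarith
    · show dD a0 b0 c0 d0 / 2 < dD a0 b0 c0 d0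
      linarith
  obtain ⟨δ, hδ, hb⟩ := Metric.isOpen_iff.mp ho _ hm
  refine ⟨δ, hδ, ?_⟩
  intro x y z w hx hy hz hw
  have hmem : (x, y, z, w) ∈ Metric.ball (a0, b0, c0, d0) δ := by
    rw [Metric.mem_ball]
    simp only [Prod.dist_eq, Real.dist_eq]
    exact max_lt hx (max_lt hy (max_lt hz hw))
  exact hb hmem

private theorem Eta_mem (a0 η T : ℝ) (m : ℤ) (h : m ∈ Finset.Icc ⌈T * a0 - η * T⌉ ⌊T * a0 + η * T⌋)
    (hT : 0 < T) : |(m : ℝ) / T - a0| ≤ η := by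
  rw [Finset.mem_Icc, Int.ceil_le, Int.le_floor] at h
  rw [abs_le]
  constructor
  · rw [neg_le_sub_iff_le_add, ← sub_le_iff_le_add, le_div_iff₀ hT]
    nlinarith [h.1]
  · rw [sub_le_iff_le_add, div_le_iff₀ hT]
    nlinarith [h.2]

private theorem Eta_bd (W x y z w : ℝ) (hW : 1 ≤ W) (hx : |x| ≤ W) (hy : |y| ≤ W) (hz : |z| ≤ W)
    (hw : |w| ≤ W) : hA x y z ≤ 2 * W ^ 2 ∧ hC y z w ≤ 2 * W ^ 2 ∧ dD x y z w ≤ 18 * W ^ 4 := by
  have hW0 : 0 ≤ W := by linarith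
  have m2 : ∀ u v : ℝ, |u| ≤ W → |v| ≤ W → |u * v| ≤ W ^ 2 := by
    intro u v hu hv
    rw [abs_mul, pow_two]
    exact mul_le_mul hu hv (abs_nonneg _) hW0
  have m4 : ∀ u v r s : ℝ, |u| ≤ W → |v| ≤ W → |r| ≤ W → |s| ≤ W → |u * v * (r * s)| ≤ W ^ 4 := by
    intro u v r s hu hv hr hs
    rw [abs_mul]
    have h1 := m2 u v hu hv
    have h2 := m2 r s hr hs
    have h3 : |u * v| * |r * s| ≤ W ^ 2 * W ^ 2 :=
      mul_le_mul h1 h2 (abs_nonneg _) (by positivity)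
    have h4 : W ^ 2 * W ^ 2 = W ^ 4 := by ring
    linarith
  refine ⟨?_, ?_, ?_⟩
  · unfold hA
    have h1 := abs_le.mp (m2 y y hy hy)
    have h2 := abs_le.mp (m2 x z hx hz)
    nlinarith [h1.2, h2.1]
  · unfold hC
    have h1 := abs_le.mp (m2 z z hz hz)
    have h2 := abs_le.mp (m2 y w hy hw)
    nlinarith [h1.2, h2.1]
  · unfold dD
    have h1 := (abs_le.mp (m4 y y z z hy hy hz hz)).2
    have h2 := (abs_le.mp (m4 y y y w hy hy hy hw)).1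
    have h3 := (abs_le.mp (m4 x z z z hx hz hz hz)).1
    have h4 := (abs_le.mp (m4 x y z w hx hy hz hw)).2
    have h5 := (abs_le.mp (m4 x x w w hx hx hw hw)).1
    have e : 3 * y ^ 2 * z ^ 2 - 4 * y ^ 3 * w - 4 * x * z ^ 3 + 6 * x * y * z * w - x ^ 2 * w ^ 2 =
      3 * (y * y * (z * z)) - 4 * (y * y * (y * w)) - 4 * (x * z * (z * z)) +
        6 * (x * y * (z * w)) - x * x * (w * w) := by ring
    rw [e]
    linarith

theorem eta (a0 b0 c0 d0 η : ℝ) (ha : a0 ≠ 0) (hA0 : 0 < hA a0 b0 c0) (hD0 : 0 < dD a0 b0 c0 d0) (hη : 0 < η) :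
    ∃ η' k K : ℝ, η' ≤ η ∧ Good a0 b0 c0 d0 η' k K := by
  obtain ⟨δ, hδ, hnear⟩ := Eta_near a0 b0 c0 d0 ha hA0 hD0
  have ha' : 0 < |a0| := abs_pos.mpr ha
  obtain ⟨W, hW⟩ : ∃ W : ℝ, W = |a0| + |b0| + |c0| + |d0| + 1 := ⟨_, rfl⟩
  have hb0 := abs_nonneg b0
  have hc0 := abs_nonneg c0
  have hd0 := abs_nonneg d0
  have hW1 : 1 ≤ W := by rw [hW]; linarith
  refine ⟨min η (min (δ / 2) 1),
    min 1 (min (|a0| / 2) (min (hA a0 b0 c0 / 2) (dD a0 b0 c0 d0 / 2))),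
    18 * W ^ 4 + 2 * W ^ 2 + W, min_le_left _ _, ?_, ?_, ?_, min_le_left _ _, ?_, ?_⟩
  · exact lt_min hη (lt_min (by linarith) one_pos)
  · exact (min_le_right _ _).trans (min_le_right _ _)
  · exact lt_min one_pos (lt_min (by linarith) (lt_min (by linarith) (by linarith)))
  · have h1 : 0 ≤ W ^ 4 := by positivity
    have h2 : 0 ≤ W ^ 2 := by positivity
    linarith
  · intro T hT F hF
    have hT0 : 0 < T := by linarith
    obtain ⟨η', hη'⟩ : ∃ η' : ℝ, η' = min η (min (δ / 2) 1) := ⟨_, rfl⟩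
    obtain ⟨k, hk⟩ : ∃ k : ℝ,
      k = min 1 (min (|a0| / 2) (min (hA a0 b0 c0 / 2) (dD a0 b0 c0 d0 / 2))) := ⟨_, rfl⟩
    rw [← hη'] at hF
    rw [← hk]
    have hη1 : η' ≤ δ / 2 := by rw [hη']; exact (min_le_right _ _).trans (min_le_left _ _)
    have hη2 : η' ≤ 1 := by rw [hη']; exact (min_le_right _ _).trans (min_le_right _ _)
    have hk1 : k ≤ |a0| / 2 := by rw [hk]; exact (min_le_right _ _).trans (min_le_left _ _)
    have hk2 : k ≤ hA a0 b0 c0 / 2 := by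
      rw [hk]
      exact (min_le_right _ _).trans ((min_le_right _ _).trans (min_le_left _ _))
    have hk3 : k ≤ dD a0 b0 c0 d0 / 2 := by
      rw [hk]
      exact (min_le_right _ _).trans ((min_le_right _ _).trans (min_le_right _ _))
    unfold box at hF
    rw [Finset.mem_product, Finset.mem_product, Finset.mem_product] at hF
    obtain ⟨f1, f2, f3, f4⟩ := hF
    have g1 := Eta_mem _ _ _ _ f1 hT0
    have g2 := Eta_mem _ _ _ _ f2 hT0
    have g3 := Eta_mem _ _ _ _ f3 hT0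
    have g4 := Eta_mem _ _ _ _ f4 hT0
    obtain ⟨a, ha1⟩ : ∃ a : ℤ, a = F.1 := ⟨_, rfl⟩
    obtain ⟨b, hb1⟩ : ∃ b : ℤ, b = F.2.1 := ⟨_, rfl⟩
    obtain ⟨c, hc1⟩ : ∃ c : ℤ, c = F.2.2.1 := ⟨_, rfl⟩
    obtain ⟨d, hd1⟩ : ∃ d : ℤ, d = F.2.2.2 := ⟨_, rfl⟩
    rw [← ha1] at g1
    rw [← hb1] at g2
    rw [← hc1] at g3
    rw [← hd1] at g4
    rw [← ha1, ← hb1, ← hc1, ← hd1]
    obtain ⟨x, hx⟩ : ∃ x : ℝ, x = (a : ℝ) / T := ⟨_, rfl⟩
    obtain ⟨y, hy⟩ : ∃ y : ℝ, y = (b : ℝ) / T := ⟨_, rfl⟩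
    obtain ⟨z, hz⟩ : ∃ z : ℝ, z = (c : ℝ) / T := ⟨_, rfl⟩
    obtain ⟨w, hw⟩ : ∃ w : ℝ, w = (d : ℝ) / T := ⟨_, rfl⟩
    rw [← hx] at g1
    rw [← hy] at g2
    rw [← hz] at g3
    rw [← hw] at g4
    have ea : (a : ℝ) = T * x := by rw [hx]; field_simp
    have eb : (b : ℝ) = T * y := by rw [hy]; field_simp
    have ec : (c : ℝ) = T * z := by rw [hz]; field_simp
    have ed : (d : ℝ) = T * w := by rw [hw]; field_simp
    obtain ⟨n1, n2, n3⟩ := hnear x y z w (by linarith) (by linarith) (by linarith) (by linarith)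
    have wb : ∀ u u0 : ℝ, |u - u0| ≤ η' → |u0| + 1 ≤ W → |u| ≤ W := by
      intro u u0 h1 h2
      have h3 : |u| ≤ |u - u0| + |u0| := by
        calc |u| = |(u - u0) + u0| := by ring_nf
          _ ≤ |u - u0| + |u0| := abs_add_le _ _
      linarith
    have wx := wb x a0 g1 (by rw [hW]; linarith)
    have wy := wb y b0 g2 (by rw [hW]; linarith)
    have wz := wb z c0 g3 (by rw [hW]; linarith)
    have ww := wb w d0 g4 (by rw [hW]; linarith)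
    obtain ⟨b1, b2, b3⟩ := Eta_bd W x y z w hW1 wx wy wz ww
    have hW2 : 0 ≤ W ^ 2 := by positivity
    have hW4 : 0 ≤ W ^ 4 := by positivity
    have hT2 : 0 ≤ T ^ 2 := by positivity
    have hT4 : 0 ≤ T ^ 4 := by positivity
    have cA : ((hA a b c : ℤ) : ℝ) = T ^ 2 * hA x y z := by
      unfold hA
      push_cast
      rw [ea, eb, ec]; ring
    have cC : ((hC b c d : ℤ) : ℝ) = T ^ 2 * hC y z w := by
      unfold hC
      push_cast
      rw [eb, ec, ed]; ring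
    have cD : ((dD a b c d : ℤ) : ℝ) = T ^ 4 * dD x y z w := by
      unfold dD
      push_cast
      rw [ea, eb, ec, ed]; ring
    have ab : ∀ u v : ℝ, v = T * u → |u| ≤ W → |v| ≤ (18 * W ^ 4 + 2 * W ^ 2 + W) * T := by
      intro u v h1 h2
      rw [h1, abs_mul, abs_of_pos hT0, mul_comm]
      exact mul_le_mul_of_nonneg_right (by linarith) hT0.le
    refine ⟨ab x _ ea wx, ab y _ eb wy, ab z _ ec wz, ab w _ ed ww, ?_, ?_, ?_, ?_, ?_, ?_⟩
    · rw [ea, abs_mul, abs_of_pos hT0, mul_comm T]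
      exact mul_le_mul_of_nonneg_right (by linarith) hT0.le
    · rw [cA, mul_comm]
      exact mul_le_mul_of_nonneg_left (by linarith) hT2
    · rw [cA, mul_comm (18 * W ^ 4 + 2 * W ^ 2 + W)]
      exact mul_le_mul_of_nonneg_left (by linarith) hT2
    · rw [cC, mul_comm (18 * W ^ 4 + 2 * W ^ 2 + W)]
      exact mul_le_mul_of_nonneg_left (by linarith) hT2
    · rw [cD, mul_comm]
      exact mul_le_mul_of_nonneg_left (by linarith) hT4
    · rw [cD, mul_comm (18 * W ^ 4 + 2 * W ^ 2 + W)]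
      exact mul_le_mul_of_nonneg_left (by linarith) hT4

theorem box_mono (a0 b0 c0 d0 η η' T : ℝ) (h : η' ≤ η) (hT : 0 ≤ T) :
    box a0 b0 c0 d0 η' T ⊆ box a0 b0 c0 d0 η T := by
  have h1 : η' * T ≤ η * T := mul_le_mul_of_nonneg_right h hT
  have h2 : ∀ u : ℝ, Finset.Icc ⌈T * u - η' * T⌉ ⌊T * u + η' * T⌋ ⊆
      Finset.Icc ⌈T * u - η * T⌉ ⌊T * u + η * T⌋ := by
    intro u
    apply Finset.Icc_subset_Icc
    · exact Int.ceil_mono (by linarith)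
    · exact Int.floor_mono (by linarith)
  unfold box
  exact Finset.product_subset_product (h2 _) (Finset.product_subset_product (h2 _)
    (Finset.product_subset_product (h2 _) (h2 _)))

end Pool.Agent.PPB
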