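import Pool.Agent.PPB.DefsB

/-!
# PPB/FsD (size 2)

The fixed class modulo `Mo`.  PROOF.  `fs Mo a b c d` gives `dD a b c d ≡ dD 1 1 (-1) (-2) = 23` modulo `Mo`
(`Int.ModEq`, polynomial), and `4 ∣ Mo`, `q² ∣ Mo` for all primes `q ≤ 320` (`q ∣ 320!`, `Nat.dvd_factorial`).  Do NOT let
Lean compute `Nat.factorial 320` (use `Mo` as an opaque constant, `pow_dvd_pow_of_dvd`); if `q² ∣ dD a b c d` then `q² ∣ 23`,
impossible (`q² ≤ 23` gives `q ∈ {2, 3}`).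
-/

set_option autoImplicit false

namespace Pool.Agent.PPB

private theorem fsD_mod (m : ℕ) (a b c d : ℤ) (h : fs m a b c d) : (m : ℤ) ∣ dD a b c d - 23 := by
  obtain ⟨⟨x, hx⟩, ⟨y, hy⟩, ⟨z, hz⟩, ⟨w, hw⟩⟩ := h
  have ha : a = 1 + (m : ℤ) * x := by linarith
  have hb : b = 1 + (m : ℤ) * y := by linarith
  have hc : c = -1 + (m : ℤ) * z := by linarith
  have hd : d = -2 + (m : ℤ) * w := by linarith
  have h1 : dD a b c d ≡ dD 1 1 (-1) (-2) [ZMOD (m : ℤ)] := by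
    have ea : a ≡ 1 [ZMOD (m : ℤ)] := (Int.modEq_iff_dvd.2 ⟨-x, by rw [ha]; ring⟩)
    have eb : b ≡ 1 [ZMOD (m : ℤ)] := (Int.modEq_iff_dvd.2 ⟨-y, by rw [hb]; ring⟩)
    have ec : c ≡ -1 [ZMOD (m : ℤ)] := (Int.modEq_iff_dvd.2 ⟨-z, by rw [hc]; ring⟩)
    have ed : d ≡ -2 [ZMOD (m : ℤ)] := (Int.modEq_iff_dvd.2 ⟨-w, by rw [hd]; ring⟩)
    unfold dD
    gcongr
  have h2 : dD (1 : ℤ) 1 (-1) (-2) = 23 := by norm_num [dD]
  rw [h2] at h1
  exact h1.symm.dvd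

private theorem fsD_sq (q : ℕ) (hq0 : 0 < q) (hq : q ≤ 320) : q ^ 2 ∣ Mo := by
  unfold Mo
  exact pow_dvd_pow_of_dvd (Nat.dvd_factorial hq0 hq) 2

theorem fsD (a b c d : ℤ) (h : fs Mo a b c d) :
    dD a b c d % 4 = 3 ∧ ∀ q : ℕ, q.Prime → q ≤ 320 → ¬ ((q : ℤ) ^ 2 ∣ dD a b c d) := by
  have h0 := fsD_mod Mo a b c d h
  have key : ∀ q : ℕ, 0 < q → q ≤ 320 → (q : ℤ) ^ 2 ∣ dD a b c d - 23 := by
    intro q h1 h2
    have h3 : ((q ^ 2 : ℕ) : ℤ) ∣ (Mo : ℤ) := Int.natCast_dvd_natCast.2 (fsD_sq q h1 h2)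
    have h4 := h3.trans h0
    push_cast at h4
    exact h4
  constructor
  · have h4 := key 2 (by norm_num) (by norm_num)
    norm_num at h4
    omega
  · intro q hqp hq hdvd
    have h5 := key q hqp.pos hq
    have h6 : (q : ℤ) ^ 2 ∣ 23 := by
      have h7 := dvd_sub hdvd h5
      have h8 : dD a b c d - (dD a b c d - 23) = 23 := by ring
      rwa [h8] at h7
    have h9 : q ^ 2 ∣ 23 := by
      have : ((q ^ 2 : ℕ) : ℤ) ∣ ((23 : ℕ) : ℤ) := by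
        push_cast
        exact h6
      exact Int.natCast_dvd_natCast.1 this
    have h10 : q ∣ 23 := (Dvd.intro_left (q ^ 1) (by ring : q ^ 1 * q = q ^ 2)).trans h9
    have h11 : q = 23 := (Nat.prime_dvd_prime_iff_eq hqp (by norm_num)).1 h10
    subst h11
    exact absurd (Nat.le_of_dvd (by norm_num) h9) (by norm_num)

end Pool.Agent.PPB
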