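import Pool.Agent.PPB.DefsB

/-!
# PPB/LocN (size 3)

For a non-unit `a` of `ZMod (q²)` (so `a² = 0`) the number of `(b, c, d)` with `D = 0` is at most `2 q⁵`.  PROOF.  `b` a unit:
`D = (3 b² c² - 4 a c³) - d (4 b³ - 6 a b c)` and `4 b³ - 6 a b c` is a unit (`q` odd; `a` is nilpotent), so `d` is determined by
`b, c`: at most `q² q²` solutions.  `b` not a unit: at most `q * q² * q²` triples.  Total `≤ q⁴ + q⁵ ≤ 2 q⁵`.
-/

set_option autoImplicit false

namespace Pool.Agent.PPB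

private theorem LocN_dvd (q : ℕ) (hq : q.Prime) (b : ZMod (q ^ 2)) (hb : ¬ IsUnit b) :
    q ∣ b.val := by
  have hne : NeZero (q ^ 2) := ⟨pow_ne_zero 2 hq.ne_zero⟩
  by_contra h
  apply hb
  have h1 : Nat.Coprime b.val (q ^ 2) :=
    Nat.Coprime.pow_right 2 ((Nat.Prime.coprime_iff_not_dvd hq).2 h).symm
  have h3 := (ZMod.isUnit_iff_coprime b.val (q ^ 2)).2 h1
  rwa [ZMod.natCast_zmod_val] at h3

private theorem LocN_card (q : ℕ) (hq : q.Prime) :
    Nat.card {b : ZMod (q ^ 2) // ¬ IsUnit b} ≤ q := by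
  have hne : NeZero (q ^ 2) := ⟨pow_ne_zero 2 hq.ne_zero⟩
  have hlt : ∀ b : ZMod (q ^ 2), b.val / q < q := by
    intro b
    rw [Nat.div_lt_iff_lt_mul hq.pos, ← pow_two]
    exact ZMod.val_lt b
  have hinj : Function.Injective
      (fun b : {b : ZMod (q ^ 2) // ¬ IsUnit b} => (⟨b.1.val / q, hlt b.1⟩ : Fin q)) := by
    rintro ⟨b, hb⟩ ⟨c, hc⟩ h
    have h1 : b.val / q = c.val / q := by simpa using h
    have h3 := Nat.div_mul_cancel (LocN_dvd q hq b hb)
    have h4 := Nat.div_mul_cancel (LocN_dvd q hq c hc)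
    have h5 : b.val = c.val := by rw [← h3, ← h4, h1]
    exact Subtype.ext (ZMod.val_injective _ h5)
  have := Nat.card_le_card_of_injective _ hinj
  simpa using this

theorem locN (q : ℕ) (hq : q.Prime) (h2 : q ≠ 2) (a : ZMod (q ^ 2)) (ha : ¬ IsUnit a) :
    Nat.card {x : ZMod (q ^ 2) × ZMod (q ^ 2) × ZMod (q ^ 2) // dD a x.1 x.2.1 x.2.2 = 0} ≤ 2 * q ^ 5 := by
  have hne : NeZero (q ^ 2) := ⟨pow_ne_zero 2 hq.ne_zero⟩
  have ha2 : a ^ 2 = 0 := by
    obtain ⟨k, hk⟩ := LocN_dvd q hq a ha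
    have h1 : a = ((q * k : ℕ) : ZMod (q ^ 2)) := by
      rw [← hk, ZMod.natCast_zmod_val]
    rw [h1, ← Nat.cast_pow, mul_pow]
    rw [Nat.cast_mul, ZMod.natCast_self, zero_mul]
  have h4u : IsUnit (4 : ZMod (q ^ 2)) := by
    have h1 : Nat.Coprime 4 (q ^ 2) := by
      apply Nat.Coprime.pow_right
      have h3 : Nat.Coprime 2 q := (Nat.coprime_primes Nat.prime_two hq).2 (Ne.symm h2)
      exact Nat.Coprime.pow_left 2 h3
    have h3 := (ZMod.isUnit_iff_coprime 4 (q ^ 2)).2 h1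
    exact_mod_cast h3
  have hun : ∀ b c : ZMod (q ^ 2), IsUnit b → IsUnit (4 * b ^ 3 - 6 * a * b * c) := by
    intro b c hb
    have h1 : (4 * b ^ 3 - 6 * a * b * c) * (4 * b ^ 3 + 6 * a * b * c)
        = (4 * b ^ 3) ^ 2 - 36 * b ^ 2 * c ^ 2 * a ^ 2 := by ring
    rw [ha2, mul_zero, sub_zero] at h1
    have h3 : IsUnit ((4 * b ^ 3) ^ 2) := (h4u.mul (hb.pow 3)).pow 2
    rw [← h1] at h3
    exact isUnit_of_mul_isUnit_left h3
  classical
  let f : {x : ZMod (q ^ 2) × ZMod (q ^ 2) × ZMod (q ^ 2) // dD a x.1 x.2.1 x.2.2 = 0} →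
      (ZMod (q ^ 2) × ZMod (q ^ 2)) ⊕
        ({b : ZMod (q ^ 2) // ¬ IsUnit b} × ZMod (q ^ 2) × ZMod (q ^ 2)) :=
    fun x => if h : IsUnit x.1.1 then Sum.inl (x.1.1, x.1.2.1)
      else Sum.inr (⟨x.1.1, h⟩, x.1.2.1, x.1.2.2)
  have hf : Function.Injective f := by
    rintro ⟨⟨b, c, d⟩, hx⟩ ⟨⟨b', c', d'⟩, hx'⟩ h
    by_cases hb : IsUnit b
    · by_cases hb' : IsUnit b'
      · simp only [f, dif_pos hb, dif_pos hb', Sum.inl.injEq, Prod.mk.injEq] at h
        obtain ⟨rfl, rfl⟩ := h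
        have hd : d = d' := by
          have e1 : d * (4 * b ^ 3 - 6 * a * b * c) = d' * (4 * b ^ 3 - 6 * a * b * c) := by
            have h3 : dD a b c d = 0 := hx
            have h4 : dD a b c d' = 0 := hx'
            unfold dD at h3 h4
            linear_combination h4 - h3 + (d' ^ 2 - d ^ 2) * ha2
          exact (hun b c hb).mul_right_cancel e1
        subst hd
        rfl
      · simp only [f, dif_pos hb, dif_neg hb'] at h
        cases h
    · by_cases hb' : IsUnit b'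
      · simp only [f, dif_neg hb, dif_pos hb'] at h
        cases h
      · simp only [f, dif_neg hb, dif_neg hb', Sum.inr.injEq, Prod.mk.injEq,
          Subtype.mk.injEq] at h
        obtain ⟨rfl, rfl, rfl⟩ := h
        rfl
  have h1 := Nat.card_le_card_of_injective f hf
  rw [Nat.card_sum, Nat.card_prod, Nat.card_prod, Nat.card_prod, Nat.card_zmod] at h1
  have h3 := LocN_card q hq
  have hq1 : 1 ≤ q := hq.pos
  calc _ ≤ q ^ 2 * q ^ 2 + Nat.card {b : ZMod (q ^ 2) // ¬ IsUnit b} * (q ^ 2 * q ^ 2) := h1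
    _ ≤ q ^ 2 * q ^ 2 + q * (q ^ 2 * q ^ 2) := by
        exact Nat.add_le_add_left (Nat.mul_le_mul_right _ h3) _
    _ ≤ q * (q ^ 2 * q ^ 2) + q * (q ^ 2 * q ^ 2) := by
        apply Nat.add_le_add_right
        exact Nat.le_mul_of_pos_left _ hq1
    _ = 2 * q ^ 5 := by ring

end Pool.Agent.PPB
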