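import Pool.Agent.PPB.DefsB

/-!
# PPB/LocS (size 3)

Solutions of `G² = 4 A³` modulo `q²`.  PROOF.  For `A` a unit: if `G, G'` are two solutions then `(G - G')(G + G') = 0` and
`q` can not divide both factors (`G` is a unit, `q` odd), so `G' = ± G`: at most 2 values of `G`.  For `A` not a unit
(`A = q A'`, at most `q` values): `G² = 0` in `ZMod (q²)` iff `q ∣ G`: `q` values.  Total `≤ 2 q² + q * q`.
-/

set_option autoImplicit false

namespace Pool.Agent.PPB

/-- The multiples of `q` modulo `q²`. -/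
private noncomputable def locS_K (q : ℕ) : Finset (ZMod (q ^ 2)) :=
  (Finset.range q).image (fun k : ℕ => ((q * k : ℕ) : ZMod (q ^ 2)))

private lemma locS_K_card (q : ℕ) : (locS_K q).card ≤ q := by
  unfold locS_K
  refine Finset.card_image_le.trans ?_
  simp

private lemma locS_dich (q : ℕ) (hq : q.Prime) (x : ZMod (q ^ 2)) : x ∈ locS_K q ∨ IsUnit x := by
  have : NeZero (q ^ 2) := ⟨pow_ne_zero 2 hq.ne_zero⟩
  by_cases h : q ∣ x.val
  · left
    obtain ⟨k, hk⟩ := h
    unfold locS_K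
    rw [Finset.mem_image]
    refine ⟨k, ?_, ?_⟩
    · rw [Finset.mem_range]
      have h1 : x.val < q ^ 2 := ZMod.val_lt x
      rw [hk] at h1
      have h2 : q * k < q * q := by rw [pow_two] at h1; exact h1
      exact lt_of_mul_lt_mul_left h2 (Nat.zero_le q)
    · rw [← hk, ZMod.natCast_zmod_val]
  · right
    have h1 : Nat.Coprime x.val (q ^ 2) := ((hq.coprime_iff_not_dvd.mpr h).symm).pow_right 2
    have h2 := (ZMod.isUnit_iff_coprime x.val (q ^ 2)).mpr h1
    rwa [ZMod.natCast_zmod_val] at h2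

private lemma locS_K_spec (q : ℕ) (x : ZMod (q ^ 2)) (hx : x ∈ locS_K q) :
    ∃ k : ZMod (q ^ 2), x = (q : ZMod (q ^ 2)) * k := by
  unfold locS_K at hx
  rw [Finset.mem_image] at hx
  obtain ⟨k, _, hk⟩ := hx
  exact ⟨(k : ZMod (q ^ 2)), by rw [← hk]; push_cast; ring⟩

private lemma locS_qq (q : ℕ) : (q : ZMod (q ^ 2)) ^ 2 = 0 := by
  have h := ZMod.natCast_self (q ^ 2)
  rwa [Nat.cast_pow] at h

private lemma locS_K_not_unit (q : ℕ) (hq : q.Prime) (x : ZMod (q ^ 2)) (hx : x ∈ locS_K q) : ¬ IsUnit x := by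
  have : Fact (1 < q ^ 2) := ⟨Nat.one_lt_pow (by norm_num) hq.one_lt⟩
  obtain ⟨k, hk⟩ := locS_K_spec q x hx
  intro hu
  have h1 : IsUnit (x ^ 2) := hu.pow 2
  have h2 : x ^ 2 = 0 := by
    rw [hk, mul_pow, locS_qq, zero_mul]
  rw [h2] at h1
  exact not_isUnit_zero h1

private lemma locS_K_add (q : ℕ) (hq : q.Prime) (x y : ZMod (q ^ 2)) (hx : x ∈ locS_K q) (hy : y ∈ locS_K q) :
    ¬ IsUnit (x + y) := by
  have : Fact (1 < q ^ 2) := ⟨Nat.one_lt_pow (by norm_num) hq.one_lt⟩
  obtain ⟨k, hk⟩ := locS_K_spec q x hx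
  obtain ⟨l, hl⟩ := locS_K_spec q y hy
  intro hu
  have h1 : IsUnit ((x + y) ^ 2) := hu.pow 2
  have h2 : (x + y) ^ 2 = 0 := by
    rw [hk, hl, ← mul_add, mul_pow, locS_qq, zero_mul]
  rw [h2] at h1
  exact not_isUnit_zero h1

private lemma locS_two (q : ℕ) (hq : q.Prime) (h2 : q ≠ 2) : IsUnit (2 : ZMod (q ^ 2)) := by
  have h1 : Nat.Coprime 2 (q ^ 2) := by
    refine Nat.Coprime.pow_right 2 ?_
    exact (Nat.coprime_primes Nat.prime_two hq).mpr (Ne.symm h2)
  have h3 := (ZMod.isUnit_iff_coprime 2 (q ^ 2)).mpr h1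
  simpa using h3

private lemma locS_pm (q : ℕ) (hq : q.Prime) (h2 : q ≠ 2) (A G H : ZMod (q ^ 2)) (hA : IsUnit A)
    (hG : G ^ 2 = 4 * A ^ 3) (hH : H ^ 2 = 4 * A ^ 3) : H = G ∨ H = -G := by
  have hu2 := locS_two q hq h2
  have hu4 : IsUnit (4 : ZMod (q ^ 2)) := by
    have : (4 : ZMod (q ^ 2)) = 2 ^ 2 := by norm_num
    rw [this]
    exact hu2.pow 2
  have hGu : IsUnit G := by
    have h1 : IsUnit (G ^ 2) := by
      rw [hG]
      exact hu4.mul (hA.pow 3)
    exact (isUnit_pow_iff (by norm_num)).mp h1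
  have hprod : (H - G) * (H + G) = 0 := by
    have : (H - G) * (H + G) = H ^ 2 - G ^ 2 := by ring
    rw [this, hG, hH, sub_self]
  rcases locS_dich q hq (H + G) with h | h
  · rcases locS_dich q hq (G - H) with h' | h'
    · exfalso
      refine locS_K_add q hq _ _ h h' ?_
      have : H + G + (G - H) = 2 * G := by ring
      rw [this]
      exact hu2.mul hGu
    · right
      have h3 : (G - H) * (H + G) = 0 := by
        have : (G - H) * (H + G) = -((H - G) * (H + G)) := by ring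
        rw [this, hprod, neg_zero]
      have h4 : H + G = 0 := by
        exact (IsUnit.mul_right_eq_zero h').mp h3
      exact eq_neg_of_add_eq_zero_left h4
  · left
    have h4 : H - G = 0 := (IsUnit.mul_left_eq_zero h).mp hprod
    exact sub_eq_zero.mp h4

theorem locS (q : ℕ) (hq : q.Prime) (h2 : q ≠ 2) :
    Nat.card {x : ZMod (q ^ 2) × ZMod (q ^ 2) // x.2 ^ 2 = 4 * x.1 ^ 3} ≤ 3 * q ^ 2 := by
  classical
  have : NeZero (q ^ 2) := ⟨pow_ne_zero 2 hq.ne_zero⟩
  rw [Nat.card_eq_fintype_card, Fintype.card_subtype]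
  set S : Finset (ZMod (q ^ 2) × ZMod (q ^ 2)) :=
    Finset.univ.filter (fun x => x.2 ^ 2 = 4 * x.1 ^ 3) with hS
  have hsub : S ⊆ (locS_K q ×ˢ locS_K q) ∪ S.filter (fun x => IsUnit x.1) := by
    intro x hx
    rw [Finset.mem_union]
    by_cases hu : IsUnit x.1
    · right
      exact Finset.mem_filter.mpr ⟨hx, hu⟩
    · left
      have h1 : x.1 ∈ locS_K q := (locS_dich q hq x.1).resolve_right hu
      rw [Finset.mem_product]
      refine ⟨h1, ?_⟩
      refine (locS_dich q hq x.2).resolve_right ?_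
      intro hu2
      have hx2 : x.2 ^ 2 = 4 * x.1 ^ 3 := (Finset.mem_filter.mp hx).2
      obtain ⟨k, hk⟩ := locS_K_spec q x.1 h1
      have h3 : x.1 ^ 2 = 0 := by rw [hk, mul_pow, locS_qq, zero_mul]
      have h4 : x.2 ^ 2 = 0 := by
        have h6 : x.2 ^ 2 = 4 * x.1 * x.1 ^ 2 := by rw [hx2]; ring
        rw [h6, h3, mul_zero]
      have h5 : IsUnit (x.2 ^ 2) := hu2.pow 2
      rw [h4] at h5
      have : Fact (1 < q ^ 2) := ⟨Nat.one_lt_pow (by norm_num) hq.one_lt⟩
      exact not_isUnit_zero h5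
  have hcardU : (S.filter (fun x => IsUnit x.1)).card ≤ 2 * q ^ 2 := by
    have h1 : (S.filter (fun x => IsUnit x.1)).card ≤
        2 * ((S.filter (fun x => IsUnit x.1)).image Prod.fst).card := by
      refine Finset.card_le_mul_card_image _ 2 ?_
      intro a ha
      rw [Finset.mem_image] at ha
      obtain ⟨⟨a', G⟩, hG, hGa⟩ := ha
      simp only at hGa
      subst hGa
      rw [Finset.mem_filter, hS, Finset.mem_filter] at hG
      obtain ⟨⟨_, hG2⟩, hGu⟩ := hG
      simp only at hG2 hGu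
      have hsub2 : (S.filter (fun x => IsUnit x.1)).filter (fun x => x.1 = a') ⊆
          {(a', G), (a', -G)} := by
        intro y hy
        rw [Finset.mem_filter, Finset.mem_filter, hS, Finset.mem_filter] at hy
        obtain ⟨⟨⟨_, hy2⟩, _⟩, hya⟩ := hy
        obtain ⟨y1, y2⟩ := y
        simp only at hy2 hya
        subst hya
        rcases locS_pm q hq h2 y1 G y2 hGu hG2 hy2 with h | h
        · rw [h]; simp
        · rw [h]; simp
      refine (Finset.card_le_card hsub2).trans ?_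
      exact Finset.card_le_two
    refine h1.trans ?_
    refine Nat.mul_le_mul_left 2 ?_
    refine (Finset.card_le_univ _).trans ?_
    rw [ZMod.card]
  have hK := locS_K_card q
  calc S.card ≤ ((locS_K q ×ˢ locS_K q) ∪ S.filter (fun x => IsUnit x.1)).card :=
        Finset.card_le_card hsub
    _ ≤ (locS_K q ×ˢ locS_K q).card + (S.filter (fun x => IsUnit x.1)).card :=
        Finset.card_union_le _ _
    _ ≤ q * q + 2 * q ^ 2 := by
        refine Nat.add_le_add ?_ hcardU
        rw [Finset.card_product]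
        exact Nat.mul_le_mul hK hK
    _ = 3 * q ^ 2 := by ring

end Pool.Agent.PPB
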