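import Pool.Agent.PPB.DefsB
import Pool.Agent.PPB.LocS

/-!
# PPB/LocU (size 3)

For a unit `a` of `ZMod (q²)` the number of `(b, c, d)` with `D = 0` is at most `3 q⁴`.  PROOF.  Put `A = b² - a c`,
`G = 2 b³ - 3 a b c + a² d`; then `G² + a² D = 4 A³` (ring identity), so `D = 0` gives `G² = 4 A³`.  The map
`(b, c, d) ↦ (b, (A, G))` is injective (`a` is a unit: `c` from `A`, then `d` from `G`), and there are `q²` values of `b` and at
most `3 q²` values of `(A, G)` (`locS`).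
-/

set_option autoImplicit false

namespace Pool.Agent.PPB

theorem locU (q : ℕ) (hq : q.Prime) (h2 : q ≠ 2) (a : ZMod (q ^ 2)) (ha : IsUnit a) :
    Nat.card {x : ZMod (q ^ 2) × ZMod (q ^ 2) × ZMod (q ^ 2) // dD a x.1 x.2.1 x.2.2 = 0} ≤ 3 * q ^ 4 := by
  have : NeZero (q ^ 2) := ⟨pow_ne_zero 2 hq.ne_zero⟩
  have hid : ∀ b c d : ZMod (q ^ 2),
      (2 * b ^ 3 - 3 * a * b * c + a ^ 2 * d) ^ 2 + a ^ 2 * dD a b c d = 4 * (b ^ 2 - a * c) ^ 3 := by
    intro b c d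
    unfold dD
    ring
  let f : {x : ZMod (q ^ 2) × ZMod (q ^ 2) × ZMod (q ^ 2) // dD a x.1 x.2.1 x.2.2 = 0} →
      ZMod (q ^ 2) × {x : ZMod (q ^ 2) × ZMod (q ^ 2) // x.2 ^ 2 = 4 * x.1 ^ 3} := fun x =>
    (x.1.1, ⟨(x.1.1 ^ 2 - a * x.1.2.1, 2 * x.1.1 ^ 3 - 3 * a * x.1.1 * x.1.2.1 + a ^ 2 * x.1.2.2), by
      have h := hid x.1.1 x.1.2.1 x.1.2.2
      rw [x.2, mul_zero, add_zero] at h
      exact h⟩)
  have hf : Function.Injective f := by
    rintro ⟨⟨b, c, d⟩, h⟩ ⟨⟨b', c', d'⟩, h'⟩ e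
    simp only [f, Prod.mk.injEq, Subtype.mk.injEq] at e
    obtain ⟨e1, e2, e3⟩ := e
    subst e1
    have hc : c = c' := by
      have e4 : a * c = a * c' := by linear_combination -e2
      exact ha.mul_left_cancel e4
    subst hc
    have hd : d = d' := by
      have e4 : a ^ 2 * d = a ^ 2 * d' := by linear_combination e3
      exact (ha.pow 2).mul_left_cancel e4
    subst hd
    rfl
  have h1 := Nat.card_le_card_of_injective f hf
  rw [Nat.card_prod, Nat.card_zmod] at h1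
  calc _ ≤ _ := h1
    _ ≤ q ^ 2 * (3 * q ^ 2) := Nat.mul_le_mul_left _ (locS q hq h2)
    _ = 3 * q ^ 4 := by ring

end Pool.Agent.PPB
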