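import Pool.Agent.PPB.DefsB
import Pool.Agent.PPB.LocU
import Pool.Agent.PPB.LocN

/-!
# PPB/Loc (size 2)

The number of `F` modulo `q²` with `q² ∣ D(F)`: at most `q² * 3 q⁴ + q * 2 q⁵ = 5 q⁶` (there are exactly `q` non-units in
`ZMod (q²)`; fibre over `a`; `locU`, `locN`).
-/

set_option autoImplicit false

namespace Pool.Agent.PPB

private theorem Loc_dvd (q : ℕ) (hq : q.Prime) (b : ZMod (q ^ 2)) (hb : ¬ IsUnit b) :
    q ∣ b.val := by
  have hne : NeZero (q ^ 2) := ⟨pow_ne_zero 2 hq.ne_zero⟩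
  by_contra h
  apply hb
  have h1 : Nat.Coprime b.val (q ^ 2) :=
    Nat.Coprime.pow_right 2 ((Nat.Prime.coprime_iff_not_dvd hq).2 h).symm
  have h3 := (ZMod.isUnit_iff_coprime b.val (q ^ 2)).2 h1
  rwa [ZMod.natCast_zmod_val] at h3

private theorem Loc_card (q : ℕ) (hq : q.Prime) :
    Nat.card {b : ZMod (q ^ 2) // ¬ IsUnit b} ≤ q := by
  have hne : NeZero (q ^ 2) := ⟨pow_ne_zero 2 hq.ne_zero⟩
  have hlt : ∀ b : ZMod (q ^ 2), b.val / q < q := by
    intro b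
    rw [Nat.div_lt_iff_lt_mul hq.pos, ← pow_two]
    exact ZMod.val_lt b
  have hinj : Function.Injective
      (fun b : {b : ZMod (q ^ 2) // ¬ IsUnit b} => (⟨b.1.val / q, hlt b.1⟩ : Fin q)) := by
    rintro ⟨b, hb⟩ ⟨c, hc⟩ h
    have h1 : b.val / q = c.val / q := by simpa using h
    have h3 := Nat.div_mul_cancel (Loc_dvd q hq b hb)
    have h4 := Nat.div_mul_cancel (Loc_dvd q hq c hc)
    have h5 : b.val = c.val := by rw [← h3, ← h4, h1]
    exact Subtype.ext (ZMod.val_injective _ h5)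
  have := Nat.card_le_card_of_injective _ hinj
  simpa using this

theorem loc (q : ℕ) (hq : q.Prime) (h2 : q ≠ 2) :
    Nat.card {x : ZMod (q ^ 2) × ZMod (q ^ 2) × ZMod (q ^ 2) × ZMod (q ^ 2) //
      dD x.1 x.2.1 x.2.2.1 x.2.2.2 = 0} ≤ 5 * q ^ 6 := by
  have hne : NeZero (q ^ 2) := ⟨pow_ne_zero 2 hq.ne_zero⟩
  classical
  let f : {x : ZMod (q ^ 2) × ZMod (q ^ 2) × ZMod (q ^ 2) × ZMod (q ^ 2) //
      dD x.1 x.2.1 x.2.2.1 x.2.2.2 = 0} →
      (Σ a : ZMod (q ^ 2), {y : ZMod (q ^ 2) × ZMod (q ^ 2) × ZMod (q ^ 2) //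
        dD a y.1 y.2.1 y.2.2 = 0}) := fun x => ⟨x.1.1, ⟨x.1.2, x.2⟩⟩
  have hf : Function.Injective f := by
    rintro ⟨⟨a, y⟩, hx⟩ ⟨⟨a', y'⟩, hx'⟩ h
    simp only [f, Sigma.mk.injEq] at h
    obtain ⟨rfl, h⟩ := h
    have h1 := eq_of_heq h
    simp only [Subtype.mk.injEq] at h1
    subst h1
    rfl
  have h1 := Nat.card_le_card_of_injective f hf
  rw [Nat.card_sigma] at h1
  refine h1.trans ?_
  have h3 : ∀ a : ZMod (q ^ 2), Nat.card {y : ZMod (q ^ 2) × ZMod (q ^ 2) × ZMod (q ^ 2) //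
      dD a y.1 y.2.1 y.2.2 = 0} ≤ 3 * q ^ 4 + (if ¬ IsUnit a then 2 * q ^ 5 else 0) := by
    intro a
    by_cases ha : IsUnit a
    · have := locU q hq h2 a ha
      omega
    · rw [if_pos ha]
      have := locN q hq h2 a ha
      omega
  refine (Finset.sum_le_sum (fun a _ => h3 a)).trans ?_
  rw [Finset.sum_add_distrib, Finset.sum_const, ← Finset.sum_filter, Finset.sum_const]
  have h4 : (Finset.univ.filter (fun a : ZMod (q ^ 2) => ¬ IsUnit a)).card ≤ q := by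
    have h5 := Loc_card q hq
    rwa [Nat.card_eq_fintype_card, Fintype.card_subtype] at h5
  rw [Finset.card_univ, ZMod.card, smul_eq_mul, smul_eq_mul]
  calc q ^ 2 * (3 * q ^ 4) + (Finset.univ.filter (fun a : ZMod (q ^ 2) => ¬ IsUnit a)).card
        * (2 * q ^ 5)
      ≤ q ^ 2 * (3 * q ^ 4) + q * (2 * q ^ 5) :=
        Nat.add_le_add_left (Nat.mul_le_mul_right _ h4) _
    _ = 5 * q ^ 6 := by ring

end Pool.Agent.PPB
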