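import Pool.Agent.PPB.DefsB
import Pool.Agent.PPB.Api
import Pool.Agent.PPB.Cg
import Pool.Agent.PPB.Loc

/-!
# PPB/SmQ (size 4)

One middle prime `q > 320`.  PROOF.  `Mo = (320!)²` is coprime to `q²`.  Every `F` with the property lies in one of the at most
`5 q⁶` residue classes `x` modulo `q²` with `dD x = 0` (`loc`; cast `ℤ → ZMod (q ^ 2)`, `ZMod.intCast_zmod_eq_zero_iff_dvd` /
`ZMod.intCast_cast`), and for each such class the `F` lie in ONE residue class modulo `Mo * q²`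
(Chinese remainder theorem for the four coordinates, e.g. `Int` Bezout: `Mo * x + q² * y = 1`), so there are at most
`(2 η T / (Mo q²) + 1)⁴` of them (`cg4`).  Use `nb_sum` over the finite set of classes.
-/

set_option autoImplicit false

namespace Pool.Agent.PPB

private theorem smQ_cop (q : ℕ) (hq : q.Prime) (h : 320 < q) : Nat.Coprime Mo (q ^ 2) := by
  unfold Mo
  apply Nat.Coprime.pow
  apply Nat.Coprime.symm
  rw [Nat.Prime.coprime_iff_not_dvd hq, Nat.Prime.dvd_factorial hq]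
  omega

theorem smQ (a0 b0 c0 d0 η T : ℝ) (hT : 0 ≤ η * T) (q : ℕ) (hq : q.Prime) (h : 320 < q) :
    nb (box a0 b0 c0 d0 η T) (fun a b c d => fs Mo a b c d ∧ (q : ℤ) ^ 2 ∣ dD a b c d) ≤
      5 * (q : ℝ) ^ 6 * (2 * η * T / (Mo * (q : ℝ) ^ 2) + 1) ^ 4 := by
  classical
  have hq0 : 0 < q := hq.pos
  have hN0 : 0 < q ^ 2 := pow_pos hq0 2
  have hMo0 : 0 < Mo := by
    unfold Mo
    exact pow_pos (Nat.factorial_pos 320) 2
  have hNe : NeZero (q ^ 2) := ⟨hN0.ne'⟩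
  have hcop := smQ_cop q hq h
  have hcop' : IsCoprime (Mo : ℤ) ((q ^ 2 : ℕ) : ℤ) := Nat.isCoprime_iff_coprime.2 hcop
  obtain ⟨u, v, huv⟩ := hcop'
  have hcr : ∀ f x a : ℤ, (Mo : ℤ) ∣ a - f → ((q ^ 2 : ℕ) : ℤ) ∣ a - x →
      ((Mo * q ^ 2 : ℕ) : ℤ) ∣ a - (f * (v * ((q ^ 2 : ℕ) : ℤ)) + x * (u * (Mo : ℤ))) := by
    intro f x a h1 h2
    obtain ⟨k, hk⟩ := h1
    obtain ⟨l, hl⟩ := h2
    refine ⟨k * v + l * u, ?_⟩
    rw [Nat.cast_mul]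
    have e : a - (f * (v * ((q ^ 2 : ℕ) : ℤ)) + x * (u * (Mo : ℤ)))
        = a - a * (u * (Mo : ℤ) + v * ((q ^ 2 : ℕ) : ℤ))
          + (a - f) * (v * ((q ^ 2 : ℕ) : ℤ)) + (a - x) * (u * (Mo : ℤ)) := by ring
    rw [e, huv, hk, hl]
    ring
  have hval : ∀ a : ℤ, ((q ^ 2 : ℕ) : ℤ) ∣ a - (((a : ZMod (q ^ 2)).val : ℕ) : ℤ) := by
    intro a
    rw [← ZMod.intCast_eq_intCast_iff_dvd_sub]
    simp
  set I : Finset (ZMod (q ^ 2) × ZMod (q ^ 2) × ZMod (q ^ 2) × ZMod (q ^ 2)) :=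
    Finset.univ.filter (fun x => dD x.1 x.2.1 x.2.2.1 x.2.2.2 = 0) with hI
  have hIcard : I.card ≤ 5 * q ^ 6 := by
    have := loc q hq (by omega)
    rwa [Nat.card_eq_fintype_card, Fintype.card_subtype] at this
  set CR : ℤ → ZMod (q ^ 2) → ℤ := fun f x =>
    f * (v * ((q ^ 2 : ℕ) : ℤ)) + (x.val : ℤ) * (u * (Mo : ℤ)) with hCR
  have h1 := nb_sum I (box a0 b0 c0 d0 η T)
    (fun a b c d => fs Mo a b c d ∧ (q : ℤ) ^ 2 ∣ dD a b c d)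
    (fun x a b c d => ((Mo * q ^ 2 : ℕ) : ℤ) ∣ a - CR 1 x.1 ∧
      ((Mo * q ^ 2 : ℕ) : ℤ) ∣ b - CR 1 x.2.1 ∧ ((Mo * q ^ 2 : ℕ) : ℤ) ∣ c - CR (-1) x.2.2.1 ∧
      ((Mo * q ^ 2 : ℕ) : ℤ) ∣ d - CR (-2) x.2.2.2)
    (by
      rintro ⟨a, b, c, d⟩ _ ⟨⟨ha, hb, hc, hd⟩, hdvd⟩
      refine ⟨((a : ZMod (q ^ 2)), (b : ZMod (q ^ 2)), (c : ZMod (q ^ 2)), (d : ZMod (q ^ 2))),
        ?_, ?_, ?_, ?_, ?_⟩
      · rw [hI, Finset.mem_filter]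
        refine ⟨Finset.mem_univ _, ?_⟩
        have e : dD (a : ZMod (q ^ 2)) (b : ZMod (q ^ 2)) (c : ZMod (q ^ 2)) (d : ZMod (q ^ 2))
            = ((dD a b c d : ℤ) : ZMod (q ^ 2)) := by
          unfold dD
          push_cast
          ring
        show dD (a : ZMod (q ^ 2)) (b : ZMod (q ^ 2)) (c : ZMod (q ^ 2)) (d : ZMod (q ^ 2)) = 0
        rw [e, ZMod.intCast_zmod_eq_zero_iff_dvd]
        rw [Nat.cast_pow]
        exact hdvd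
      · exact hcr 1 _ a ha (hval a)
      · exact hcr 1 _ b hb (hval b)
      · exact hcr (-1) _ c (by rw [sub_neg_eq_add]; exact hc) (hval c)
      · exact hcr (-2) _ d (by rw [sub_neg_eq_add]; exact hd) (hval d))
  refine h1.trans ?_
  have h2 : ∀ x ∈ I, nb (box a0 b0 c0 d0 η T) (fun a b c d =>
      ((Mo * q ^ 2 : ℕ) : ℤ) ∣ a - CR 1 x.1 ∧
      ((Mo * q ^ 2 : ℕ) : ℤ) ∣ b - CR 1 x.2.1 ∧ ((Mo * q ^ 2 : ℕ) : ℤ) ∣ c - CR (-1) x.2.2.1 ∧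
      ((Mo * q ^ 2 : ℕ) : ℤ) ∣ d - CR (-2) x.2.2.2) ≤
      (2 * η * T / (Mo * (q : ℝ) ^ 2) + 1) ^ 4 := by
    intro x _
    have h3 := (cg4 a0 b0 c0 d0 η T hT (Mo * q ^ 2) (Nat.mul_pos hMo0 hN0) (CR 1 x.1)
      (CR 1 x.2.1) (CR (-1) x.2.2.1) (CR (-2) x.2.2.2)).1
    have e : ((Mo * q ^ 2 : ℕ) : ℝ) = (Mo : ℝ) * (q : ℝ) ^ 2 := by push_cast; ring
    rw [e] at h3
    exact h3
  refine (Finset.sum_le_sum h2).trans ?_
  rw [Finset.sum_const, nsmul_eq_mul]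
  have h4 : (0 : ℝ) ≤ (2 * η * T / (Mo * (q : ℝ) ^ 2) + 1) ^ 4 := by
    have : (0 : ℝ) ≤ 2 * η * T / (Mo * (q : ℝ) ^ 2) + 1 := by
      have h5 : (0 : ℝ) ≤ 2 * η * T := by linarith
      exact add_nonneg (div_nonneg h5 (mul_nonneg (Nat.cast_nonneg _)
        (pow_nonneg (Nat.cast_nonneg _) 2))) zero_le_one
    exact pow_nonneg this 4
  have h6 : (I.card : ℝ) ≤ 5 * (q : ℝ) ^ 6 := by exact_mod_cast hIcard
  exact mul_le_mul_of_nonneg_right h6 h4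

end Pool.Agent.PPB
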