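import Pool.Agent.PPB.DefsB
import Pool.Agent.PPB.Api
import Pool.Agent.PPB.Cg
import Pool.Agent.PPB.SmQ
import Pool.Agent.PPB.FsD

/-!
# PPB/SmS (size 4)

Small and middle primes together.  PROOF.  Let `L = 2 η T`, `x = L / Mo`.  By `cg4` (`F* = (1, 1, -1, -2)`; `fs Mo` is the
congruence) the number of `F` in the box with `fs Mo F` is at least `(x - 1)⁴ ≥ x⁴ / 2` if `x ≥ 7`.  If `F` is counted there but
not in the claim, then `q² ∣ D(F)` for a prime `q` with `q³ ≤ T`, and `q > 320` by `fsD`.  For `q³ ≤ T` and `T` large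
(`Mo ≤ 2 η T ^ (1/3)`, so `Mo q² ≤ L`) `smQ` gives at most `5 q⁶ (2 L / (Mo q²))⁴ = 80 x⁴ / q²`, and
`∑_{q > 320} 1 / q² ≤ 1 / 320` (telescoping `1 / q² ≤ 1 / (q - 1) - 1 / q`).  So the number is `≥ x⁴ / 2 - x⁴ / 4`
(`nb_add`, `nb_sum` over the primes in `Finset.Icc 321 ⌊T⌋₊`, say).
-/

set_option autoImplicit false

namespace Pool.Agent.PPB

private lemma SmS_pos : 0 < Mo := by
  unfold Mo
  exact pow_pos (Nat.factorial_pos 320) 2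

private lemma SmS_tel (n : ℕ) (hn : 320 ≤ n) :
    ∑ q ∈ Finset.Icc 321 n, (1 : ℝ) / (q : ℝ) ^ 2 ≤ 1 / 320 - 1 / n := by
  induction n, hn using Nat.le_induction with
  | base => simp
  | succ n hn ih =>
    rw [Finset.sum_Icc_succ_top (by omega)]
    have hn0 : (0 : ℝ) < n := by exact_mod_cast (by omega : 0 < n)
    have h1 : (1 : ℝ) / ((n + 1 : ℕ) : ℝ) ^ 2 ≤ 1 / n - 1 / ((n + 1 : ℕ) : ℝ) := by
      push_cast
      rw [div_sub_div _ _ hn0.ne' (by positivity), div_le_div_iff₀ (by positivity) (by positivity)]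
      nlinarith
    linarith

theorem smS (a0 b0 c0 d0 η : ℝ) (hη : 0 < η) : ∃ T0 : ℝ, 1 ≤ T0 ∧ ∀ T : ℝ, T0 ≤ T →
    (1 / 4) * (2 * η * T / Mo) ^ 4 ≤
      nb (box a0 b0 c0 d0 η T) (fun a b c d => fs Mo a b c d ∧
        ∀ q : ℕ, q.Prime → (q : ℝ) ^ 3 ≤ T → ¬ ((q : ℤ) ^ 2 ∣ dD a b c d)) := by
  have hM : (0 : ℝ) < (Mo : ℝ) := by exact_mod_cast SmS_pos
  obtain ⟨T0, hT0⟩ : ∃ x : ℝ, x = 320 + (Mo : ℝ) ^ 3 / (8 * η ^ 3) + 7 * (Mo : ℝ) / (2 * η) := ⟨_, rfl⟩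
  have p1 : 0 ≤ (Mo : ℝ) ^ 3 / (8 * η ^ 3) := by positivity
  have p2 : 0 ≤ 7 * (Mo : ℝ) / (2 * η) := by positivity
  refine ⟨T0, by linarith, ?_⟩
  intro T hT
  have hT320 : 320 ≤ T := by linarith
  have hTpos : 0 < T := by linarith
  have hT3 : (Mo : ℝ) ^ 3 ≤ 8 * η ^ 3 * T := by
    have h1 : (Mo : ℝ) ^ 3 / (8 * η ^ 3) ≤ T := by linarith
    rw [div_le_iff₀ (by positivity)] at h1
    linarith
  have hT7 : 7 * (Mo : ℝ) ≤ 2 * η * T := by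
    have h1 : 7 * (Mo : ℝ) / (2 * η) ≤ T := by linarith
    rw [div_le_iff₀ (by positivity)] at h1
    linarith
  have hML : (Mo : ℝ) ≤ 2 * η * T := by linarith
  have hηT : 0 ≤ η * T := by positivity
  obtain ⟨x, hx⟩ : ∃ x : ℝ, x = 2 * η * T / Mo := ⟨_, rfl⟩
  have hx7 : 7 ≤ x := by
    rw [hx, le_div_iff₀ hM]
    exact hT7
  have hcg := (cg4 a0 b0 c0 d0 η T hηT Mo SmS_pos 1 1 (-1) (-2)).2 hML
  have e1 : nb (box a0 b0 c0 d0 η T) (fun a b c d => (Mo : ℤ) ∣ a - 1 ∧ (Mo : ℤ) ∣ b - 1 ∧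
      (Mo : ℤ) ∣ c - (-1) ∧ (Mo : ℤ) ∣ d - (-2)) ≤ nb (box a0 b0 c0 d0 η T) (fs Mo) := by
    apply nb_mono
    intro F _ hF
    simp only [sub_neg_eq_add] at hF
    exact hF
  rw [← hx] at hcg
  -- the bad forms
  obtain ⟨I, hI⟩ : ∃ I : Finset ℕ, I = (Finset.Icc 321 ⌊T⌋₊).filter
    (fun q : ℕ => q.Prime ∧ (q : ℝ) ^ 3 ≤ T) := ⟨_, rfl⟩
  have h2 : nb (box a0 b0 c0 d0 η T) (fs Mo) ≤
      nb (box a0 b0 c0 d0 η T) (fun a b c d => fs Mo a b c d ∧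
        ∀ q : ℕ, q.Prime → (q : ℝ) ^ 3 ≤ T → ¬ ((q : ℤ) ^ 2 ∣ dD a b c d)) +
      nb (box a0 b0 c0 d0 η T) (fun a b c d => fs Mo a b c d ∧
        ∃ q : ℕ, q.Prime ∧ (q : ℝ) ^ 3 ≤ T ∧ ((q : ℤ) ^ 2 ∣ dD a b c d)) := by
    apply nb_add
    intro F _ hF
    by_cases h : ∀ q : ℕ, q.Prime → (q : ℝ) ^ 3 ≤ T →
        ¬ ((q : ℤ) ^ 2 ∣ dD F.1 F.2.1 F.2.2.1 F.2.2.2)
    · exact Or.inl ⟨hF, h⟩
    · push Not at h
      exact Or.inr ⟨hF, h⟩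
  have h3 : nb (box a0 b0 c0 d0 η T) (fun a b c d => fs Mo a b c d ∧
        ∃ q : ℕ, q.Prime ∧ (q : ℝ) ^ 3 ≤ T ∧ ((q : ℤ) ^ 2 ∣ dD a b c d)) ≤
      ∑ q ∈ I, nb (box a0 b0 c0 d0 η T)
        (fun a b c d => fs Mo a b c d ∧ (q : ℤ) ^ 2 ∣ dD a b c d) := by
    apply nb_sum
    intro F _ hF
    obtain ⟨hfs, q, hq, hq3, hdvd⟩ := hF
    refine ⟨q, ?_, hfs, hdvd⟩
    rw [hI, Finset.mem_filter, Finset.mem_Icc]
    refine ⟨⟨?_, ?_⟩, hq, hq3⟩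
    · by_contra hcon
      exact (fsD _ _ _ _ hfs).2 q hq (by omega) hdvd
    · apply Nat.le_floor
      have hq1 : (1 : ℝ) ≤ q := by exact_mod_cast hq.one_lt.le
      calc (q : ℝ) = (q : ℝ) ^ 1 := (pow_one _).symm
        _ ≤ (q : ℝ) ^ 3 := pow_le_pow_right₀ hq1 (by norm_num)
        _ ≤ T := hq3
  have h4 : ∀ q ∈ I, nb (box a0 b0 c0 d0 η T)
        (fun a b c d => fs Mo a b c d ∧ (q : ℤ) ^ 2 ∣ dD a b c d) ≤
      80 * x ^ 4 * (1 / (q : ℝ) ^ 2) := by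
    intro q hqI
    rw [hI, Finset.mem_filter, Finset.mem_Icc] at hqI
    obtain ⟨⟨hq1, -⟩, hq, hq3⟩ := hqI
    refine (smQ a0 b0 c0 d0 η T hηT q hq (by omega)).trans ?_
    have hq0 : (0 : ℝ) < q := by exact_mod_cast hq.pos
    have hMq : (Mo : ℝ) * (q : ℝ) ^ 2 ≤ 2 * η * T := by
      have j1 : ((Mo : ℝ) * (q : ℝ) ^ 2) ^ 3 ≤ (2 * η * T) ^ 3 := by
        calc ((Mo : ℝ) * (q : ℝ) ^ 2) ^ 3 = (Mo : ℝ) ^ 3 * ((q : ℝ) ^ 3) ^ 2 := by ring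
          _ ≤ (8 * η ^ 3 * T) * T ^ 2 := by
              apply mul_le_mul hT3 _ (by positivity) (by positivity)
              exact pow_le_pow_left₀ (by positivity) hq3 2
          _ = (2 * η * T) ^ 3 := by ring
      exact le_of_pow_le_pow_left₀ (by norm_num) (by positivity) j1
    have hy : 2 * η * T / (Mo * (q : ℝ) ^ 2) = x / (q : ℝ) ^ 2 := by
      rw [hx, div_div]
    have hy1 : 1 ≤ x / (q : ℝ) ^ 2 := by
      rw [← hy, le_div_iff₀ (mul_pos hM (pow_pos hq0 2)), one_mul]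
      exact hMq
    rw [hy]
    calc 5 * (q : ℝ) ^ 6 * (x / (q : ℝ) ^ 2 + 1) ^ 4 ≤
        5 * (q : ℝ) ^ 6 * (2 * (x / (q : ℝ) ^ 2)) ^ 4 := by
          apply mul_le_mul_of_nonneg_left _ (by positivity)
          exact pow_le_pow_left₀ (by linarith) (by linarith) 4
      _ = 80 * x ^ 4 * (1 / (q : ℝ) ^ 2) := by
          field_simp
          ring
  have h5 : ∑ q ∈ I, nb (box a0 b0 c0 d0 η T)
        (fun a b c d => fs Mo a b c d ∧ (q : ℤ) ^ 2 ∣ dD a b c d) ≤ 80 * x ^ 4 * (1 / 320) := by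
    refine (Finset.sum_le_sum h4).trans ?_
    rw [← Finset.mul_sum]
    apply mul_le_mul_of_nonneg_left _ (by positivity)
    have hfl : 320 ≤ ⌊T⌋₊ := by
      apply Nat.le_floor
      push_cast
      exact hT320
    have hfl0 : (0 : ℝ) < (⌊T⌋₊ : ℝ) := by exact_mod_cast (by omega : 0 < ⌊T⌋₊)
    calc ∑ q ∈ I, (1 : ℝ) / (q : ℝ) ^ 2 ≤ ∑ q ∈ Finset.Icc 321 ⌊T⌋₊, (1 : ℝ) / (q : ℝ) ^ 2 := by
          apply Finset.sum_le_sum_of_subset_of_nonneg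
          · rw [hI]; exact Finset.filter_subset _ _
          · intro q _ _
            exact div_nonneg zero_le_one (pow_nonneg (Nat.cast_nonneg q) 2)
      _ ≤ 1 / 320 - 1 / (⌊T⌋₊ : ℝ) := SmS_tel _ hfl
      _ ≤ 1 / 320 := by
          have : 0 < 1 / (⌊T⌋₊ : ℝ) := by positivity
          linarith
  have h6 : x ^ 4 / 2 ≤ (x - 1) ^ 4 := by
    have j1 : 6 / 7 * x ≤ x - 1 := by linarith
    have j2 : (6 / 7 * x) ^ 4 ≤ (x - 1) ^ 4 := pow_le_pow_left₀ (by linarith) j1 4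
    have j3 : (6 / 7 * x) ^ 4 = 1296 / 2401 * x ^ 4 := by ring
    have j4 : 0 ≤ x ^ 4 := by positivity
    linarith
  rw [← hx]
  linarith

end Pool.Agent.PPB
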