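import Pool.Agent.PPB.DefsB
import Pool.Agent.PPB.Api

set_option autoImplicit false

namespace Pool.Agent.PPB

private theorem ga_len (w η T : ℝ) (hη : η ≤ 1) (hT : 1 ≤ T) :
    ((Finset.Icc ⌈T * w - η * T⌉ ⌊T * w + η * T⌋).card : ℝ) ≤ 3 * T := by
  rw [Int.card_Icc]
  have h1 := Int.le_ceil (T * w - η * T)
  have h2 := Int.floor_le (T * w + η * T)
  have h3 : (((⌊T * w + η * T⌋ + 1 - ⌈T * w - η * T⌉).toNat : ℤ) : ℝ) ≤ 3 * T := by
    rcases le_total 0 (⌊T * w + η * T⌋ + 1 - ⌈T * w - η * T⌉) with h | h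
    · rw [Int.toNat_of_nonneg h]
      push_cast
      nlinarith
    · rw [Int.toNat_of_nonpos h]
      push_cast
      linarith
  exact_mod_cast h3

private theorem ga_sym (K T : ℝ) (q : ℕ) (hq : 0 < q) (h : (q : ℝ) ≤ K * T) :
    ((Finset.Icc (-⌊K * T / q⌋) ⌊K * T / q⌋).card : ℝ) ≤ 3 * (K * T) / q := by
  have hq0 : (0 : ℝ) < q := by exact_mod_cast hq
  have h1 : (1 : ℝ) ≤ K * T / q := by rw [le_div_iff₀ hq0]; linarith
  have h2 := Int.floor_le (K * T / q)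
  have h3 : (1 : ℤ) ≤ ⌊K * T / q⌋ := Int.le_floor.mpr (by exact_mod_cast h1)
  rw [Int.card_Icc]
  have h4 : (((⌊K * T / q⌋ + 1 - -⌊K * T / q⌋).toNat : ℤ) : ℝ) ≤ 3 * (K * T) / q := by
    rw [Int.toNat_of_nonneg (by omega)]
    push_cast
    have h5 : 3 * (K * T) / q = 3 * (K * T / q) := by ring
    rw [h5]
    linarith
  exact_mod_cast h4

private theorem ga_div (K T : ℝ) (q : ℕ) (hq : 0 < q) (n : ℤ) (hn : |(n : ℝ)| ≤ K * T) (hd : (q : ℤ) ∣ n) :
    n / q ∈ Finset.Icc (-⌊K * T / q⌋) ⌊K * T / q⌋ := by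
  obtain ⟨m, rfl⟩ := hd
  have hq0 : (0 : ℝ) < q := by exact_mod_cast hq
  have hqz : (q : ℤ) ≠ 0 := by positivity
  rw [Int.mul_ediv_cancel_left _ hqz]
  push_cast at hn
  rw [abs_mul, abs_of_pos hq0] at hn
  have h1 : |(m : ℝ)| ≤ K * T / q := by rw [le_div_iff₀ hq0]; linarith
  rw [abs_le] at h1
  rw [Finset.mem_Icc]
  constructor
  · have : -m ≤ ⌊K * T / q⌋ := Int.le_floor.mpr (by push_cast; linarith)
    linarith
  · exact Int.le_floor.mpr h1.2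

theorem gaA (a0 b0 c0 d0 η k K : ℝ) (hG : Good a0 b0 c0 d0 η k K) (T : ℝ) (hT : 1 ≤ T) (q : ℕ) (hq : 0 < q) :
    nb (box a0 b0 c0 d0 η T) (fun a b c _ => (q : ℤ) ∣ a ∧ (q : ℤ) ∣ b ∧ (q : ℤ) ∣ c) ≤
      81 * K ^ 3 * T ^ 4 / (q : ℝ) ^ 2 := by
  obtain ⟨hη, hη1, hk, hk1, hK, hb⟩ := hG
  have hq0 : (0 : ℝ) < q := by exact_mod_cast hq
  have hq1 : (1 : ℝ) ≤ q := by exact_mod_cast hq
  by_cases hqK : (q : ℝ) ≤ K * T
  · have h1 := nb_inj (box a0 b0 c0 d0 η T) (fun a b c _ => (q : ℤ) ∣ a ∧ (q : ℤ) ∣ b ∧ (q : ℤ) ∣ c)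
      (Finset.Icc (-⌊K * T / q⌋) ⌊K * T / q⌋ ×ˢ Finset.Icc (-⌊K * T / q⌋) ⌊K * T / q⌋ ×ˢ
        Finset.Icc (-⌊K * T / q⌋) ⌊K * T / q⌋ ×ˢ Finset.Icc ⌈T * d0 - η * T⌉ ⌊T * d0 + η * T⌋)
      (fun F => (F.1 / q, F.2.1 / q, F.2.2.1 / q, F.2.2.2))
      (by
        rintro ⟨a, b, c, d⟩ hF ⟨h1, h2, h3⟩
        have hB := hb T hT _ hF
        simp only [Finset.mem_product]
        refine ⟨ga_div K T q hq a hB.1 h1, ga_div K T q hq b hB.2.1 h2, ga_div K T q hq c hB.2.2.1 h3, ?_⟩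
        simp only [box, Finset.mem_product] at hF
        exact hF.2.2.2)
      (by
        rintro ⟨a, b, c, d⟩ hF ⟨a', b', c', d'⟩ hF' ⟨h1, h2, h3⟩ ⟨h1', h2', h3'⟩ he
        simp only [Prod.mk.injEq] at he
        obtain ⟨e1, e2, e3, e4⟩ := he
        simp only at h1 h2 h3 h1' h2' h3'
        have hqz : (q : ℤ) ≠ 0 := by positivity
        have f1 : a = a' := by
          rw [← Int.ediv_mul_cancel h1, ← Int.ediv_mul_cancel h1', e1]
        have f2 : b = b' := by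
          rw [← Int.ediv_mul_cancel h2, ← Int.ediv_mul_cancel h2', e2]
        have f3 : c = c' := by
          rw [← Int.ediv_mul_cancel h3, ← Int.ediv_mul_cancel h3', e3]
        rw [f1, f2, f3, e4])
    refine h1.trans ?_
    rw [Finset.card_product, Finset.card_product, Finset.card_product]
    push_cast
    have hs := ga_sym K T q hq hqK
    have hl := ga_len d0 η T hη1 hT
    have hs0 : (0 : ℝ) ≤ ((Finset.Icc (-⌊K * T / q⌋) ⌊K * T / q⌋).card : ℝ) := Nat.cast_nonneg _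
    have hl0 : (0 : ℝ) ≤ ((Finset.Icc ⌈T * d0 - η * T⌉ ⌊T * d0 + η * T⌋).card : ℝ) := Nat.cast_nonneg _
    have hKT : 0 ≤ 3 * (K * T) / q := by positivity
    calc _ ≤ (3 * (K * T) / q) * ((3 * (K * T) / q) * ((3 * (K * T) / q) * (3 * T))) := by
            gcongr
      _ = 81 * K ^ 3 * T ^ 4 / (q : ℝ) ^ 3 := by ring
      _ ≤ 81 * K ^ 3 * T ^ 4 / (q : ℝ) ^ 2 := by
            apply div_le_div_of_nonneg_left (by positivity) (by positivity)
            exact pow_le_pow_right₀ hq1 (by norm_num)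
  · have h0 : nb (box a0 b0 c0 d0 η T) (fun a b c _ => (q : ℤ) ∣ a ∧ (q : ℤ) ∣ b ∧ (q : ℤ) ∣ c) ≤ 0 := by
      have := nb_inj (box a0 b0 c0 d0 η T) (fun a b c _ => (q : ℤ) ∣ a ∧ (q : ℤ) ∣ b ∧ (q : ℤ) ∣ c)
        (∅ : Finset ℤ) (fun F => F.1)
        (by
          rintro ⟨a, b, c, d⟩ hF ⟨h1, h2, h3⟩
          exfalso
          have hB := hb T hT _ hF
          have ha1 : |(a : ℝ)| ≤ K * T := hB.1
          have ha2 : k * T ≤ |(a : ℝ)| := hB.2.2.2.2.1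
          have ha0 : a ≠ 0 := by
            rintro rfl
            simp at ha2
            nlinarith
          have h5 : (q : ℤ) ≤ |a| := Int.le_of_dvd (abs_pos.mpr ha0) ((dvd_abs _ _).mpr h1)
          have h6 : (q : ℝ) ≤ |(a : ℝ)| := by exact_mod_cast h5
          exact hqK (h6.trans ha1))
        (by
          rintro ⟨a, b, c, d⟩ hF ⟨a', b', c', d'⟩ hF' ⟨h1, h2, h3⟩
          exfalso
          have hB := hb T hT _ hF
          have ha1 : |(a : ℝ)| ≤ K * T := hB.1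
          have ha2 : k * T ≤ |(a : ℝ)| := hB.2.2.2.2.1
          have ha0 : a ≠ 0 := by
            rintro rfl
            simp at ha2
            nlinarith
          have h5 : (q : ℤ) ≤ |a| := Int.le_of_dvd (abs_pos.mpr ha0) ((dvd_abs _ _).mpr h1)
          have h6 : (q : ℝ) ≤ |(a : ℝ)| := by exact_mod_cast h5
          exact absurd (h6.trans ha1) hqK)
      simpa using this
    refine h0.trans ?_
    positivity

private theorem ga_qlen (w η T : ℝ) (hη : η ≤ 1) (hT : 1 ≤ T) (q : ℕ) (hq : 0 < q) (hqT : (q : ℝ) ≤ T) :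
    ((Finset.Icc (⌈T * w - η * T⌉ / (q : ℤ)) (⌊T * w + η * T⌋ / (q : ℤ))).card : ℝ) ≤ 4 * T / q := by
  rw [Int.card_Icc]
  have hq0 : (0 : ℝ) < q := by exact_mod_cast hq
  have hqz : (0 : ℤ) < q := by exact_mod_cast hq
  have h1 := Int.le_ceil (T * w - η * T)
  have h2 := Int.floor_le (T * w + η * T)
  set x := ⌈T * w - η * T⌉
  set y := ⌊T * w + η * T⌋
  have hTq : (1 : ℝ) ≤ T / q := by rw [le_div_iff₀ hq0]; linarith
  have h5 : 4 * T / q = 4 * (T / q) := by ring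
  have h3 : (((y / (q : ℤ) + 1 - x / (q : ℤ)).toNat : ℤ) : ℝ) ≤ 4 * T / q := by
    rcases le_total 0 (y / (q : ℤ) + 1 - x / (q : ℤ)) with h | h
    · rw [Int.toNat_of_nonneg h]
      push_cast
      have a1 : ((y / (q : ℤ) : ℤ) : ℝ) ≤ (y : ℝ) / q := by
        rw [le_div_iff₀ hq0]
        exact_mod_cast Int.ediv_mul_le y hqz.ne'
      have a2 : (x : ℝ) / q - 1 ≤ ((x / (q : ℤ) : ℤ) : ℝ) := by
        have := Int.lt_ediv_add_one_mul_self x hqz
        have h6 : (x : ℝ) < ((x / (q : ℤ) : ℤ) + 1 : ℝ) * q := by exact_mod_cast this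
        rw [sub_le_iff_le_add, div_le_iff₀ hq0]
        linarith
      have a3 : (y : ℝ) / q - (x : ℝ) / q ≤ 2 * (T / q) := by
        rw [← sub_div, ← mul_div_assoc]
        apply div_le_div_of_nonneg_right _ hq0.le
        nlinarith
      rw [h5]
      linarith
    · rw [Int.toNat_of_nonpos h]
      push_cast
      positivity
  exact_mod_cast h3

theorem gaB (a0 b0 c0 d0 η k K : ℝ) (hG : Good a0 b0 c0 d0 η k K) (T : ℝ) (hT : 1 ≤ T) (q : ℕ) (hq : q.Prime)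
    (hqT : (q : ℝ) ≤ T) :
    nb (box a0 b0 c0 d0 η T) (fun a b c d => (q : ℤ) ∣ hA a b c ∧ (q : ℤ) ∣ hB a b c d ∧ ¬ (q : ℤ) ∣ a) ≤
      144 * T ^ 4 / (q : ℝ) ^ 2 := by
  obtain ⟨hη, hη1, hk, hk1, hK, hb⟩ := hG
  have hqp : 0 < q := hq.pos
  have hq0 : (0 : ℝ) < q := by exact_mod_cast hqp
  have hqz : (0 : ℤ) < q := by exact_mod_cast hqp
  have hP : Prime (q : ℤ) := Nat.prime_iff_prime_int.mp hq
  have key : ∀ x y : ℤ, (q : ℤ) ∣ x - y → x / (q : ℤ) = y / (q : ℤ) → x = y := by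
    intro x y h1 h2
    have h3 : x % (q : ℤ) = y % (q : ℤ) := (Int.modEq_iff_dvd.mpr h1).symm
    rw [← Int.mul_ediv_add_emod x q, ← Int.mul_ediv_add_emod y q, h2, h3]
  have h1 := nb_inj (box a0 b0 c0 d0 η T)
      (fun a b c d => (q : ℤ) ∣ hA a b c ∧ (q : ℤ) ∣ hB a b c d ∧ ¬ (q : ℤ) ∣ a)
      (Finset.Icc ⌈T * a0 - η * T⌉ ⌊T * a0 + η * T⌋ ×ˢ Finset.Icc ⌈T * b0 - η * T⌉ ⌊T * b0 + η * T⌋ ×ˢ
        Finset.Icc (⌈T * c0 - η * T⌉ / (q : ℤ)) (⌊T * c0 + η * T⌋ / (q : ℤ)) ×ˢ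
        Finset.Icc (⌈T * d0 - η * T⌉ / (q : ℤ)) (⌊T * d0 + η * T⌋ / (q : ℤ)))
      (fun F => (F.1, F.2.1, F.2.2.1 / q, F.2.2.2 / q))
      (by
        rintro ⟨a, b, c, d⟩ hF ⟨h1, h2, h3⟩
        simp only [box, Finset.mem_product, Finset.mem_Icc] at hF ⊢
        obtain ⟨f1, f2, f3, f4⟩ := hF
        exact ⟨f1, f2, ⟨Int.ediv_le_ediv hqz f3.1, Int.ediv_le_ediv hqz f3.2⟩,
          ⟨Int.ediv_le_ediv hqz f4.1, Int.ediv_le_ediv hqz f4.2⟩⟩)
      (by
        rintro ⟨a, b, c, d⟩ hF ⟨a', b', c', d'⟩ hF' ⟨h1, h2, h3⟩ ⟨h1', h2', h3'⟩ he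
        simp only [Prod.mk.injEq] at he
        obtain ⟨e1, e2, e3, e4⟩ := he
        simp only at h1 h2 h3 h1' h2' h3'
        subst e1
        subst e2
        have g1 : (q : ℤ) ∣ a * (c - c') := by
          have := dvd_sub h1' h1
          have h7 : hA a b c' - hA a b c = a * (c - c') := by unfold hA; ring
          rwa [h7] at this
        have g2 : (q : ℤ) ∣ c - c' := (hP.dvd_or_dvd g1).resolve_left h3
        have g3 := key c c' g2 e3
        subst g3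
        have g4 : (q : ℤ) ∣ a * (d - d') := by
          have := dvd_sub h2' h2
          have h7 : hB a b c d' - hB a b c d = a * (d - d') := by unfold hB; ring
          rwa [h7] at this
        have g5 : (q : ℤ) ∣ d - d' := (hP.dvd_or_dvd g4).resolve_left h3
        have g6 := key d d' g5 e4
        rw [g6])
  refine h1.trans ?_
  rw [Finset.card_product, Finset.card_product, Finset.card_product]
  push_cast
  have l1 := ga_len a0 η T hη1 hT
  have l2 := ga_len b0 η T hη1 hT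
  have l3 := ga_qlen c0 η T hη1 hT q hqp hqT
  have l4 := ga_qlen d0 η T hη1 hT q hqp hqT
  have hT0 : 0 ≤ 3 * T := by linarith
  have hT1 : 0 ≤ 4 * T / q := by positivity
  calc _ ≤ (3 * T) * ((3 * T) * ((4 * T / q) * (4 * T / q))) := by gcongr
    _ = 144 * T ^ 4 / (q : ℝ) ^ 2 := by ring

end Pool.Agent.PPB
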