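import Pool.Agent.PPB.DefsB
import Pool.Agent.PPB.Api

/-!
# PPB/GaC (size 3)

The primes `q > T` with `q ∣ A`, `q ∣ B`, `q ∤ a`.  PROOF.  `0 < A ≤ K T²` on the box, so for given `(a, b, c)` there are at most
`log₂ (K T²)` primes `q ∣ A` (`2 ^ ω(A) ≤ A`, e.g. `Nat.card_primeFactors_le_log`-like or `Finset.prod_primeFactors_dvd`).  For given
`(a, b, c)` and `q > T`: `d` is determined modulo `q` (`q ∣ b c - a d`, `q ∤ a`) and lies in an interval of length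
`2 η T ≤ 2 T < 2 q`: at most 2 values.  There are at most `(3 T)³` triples `(a, b, c)`.  Total `≤ 27 T³ * 2 * log₂ (K T²)`.
(`nb_fib` over the triples `(a, b, c)`, then `nb_sum` over `(hA a b c).natAbs.primeFactors`.)
-/

set_option autoImplicit false

namespace Pool.Agent.PPB

private theorem gaC_nb0 (S : Finset (ℤ × ℤ × ℤ × ℤ)) (P : ℤ → ℤ → ℤ → ℤ → Prop)
    (h : ∀ F ∈ S, ¬ P F.1 F.2.1 F.2.2.1 F.2.2.2) : nb S P = 0 := by
  classical
  unfold nb
  rw [Nat.cast_eq_zero, Finset.card_eq_zero, Finset.eq_empty_iff_forall_notMem]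
  intro F hF
  rw [Finset.mem_filter] at hF
  exact h F hF.1 hF.2

private theorem gaC_icc (x T η : ℝ) (hη1 : η ≤ 1) (hT : 1 ≤ T) :
    ((Finset.Icc ⌈T * x - η * T⌉ ⌊T * x + η * T⌋).card : ℝ) ≤ 3 * T := by
  rw [Int.card_Icc]
  have h1 : ((⌊T * x + η * T⌋ + 1 - ⌈T * x - η * T⌉ : ℤ) : ℝ) ≤ 3 * T := by
    push_cast
    have h2 := Int.floor_le (T * x + η * T)
    have h3 := Int.le_ceil (T * x - η * T)
    nlinarith
  have h4 : ((⌊T * x + η * T⌋ + 1 - ⌈T * x - η * T⌉).toNat : ℝ)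
      = ((max (⌊T * x + η * T⌋ + 1 - ⌈T * x - η * T⌉) 0 : ℤ) : ℝ) := by
    rw [← Int.toNat_eq_max]
    rfl
  rw [h4]
  push_cast
  push_cast at h1
  exact max_le h1 (by linarith)

private theorem gaC_pf (n : ℕ) (hn : 0 < n) : (n.primeFactors.card : ℝ) ≤ Real.log n / Real.log 2 := by
  have h1 : 2 ^ n.primeFactors.card ≤ ∏ p ∈ n.primeFactors, p := by
    apply Finset.pow_card_le_prod
    intro p hp
    exact (Nat.prime_of_mem_primeFactors hp).two_le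
  have h2 : (∏ p ∈ n.primeFactors, p) ≤ n := Nat.le_of_dvd hn (Nat.prod_primeFactors_dvd n)
  have h3 : ((2 : ℝ) ^ n.primeFactors.card) ≤ n := by
    exact_mod_cast le_trans h1 h2
  have h4 := Real.log_le_log (by positivity) h3
  rw [Real.log_pow] at h4
  rw [le_div_iff₀ (Real.log_pos (by norm_num))]
  exact h4

theorem gaC (a0 b0 c0 d0 η k K : ℝ) (hG : Good a0 b0 c0 d0 η k K) : ∃ C : ℝ, 0 ≤ C ∧ ∀ T : ℝ, 1 ≤ T →
    nb (box a0 b0 c0 d0 η T) (fun a b c d => ∃ q : ℕ, q.Prime ∧ T < (q : ℝ) ∧ (q : ℤ) ∣ hA a b c ∧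
      (q : ℤ) ∣ hB a b c d ∧ ¬ (q : ℤ) ∣ a) ≤ C * T ^ 3 * (1 + Real.log T) := by
  classical
  obtain ⟨hη, hη1, hk, hk1, hK, hbox⟩ := hG
  have hlog2 : 0 < Real.log 2 := Real.log_pos (by norm_num)
  have hlogK : 0 ≤ Real.log K := Real.log_nonneg hK
  refine ⟨81 * ((Real.log K + 2) / Real.log 2), by positivity, fun T hT => ?_⟩
  have hT0 : 0 < T := by linarith
  have hlogT : 0 ≤ Real.log T := Real.log_nonneg hT
  set L : ℝ := (Real.log K + 2 * Real.log T) / Real.log 2 with hL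
  have hL0 : 0 ≤ L := by positivity
  set I : Finset (ℤ × ℤ × ℤ) := Finset.Icc ⌈T * a0 - η * T⌉ ⌊T * a0 + η * T⌋ ×ˢ
    Finset.Icc ⌈T * b0 - η * T⌉ ⌊T * b0 + η * T⌋ ×ˢ Finset.Icc ⌈T * c0 - η * T⌉ ⌊T * c0 + η * T⌋ with hI
  have hIc : (I.card : ℝ) ≤ 27 * T ^ 3 := by
    rw [hI, Finset.card_product, Finset.card_product]
    push_cast
    have h1 := gaC_icc a0 T η hη1 hT
    have h2 := gaC_icc b0 T η hη1 hT
    have h3 := gaC_icc c0 T η hη1 hT
    have h4 : ((Finset.Icc ⌈T * b0 - η * T⌉ ⌊T * b0 + η * T⌋).card : ℝ) *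
        ((Finset.Icc ⌈T * c0 - η * T⌉ ⌊T * c0 + η * T⌋).card : ℝ) ≤ (3 * T) * (3 * T) :=
      mul_le_mul h2 h3 (Nat.cast_nonneg _) (by positivity)
    calc ((Finset.Icc ⌈T * a0 - η * T⌉ ⌊T * a0 + η * T⌋).card : ℝ) *
        (((Finset.Icc ⌈T * b0 - η * T⌉ ⌊T * b0 + η * T⌋).card : ℝ) *
        ((Finset.Icc ⌈T * c0 - η * T⌉ ⌊T * c0 + η * T⌋).card : ℝ))
        ≤ (3 * T) * ((3 * T) * (3 * T)) := mul_le_mul h1 h4 (by positivity) (by positivity)
      _ = 27 * T ^ 3 := by ring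
  have hd : ∀ F ∈ box a0 b0 c0 d0 η T, (F.1, F.2.1, F.2.2.1) ∈ I ∧
      |(F.2.2.2 : ℝ) - T * d0| ≤ T := by
    intro F hF
    unfold box at hF
    simp only [Finset.mem_product, Finset.mem_Icc] at hF
    obtain ⟨h1, h2, h3, h4, h5⟩ := hF
    refine ⟨?_, ?_⟩
    · rw [hI]
      simp only [Finset.mem_product, Finset.mem_Icc]
      exact ⟨h1, h2, h3⟩
    · have h6 := Int.ceil_le.1 h4
      have h7 := Int.le_floor.1 h5
      rw [abs_le]
      constructor <;> nlinarith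
  have hfib := nb_fib (box a0 b0 c0 d0 η T) (fun a b c d => ∃ q : ℕ, q.Prime ∧ T < (q : ℝ) ∧
      (q : ℤ) ∣ hA a b c ∧ (q : ℤ) ∣ hB a b c d ∧ ¬ (q : ℤ) ∣ a) I
      (fun F => (F.1, F.2.1, F.2.2.1)) (L * 3) (fun F hF _ => (hd F hF).1) (by
    intro i hi
    by_cases hne : ∃ F ∈ box a0 b0 c0 d0 η T, (F.1, F.2.1, F.2.2.1) = i
    swap
    · have h0 : nb (box a0 b0 c0 d0 η T) (fun a b c d => (∃ q : ℕ, q.Prime ∧ T < (q : ℝ) ∧
          (q : ℤ) ∣ hA a b c ∧ (q : ℤ) ∣ hB a b c d ∧ ¬ (q : ℤ) ∣ a) ∧ (a, b, c) = i) = 0 := by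
        apply gaC_nb0
        intro F hF hcon
        exact hne ⟨F, hF, hcon.2⟩
      have h1 : (nb (box a0 b0 c0 d0 η T) (fun a b c d => (∃ q : ℕ, q.Prime ∧ T < (q : ℝ) ∧
          (q : ℤ) ∣ hA a b c ∧ (q : ℤ) ∣ hB a b c d ∧ ¬ (q : ℤ) ∣ a) ∧ (a, b, c) = i)) ≤ L * 3 := by
        rw [h0]; positivity
      exact h1
    obtain ⟨F0, hF0, hF0i⟩ := hne
    obtain ⟨-, -, -, -, -, hA1, hA2, -, -, -⟩ := hbox T hT F0 hF0
    have hApos : 0 < hA F0.1 F0.2.1 F0.2.2.1 := by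
      have : (0 : ℝ) < (hA F0.1 F0.2.1 F0.2.2.1 : ℤ) := lt_of_lt_of_le (by positivity) hA1
      exact_mod_cast this
    set A : ℕ := (hA F0.1 F0.2.1 F0.2.2.1).natAbs with hAdef
    have hAA : (A : ℤ) = hA F0.1 F0.2.1 F0.2.2.1 := by
      rw [hAdef]
      exact Int.natAbs_of_nonneg hApos.le
    have hA0 : 0 < A := by
      have : (0 : ℤ) < A := by rw [hAA]; exact hApos
      exact_mod_cast this
    have hAK : (A : ℝ) ≤ K * T ^ 2 := by
      have : (A : ℝ) = ((hA F0.1 F0.2.1 F0.2.2.1 : ℤ) : ℝ) := by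
        rw [← hAA]; norm_cast
      rw [this]
      exact hA2
    have hcardA : (A.primeFactors.card : ℝ) ≤ L := by
      have h1 := gaC_pf A hA0
      have h2 : Real.log A ≤ Real.log K + 2 * Real.log T := by
        have h3 := Real.log_le_log (by exact_mod_cast hA0) hAK
        rw [Real.log_mul (by positivity) (by positivity), Real.log_pow] at h3
        exact_mod_cast h3
      rw [hL]
      exact le_trans h1 (div_le_div_of_nonneg_right h2 hlog2.le)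
    have hsum := nb_sum A.primeFactors (box a0 b0 c0 d0 η T) (fun a b c d => (∃ q : ℕ, q.Prime ∧ T < (q : ℝ) ∧
          (q : ℤ) ∣ hA a b c ∧ (q : ℤ) ∣ hB a b c d ∧ ¬ (q : ℤ) ∣ a) ∧ (a, b, c) = i)
        (fun q a b c d => q.Prime ∧ T < (q : ℝ) ∧ (q : ℤ) ∣ hB a b c d ∧ ¬ (q : ℤ) ∣ a ∧ (a, b, c) = i) (by
      rintro F hF ⟨⟨q, hq, hTq, hqA, hqB, hqa⟩, hFi⟩
      refine ⟨q, ?_, hq, hTq, hqB, hqa, hFi⟩
      rw [Nat.mem_primeFactors]
      refine ⟨hq, ?_, hA0.ne'⟩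
      have h5 : (F.1, F.2.1, F.2.2.1) = (F0.1, F0.2.1, F0.2.2.1) := by
        rw [hFi, hF0i]
      simp only [Prod.mk.injEq] at h5
      rw [h5.1, h5.2.1, h5.2.2, ← hAA] at hqA
      exact_mod_cast hqA)
    have hthree : ∀ q ∈ A.primeFactors, nb (box a0 b0 c0 d0 η T) (fun a b c d => q.Prime ∧ T < (q : ℝ) ∧
        (q : ℤ) ∣ hB a b c d ∧ ¬ (q : ℤ) ∣ a ∧ (a, b, c) = i) ≤ 3 := by
      intro q _
      by_cases hne1 : ∃ F ∈ box a0 b0 c0 d0 η T, q.Prime ∧ T < (q : ℝ) ∧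
        (q : ℤ) ∣ hB F.1 F.2.1 F.2.2.1 F.2.2.2 ∧ ¬ (q : ℤ) ∣ F.1 ∧ (F.1, F.2.1, F.2.2.1) = i
      swap
      · have h0 : nb (box a0 b0 c0 d0 η T) (fun a b c d => q.Prime ∧ T < (q : ℝ) ∧
            (q : ℤ) ∣ hB a b c d ∧ ¬ (q : ℤ) ∣ a ∧ (a, b, c) = i) = 0 := by
          apply gaC_nb0
          intro F hF hcon
          exact hne1 ⟨F, hF, hcon⟩
        rw [h0]; norm_num
      obtain ⟨F1, hF1, hqp, hTq, hB1, ha1, hi1⟩ := hne1
      have hinj := nb_inj (box a0 b0 c0 d0 η T) (fun a b c d => q.Prime ∧ T < (q : ℝ) ∧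
        (q : ℤ) ∣ hB a b c d ∧ ¬ (q : ℤ) ∣ a ∧ (a, b, c) = i)
        ({F1.2.2.2 - q, F1.2.2.2, F1.2.2.2 + q} : Finset ℤ) (fun F => F.2.2.2) (by
        rintro F hF ⟨-, -, hB2, ha2, hi2⟩
        have h5 : (F.1, F.2.1, F.2.2.1) = (F1.1, F1.2.1, F1.2.2.1) := by
          rw [hi1, hi2]
        simp only [Prod.mk.injEq] at h5
        obtain ⟨e1, e2, e3⟩ := h5
        rw [e1, e2, e3] at hB2
        have h6 : (q : ℤ) ∣ F1.1 * (F.2.2.2 - F1.2.2.2) := by
          have h7 := dvd_sub hB1 hB2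
          have h8 : hB F1.1 F1.2.1 F1.2.2.1 F1.2.2.2 - hB F1.1 F1.2.1 F1.2.2.1 F.2.2.2
              = F1.1 * (F.2.2.2 - F1.2.2.2) := by
            unfold hB; ring
          rwa [h8] at h7
        have h9 : (q : ℤ) ∣ F.2.2.2 - F1.2.2.2 :=
          ((Nat.prime_iff_prime_int.1 hqp).dvd_or_dvd h6).resolve_left ha1
        obtain ⟨m, hm⟩ := h9
        have h10 := (hd F hF).2
        have h11 := (hd F1 hF1).2
        have hqpos : (0 : ℝ) < q := by linarith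
        have h12 : |((F.2.2.2 - F1.2.2.2 : ℤ) : ℝ)| < 2 * q := by
          push_cast
          rw [abs_le] at h10 h11
          rw [abs_lt]
          constructor <;> linarith [h10.1, h10.2, h11.1, h11.2]
        rw [hm] at h12
        push_cast at h12
        rw [abs_mul, abs_of_pos hqpos, mul_comm] at h12
        have h13 : |(m : ℝ)| < 2 := lt_of_mul_lt_mul_right h12 hqpos.le
        have h14 : |m| < 2 := by
          have : ((|m| : ℤ) : ℝ) < 2 := by push_cast; exact h13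
          exact_mod_cast this
        rw [abs_lt] at h14
        simp only [Finset.mem_insert, Finset.mem_singleton]
        have h15 : m = -1 ∨ m = 0 ∨ m = 1 := by omega
        rcases h15 with rfl | rfl | rfl
        · left; linarith
        · right; left; linarith
        · right; right; linarith) (by
        rintro F _ G _ ⟨-, -, -, -, hi2⟩ ⟨-, -, -, -, hi3⟩ hFG
        have h5 : (F.1, F.2.1, F.2.2.1) = (G.1, G.2.1, G.2.2.1) := by
          rw [hi2, hi3]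
        simp only [Prod.mk.injEq] at h5
        obtain ⟨e1, e2, e3⟩ := h5
        exact Prod.ext e1 (Prod.ext e2 (Prod.ext e3 hFG)))
      refine le_trans hinj ?_
      have h16 : ({F1.2.2.2 - q, F1.2.2.2, F1.2.2.2 + q} : Finset ℤ).card ≤ 3 := Finset.card_le_three
      exact_mod_cast h16
    have hfin : ∑ q ∈ A.primeFactors, nb (box a0 b0 c0 d0 η T) (fun a b c d => q.Prime ∧ T < (q : ℝ) ∧
        (q : ℤ) ∣ hB a b c d ∧ ¬ (q : ℤ) ∣ a ∧ (a, b, c) = i) ≤ L * 3 := by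
      refine le_trans (Finset.sum_le_card_nsmul _ _ 3 hthree) ?_
      rw [nsmul_eq_mul]
      exact mul_le_mul_of_nonneg_right hcardA (by norm_num)
    exact le_trans hsum hfin)
  refine le_trans hfib ?_
  have h1 : L ≤ (Real.log K + 2) / Real.log 2 * (1 + Real.log T) := by
    rw [hL, div_mul_eq_mul_div]
    apply div_le_div_of_nonneg_right _ hlog2.le
    nlinarith [mul_nonneg hlogK hlogT]
  calc (I.card : ℝ) * (L * 3) ≤ (27 * T ^ 3) * (((Real.log K + 2) / Real.log 2 * (1 + Real.log T)) * 3) := by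
        apply mul_le_mul hIc _ (by positivity) (by positivity)
        exact mul_le_mul_of_nonneg_right h1 (by norm_num)
    _ = 81 * ((Real.log K + 2) / Real.log 2) * T ^ 3 * (1 + Real.log T) := by ring

end Pool.Agent.PPB
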