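import Pool.Agent.PPB.DefsB
import Pool.Agent.PPB.RcI

/-!
# PPB/RcA (size 3)

Reduced forms with `a d ≠ 0`.  PROOF.  By `rcI` with `n = ⌊sqrt Y⌋₊`: `1 ≤ |a d| ≤ n` (as `(a d)² ≤ D ≤ Y`), `|b c| ≤ n`, `|b| ≤ n`,
`|c| ≤ n`.  The number of pairs `(x, y)` of non-zero integers with `|x y| ≤ n` is at most `4 ∑_{x ≤ n} n / x ≤ 4 n (1 + log n)`
(`harmonic_le_one_add_log`), the number of pairs with `x y = 0`, `|x|, |y| ≤ n` is at most `4 n + 1`.  So the number of forms is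
`≤ 4 n (1 + log n) * (4 n (1 + log n) + 4 n + 1) ≤ C Y ^ (1 + ε)` (`1 + log n ≤ C' Y ^ (ε/2)`: `Real.log_le_rpow_div`, ...).
-/

set_option autoImplicit false

namespace Pool.Agent.PPB

private noncomputable def Pn (n : ℕ) : Finset (ℕ × ℕ) :=
  (Finset.range (n + 1) ×ˢ Finset.range (n + 1)).filter (fun p => p.1 * p.2 ≤ n)

private theorem Pn_card (n : ℕ) : ((Pn n).card : ℝ) ≤ 2 * n + 1 + n * (1 + Real.log n) := by
  have h1 : (Pn n).card = ∑ i ∈ Finset.range (n + 1), ((Pn n).filter (fun p => p.1 = i)).card := by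
    refine Finset.card_eq_sum_card_fiberwise (f := Prod.fst) (t := Finset.range (n + 1)) ?_
    intro p hp
    rw [Finset.mem_coe, Pn, Finset.mem_filter, Finset.mem_product] at hp
    exact hp.1.1
  have hfib : ∀ i, ((Pn n).filter (fun p => p.1 = i)).card ≤
      ((Finset.range (n + 1)).filter (fun j => i * j ≤ n)).card := by
    intro i
    refine Finset.card_le_card_of_injOn Prod.snd ?_ ?_
    · intro p hp
      rw [Finset.mem_coe, Finset.mem_filter, Pn, Finset.mem_filter, Finset.mem_product] at hp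
      rw [Finset.mem_coe, Finset.mem_filter]
      obtain ⟨⟨⟨_, h2⟩, h3⟩, h4⟩ := hp
      exact ⟨h2, by rw [← h4]; exact h3⟩
    · intro p hp p' hp' h
      rw [Finset.mem_coe, Finset.mem_filter] at hp hp'
      exact Prod.ext (hp.2.trans hp'.2.symm) h
  have h0 : ((Finset.range (n + 1)).filter (fun j => 0 * j ≤ n)).card ≤ n + 1 := by
    calc _ ≤ (Finset.range (n + 1)).card := Finset.card_filter_le _ _
      _ = n + 1 := Finset.card_range _
  have hs : ∀ i, ((Finset.range (n + 1)).filter (fun j => (i + 1) * j ≤ n)).card ≤ n / (i + 1) + 1 := by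
    intro i
    calc _ ≤ (Finset.range (n / (i + 1) + 1)).card := by
          refine Finset.card_le_card ?_
          intro j hj
          rw [Finset.mem_filter] at hj
          rw [Finset.mem_range, Nat.lt_succ_iff, Nat.le_div_iff_mul_le (Nat.succ_pos i), mul_comm]
          exact hj.2
      _ = _ := Finset.card_range _
  have h2 : (Pn n).card ≤ (∑ i ∈ Finset.range n, (n / (i + 1) + 1)) + (n + 1) := by
    rw [h1, Finset.sum_range_succ']
    refine add_le_add (Finset.sum_le_sum ?_) ((hfib 0).trans h0)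
    intro i _
    exact (hfib (i + 1)).trans (hs i)
  have h3 : (((∑ i ∈ Finset.range n, (n / (i + 1) + 1)) + (n + 1) : ℕ) : ℝ) ≤
      2 * n + 1 + n * (1 + Real.log n) := by
    have h4 := harmonic_le_one_add_log n
    have h5 : ((∑ i ∈ Finset.range n, (n / (i + 1) + 1) : ℕ) : ℝ) ≤ n * (harmonic n : ℝ) + n := by
      rw [harmonic]
      push_cast
      rw [Finset.mul_sum, Finset.sum_add_distrib]
      simp only [Finset.sum_const, Finset.card_range, nsmul_eq_mul, mul_one]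
      refine add_le_add (Finset.sum_le_sum ?_) le_rfl
      intro i _
      have := @Nat.cast_div_le ℝ _ _ _ n (i + 1)
      rw [← div_eq_mul_inv]
      calc (((n / (i + 1) : ℕ)) : ℝ) ≤ (n : ℝ) / ((i + 1 : ℕ) : ℝ) := this
        _ = (n : ℝ) / ((i : ℝ) + 1) := by push_cast; rfl
    have h6 : (n : ℝ) * (harmonic n : ℝ) ≤ n * (1 + Real.log n) :=
      mul_le_mul_of_nonneg_left h4 (Nat.cast_nonneg n)
    rw [Nat.cast_add, Nat.cast_add, Nat.cast_one]
    linarith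
  exact le_trans (by exact_mod_cast h2) h3

private noncomputable def Zn (n : ℕ) : Finset (ℤ × ℤ) :=
  (Finset.Icc (-(n : ℤ)) n ×ˢ Finset.Icc (-(n : ℤ)) n).filter (fun p => (p.1 * p.2).natAbs ≤ n)

private theorem mem_Zn (n : ℕ) (x y : ℤ) : (x, y) ∈ Zn n ↔ x.natAbs ≤ n ∧ y.natAbs ≤ n ∧ (x * y).natAbs ≤ n := by
  rw [Zn, Finset.mem_filter, Finset.mem_product, Finset.mem_Icc, Finset.mem_Icc]
  constructor
  · rintro ⟨⟨h1, h2⟩, h3⟩
    refine ⟨by simp only at h1; omega, by simp only at h2; omega, h3⟩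
  · rintro ⟨h1, h2, h3⟩
    refine ⟨⟨by simp only; omega, by simp only; omega⟩, h3⟩

private theorem Zn_card (n : ℕ) : (Zn n).card ≤ 4 * (Pn n).card := by
  classical
  refine Finset.card_le_mul_card_image_of_maps_to (f := fun p : ℤ × ℤ => (p.1.natAbs, p.2.natAbs)) ?_ 4 ?_
  · rintro ⟨x, y⟩ hp
    rw [mem_Zn] at hp
    rw [Pn, Finset.mem_filter, Finset.mem_product, Finset.mem_range, Finset.mem_range]
    rw [Int.natAbs_mul] at hp
    simp only
    exact ⟨⟨by omega, by omega⟩, hp.2.2⟩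
  · rintro ⟨i, j⟩ _
    calc _ ≤ ((({(i : ℤ), -(i : ℤ)} : Finset ℤ) ×ˢ ({(j : ℤ), -(j : ℤ)} : Finset ℤ))).card := by
          refine Finset.card_le_card ?_
          rintro ⟨x, y⟩ hp
          rw [Finset.mem_filter] at hp
          have h := hp.2
          simp only [Prod.mk.injEq] at h
          simp only [Finset.mem_product, Finset.mem_insert, Finset.mem_singleton]
          omega
      _ ≤ 2 * 2 := by
          rw [Finset.card_product]
          exact Nat.mul_le_mul Finset.card_le_two Finset.card_le_two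
      _ = 4 := rfl

theorem rcA (ε : ℝ) (hε : 0 < ε) : ∃ C : ℝ, 0 ≤ C ∧ ∀ Y : ℝ, 1 ≤ Y →
    ((redS Y ∩ {F | F.1 ≠ 0 ∧ F.2.2.2 ≠ 0}).ncard : ℝ) ≤ C * Y ^ (1 + ε) := by
  classical
  refine ⟨256 * (1 + 2 / ε) ^ 2, by positivity, ?_⟩
  intro Y hY
  set n := ⌊Real.sqrt Y⌋₊ with hn
  have hY0 : 0 ≤ Y := by linarith
  have hs1 : 1 ≤ Real.sqrt Y := by rw [Real.one_le_sqrt]; exact hY
  have hn1 : 1 ≤ n := by rw [hn]; exact Nat.le_floor (by simpa using hs1)
  have hnY : (n : ℝ) ≤ Real.sqrt Y := Nat.floor_le (Real.sqrt_nonneg Y)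
  have key : ∀ x D : ℤ, x ^ 2 ≤ D → ((D : ℤ) : ℝ) ≤ Y → x.natAbs ≤ n := by
    intro x D h1 h2
    rw [hn]
    refine Nat.le_floor ?_
    rw [Nat.cast_natAbs, Int.cast_abs]
    refine Real.le_sqrt_of_sq_le ?_
    rw [sq_abs]
    have : ((x : ℝ)) ^ 2 ≤ (D : ℝ) := by exact_mod_cast h1
    linarith
  have hsub : (redS Y ∩ {F | F.1 ≠ 0 ∧ F.2.2.2 ≠ 0}) ⊆
      (((Zn n ×ˢ Zn n).image (fun w : (ℤ × ℤ) × (ℤ × ℤ) => (w.1.1, w.2.1, w.2.2, w.1.2)) :
        Finset (ℤ × ℤ × ℤ × ℤ)) : Set (ℤ × ℤ × ℤ × ℤ)) := by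
    rintro ⟨a, b, c, d⟩ ⟨⟨hr, hD⟩, ha, hd⟩
    simp only at hr hD ha hd
    obtain ⟨-, -, -, -, -, -, h1, h2, -, h3, h4, -⟩ := rcI a b c d hr
    rw [Finset.mem_coe, Finset.mem_image]
    refine ⟨((a, d), (b, c)), ?_, rfl⟩
    rw [Finset.mem_product]
    have e1 := key _ _ h1 hD
    have e1' := e1
    rw [Int.natAbs_mul] at e1
    have ha' : 1 ≤ a.natAbs := Nat.one_le_iff_ne_zero.2 (Int.natAbs_ne_zero.2 ha)
    have hd' : 1 ≤ d.natAbs := Nat.one_le_iff_ne_zero.2 (Int.natAbs_ne_zero.2 hd)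
    constructor
    · rw [mem_Zn]
      refine ⟨le_trans (Nat.le_mul_of_pos_right _ hd') e1, le_trans (Nat.le_mul_of_pos_left _ ha') e1, e1'⟩
    · rw [mem_Zn]
      exact ⟨key _ _ h3 hD, key _ _ h4 hD, key _ _ h2 hD⟩
  have hc1 : (redS Y ∩ {F | F.1 ≠ 0 ∧ F.2.2.2 ≠ 0}).ncard ≤ (Zn n).card * (Zn n).card := by
    calc _ ≤ (((Zn n ×ˢ Zn n).image (fun w : (ℤ × ℤ) × (ℤ × ℤ) => (w.1.1, w.2.1, w.2.2, w.1.2)) :
        Finset (ℤ × ℤ × ℤ × ℤ)) : Set (ℤ × ℤ × ℤ × ℤ)).ncard := Set.ncard_le_ncard hsub (Finset.finite_toSet _)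
      _ = ((Zn n ×ˢ Zn n).image (fun w : (ℤ × ℤ) × (ℤ × ℤ) => (w.1.1, w.2.1, w.2.2, w.1.2))).card :=
          Set.ncard_coe_finset _
      _ ≤ (Zn n ×ˢ Zn n).card := Finset.card_image_le
      _ = _ := Finset.card_product _ _
  have hnR : (1 : ℝ) ≤ n := by exact_mod_cast hn1
  have hlog0 : 0 ≤ Real.log n := Real.log_nonneg hnR
  have hZ : ((Zn n).card : ℝ) ≤ 16 * (n * (1 + Real.log n)) := by
    have h1 : ((Zn n).card : ℝ) ≤ 4 * ((Pn n).card : ℝ) := by exact_mod_cast Zn_card n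
    have h2 := Pn_card n
    nlinarith [mul_nonneg (Nat.cast_nonneg (α := ℝ) n) hlog0]
  have hYe : 1 ≤ Y ^ (ε / 2) := Real.one_le_rpow hY (by positivity)
  have hL : 1 + Real.log n ≤ (1 + 2 / ε) * Y ^ (ε / 2) := by
    have h1 : Real.log n ≤ Real.log Y := by
      refine Real.log_le_log (by linarith) ?_
      have : Real.sqrt Y ≤ Y := by
        rw [Real.sqrt_le_left hY0]
        nlinarith
      linarith
    have h2 : Real.log Y ≤ Y ^ (ε / 2) / (ε / 2) := Real.log_le_rpow_div hY0 (by positivity)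
    have h3 : Y ^ (ε / 2) / (ε / 2) = 2 / ε * Y ^ (ε / 2) := by
      field_simp
    rw [h3] at h2
    nlinarith
  have hn2 : (n : ℝ) ^ 2 ≤ Y := by
    calc (n : ℝ) ^ 2 ≤ (Real.sqrt Y) ^ 2 := by gcongr
      _ = Y := Real.sq_sqrt hY0
  have hYY : Y ^ (1 + ε) = Y * (Y ^ (ε / 2)) ^ 2 := by
    rw [Real.rpow_add (by linarith), Real.rpow_one, ← Real.rpow_natCast, ← Real.rpow_mul hY0]
    congr 2
    push_cast
    ring
  calc ((redS Y ∩ {F | F.1 ≠ 0 ∧ F.2.2.2 ≠ 0}).ncard : ℝ) ≤ ((Zn n).card : ℝ) * ((Zn n).card : ℝ) := by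
        exact_mod_cast hc1
    _ ≤ (16 * (n * (1 + Real.log n))) * (16 * (n * (1 + Real.log n))) := by
        refine mul_le_mul hZ hZ (Nat.cast_nonneg _) ?_
        positivity
    _ = 256 * ((n : ℝ) ^ 2 * (1 + Real.log n) ^ 2) := by ring
    _ ≤ 256 * (Y * ((1 + 2 / ε) * Y ^ (ε / 2)) ^ 2) := by
        gcongr
    _ = 256 * (1 + 2 / ε) ^ 2 * Y ^ (1 + ε) := by rw [hYY]; ring

end Pool.Agent.PPB
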