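import Pool.Agent.PPB.DefsB
import Pool.Agent.PPB.RcI
import Pool.Agent.PPB.RcA
import Pool.Agent.PPB.RcB

/-!
# PPB/RcM (size 2)

Together.  For `Y < 1` the set is empty (`D ≥ 1`).  For `Y ≥ 1` add `rcA` and `rcB` (`Y ≤ Y ^ (1 + ε)`).
-/

set_option autoImplicit false

namespace Pool.Agent.PPB

theorem rcM (ε : ℝ) (hε : 0 < ε) : ∃ C : ℝ, 0 ≤ C ∧ ∀ Y : ℝ, 0 < Y →
    ((redS Y).ncard : ℝ) ≤ C * Y ^ (1 + ε) := by
  obtain ⟨C, hC, h⟩ := rcA ε hε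
  refine ⟨C + 100, by linarith, fun Y hY => ?_⟩
  by_cases h1 : 1 ≤ Y
  · have e1 : redS Y = (redS Y ∩ {F | F.1 ≠ 0 ∧ F.2.2.2 ≠ 0}) ∪
        (redS Y ∩ {F | F.1 = 0 ∨ F.2.2.2 = 0}) := by
      ext F
      simp only [Set.mem_union, Set.mem_inter_iff, Set.mem_setOf_eq]
      tauto
    have e2 : ((redS Y).ncard : ℝ) ≤ ((redS Y ∩ {F | F.1 ≠ 0 ∧ F.2.2.2 ≠ 0}).ncard : ℝ) +
        ((redS Y ∩ {F | F.1 = 0 ∨ F.2.2.2 = 0}).ncard : ℝ) := by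
      have e3 := Set.ncard_union_le (redS Y ∩ {F | F.1 ≠ 0 ∧ F.2.2.2 ≠ 0})
        (redS Y ∩ {F | F.1 = 0 ∨ F.2.2.2 = 0})
      rw [← e1] at e3
      exact_mod_cast e3
    have e4 := h Y h1
    have e5 := rcB Y h1
    have e6 : Y ≤ Y ^ (1 + ε) := by
      calc Y = Y ^ (1 : ℝ) := (Real.rpow_one Y).symm
        _ ≤ Y ^ (1 + ε) := Real.rpow_le_rpow_of_exponent_le h1 (by linarith)
    linarith
  · have e1 : redS Y = ∅ := by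
      rw [Set.eq_empty_iff_forall_notMem]
      rintro F ⟨⟨_, _, h2⟩, h3⟩
      have h4 : (1 : ℤ) ≤ dD F.1 F.2.1 F.2.2.1 F.2.2.2 := h2
      have h5 : (1 : ℝ) ≤ ((dD F.1 F.2.1 F.2.2.1 F.2.2.2 : ℤ) : ℝ) := by exact_mod_cast h4
      linarith
    rw [e1, Set.ncard_empty, Nat.cast_zero]
    positivity

end Pool.Agent.PPB
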