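import Pool.Agent.PPB.DefsB
import Pool.Agent.PPB.Api
import Pool.Agent.PPB.Be
import Pool.Agent.PPB.BeI
import Pool.Agent.PPB.GaA
import Pool.Agent.PPB.GaC
import Pool.Agent.PPB.AlA
import Pool.Agent.PPB.RcM

/-!
# PPB/Tal (size 4)

All large primes together.  PROOF.  Let `F` be in the box and `q` a prime with `T < q³`, `q² ∣ D(F)`; `T ≥ T0 ≥ 27`, so `q > 3`.
`0 < D ≤ K T⁴` gives `q² ≤ K T⁴`, `q ≤ K T²` (so `q ∈ Finset.Icc 1 ⌊K T²⌋₊`).  Cases: `q ∤ A`: `alA` and `rcM` with `ε = 1/100`: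
`≤ N2 C (K T⁴ / q²) ^ (1 + ε) ≤ C' T ^ (4 + 4 ε) / q²`.  `q ∣ A`, `q ∤ C`: `q² ∣ a` (`beI`), `be`.  `q ∣ A, C` (then `q ∣ B` by `beB`):
`q ∣ a`: `gaI`, `gaA`; `q ∤ a`, `q ≤ T`: `gaB`; `q ∤ a`, `q > T`: `gaC` (once for all `q`).  Sum over `q` with `q³ > T`:
`∑ 1 / q² ≤ 2 T ^ (-1/3)`-like bound (telescoping), so the total is at most
`C2 T ^ (4 + 1/25 - 1/3) + C T³ (1 + log T) ≤ C3 T ^ (15/4)`.
-/

set_option autoImplicit false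

namespace Pool.Agent.PPB

private theorem tal_zero (S : Finset (ℤ × ℤ × ℤ × ℤ)) (P : ℤ → ℤ → ℤ → ℤ → Prop)
    (h : ∀ F ∈ S, ¬ P F.1 F.2.1 F.2.2.1 F.2.2.2) : nb S P ≤ 0 := by
  classical
  unfold nb
  have h1 := Finset.filter_false_of_mem h
  rw [h1]
  simp

private theorem tal_sum (T : ℝ) (hT : 1 ≤ T) (N : ℕ) :
    ∑ q ∈ (Finset.Icc 1 N).filter (fun q : ℕ => T < (q : ℝ) ^ 3), 1 / (q : ℝ) ^ 2 ≤
      2 * T ^ (-(1 : ℝ) / 3) := by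
  have hT0 : 0 < T := by linarith
  set x : ℝ := T ^ ((1 : ℝ) / 3) with hx
  have hx0 : 0 < x := Real.rpow_pos_of_pos hT0 _
  have hx3 : x ^ 3 = T := by
    rw [hx, ← Real.rpow_natCast, ← Real.rpow_mul hT0.le]
    norm_num
  have hsub : (Finset.Icc 1 N).filter (fun q : ℕ => T < (q : ℝ) ^ 3) ⊆ Finset.Ioo ⌊x⌋₊ (N + 1) := by
    intro q hq
    rw [Finset.mem_filter, Finset.mem_Icc] at hq
    rw [Finset.mem_Ioo]
    refine ⟨?_, by omega⟩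
    rw [Nat.floor_lt hx0.le]
    by_contra hcon
    push Not at hcon
    have h1 : (q : ℝ) ^ 3 ≤ x ^ 3 := pow_le_pow_left₀ (by positivity) hcon 3
    rw [hx3] at h1
    linarith [hq.2]
  calc ∑ q ∈ (Finset.Icc 1 N).filter (fun q : ℕ => T < (q : ℝ) ^ 3), 1 / (q : ℝ) ^ 2
      ≤ ∑ q ∈ Finset.Ioo ⌊x⌋₊ (N + 1), 1 / (q : ℝ) ^ 2 :=
        Finset.sum_le_sum_of_subset_of_nonneg hsub (fun _ _ _ => by positivity)
    _ = ∑ q ∈ Finset.Ioo ⌊x⌋₊ (N + 1), ((q : ℝ) ^ 2)⁻¹ := by simp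
    _ ≤ 2 / ((⌊x⌋₊ : ℝ) + 1) := sum_Ioo_inv_sq_le _ _
    _ ≤ 2 / x := by
        apply div_le_div_of_nonneg_left (by norm_num) hx0
        exact (Nat.lt_floor_add_one x).le
    _ = 2 * T ^ (-(1 : ℝ) / 3) := by
        rw [hx, neg_div, Real.rpow_neg hT0.le]
        rfl

theorem tal (a0 b0 c0 d0 η k K : ℝ) (hG : Good a0 b0 c0 d0 η k K) : ∃ C T0 : ℝ, 1 ≤ T0 ∧ ∀ T : ℝ, T0 ≤ T →
    nb (box a0 b0 c0 d0 η T) (fun a b c d => ∃ q : ℕ, q.Prime ∧ T < (q : ℝ) ^ 3 ∧ (q : ℤ) ^ 2 ∣ dD a b c d) ≤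
      C * T ^ ((15 : ℝ) / 4) := by
  classical
  obtain ⟨N2, hN2⟩ := alA a0 b0 c0 d0 η k K hG
  obtain ⟨C1, hC1, hrc⟩ := rcM (1 / 100) (by norm_num)
  obtain ⟨C2, hC2, hga⟩ := gaC a0 b0 c0 d0 η k K hG
  have hG' := hG
  obtain ⟨hη, hη1, hk, hk1, hK, hgood⟩ := hG'
  set E : ℝ := N2 * C1 * K ^ ((101 : ℝ) / 100) + 81 * K + 81 * K ^ 3 + 144 with hE
  have hK0 : 0 < K := by linarith
  have hE0 : 0 ≤ E := by positivity
  refine ⟨2 * E + 2 * C2, 27, by norm_num, fun T hT => ?_⟩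
  have hT1 : 1 ≤ T := by linarith
  have hT0 : 0 < T := by linarith
  set S := box a0 b0 c0 d0 η T with hS
  set I := (Finset.Icc 1 ⌊K * T ^ 2⌋₊).filter (fun q : ℕ => T < (q : ℝ) ^ 3) with hI
  set GC : ℤ → ℤ → ℤ → ℤ → Prop := fun a b c d => ∃ q : ℕ, q.Prime ∧ T < (q : ℝ) ∧ (q : ℤ) ∣ hA a b c ∧
      (q : ℤ) ∣ hB a b c d ∧ ¬ (q : ℤ) ∣ a with hGC
  set Q : ℕ → ℤ → ℤ → ℤ → ℤ → Prop := fun q a b c d => q.Prime ∧ 3 < q ∧ (q : ℤ) ^ 2 ∣ dD a b c d ∧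
      ¬ (T < (q : ℝ) ∧ (q : ℤ) ∣ hA a b c ∧ (q : ℤ) ∣ hB a b c d ∧ ¬ (q : ℤ) ∣ a) with hQ
  -- one prime
  have hone : ∀ q ∈ I, nb S (Q q) ≤ E * T ^ ((4 : ℝ) + 1 / 25) * (1 / (q : ℝ) ^ 2) := by
    intro q hqI
    rw [hI, Finset.mem_filter, Finset.mem_Icc] at hqI
    obtain ⟨⟨hq1, -⟩, hqT⟩ := hqI
    have hqR : (1 : ℝ) ≤ (q : ℝ) := by exact_mod_cast hq1
    have hqR0 : (0 : ℝ) < (q : ℝ) := by linarith
    have hTT : T ^ 4 ≤ T ^ ((4 : ℝ) + 1 / 25) := by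
      have := Real.rpow_le_rpow_of_exponent_le hT1 (show (4 : ℝ) ≤ 4 + 1 / 25 by norm_num)
      calc T ^ 4 = T ^ (4 : ℝ) := by norm_cast
        _ ≤ _ := this
    by_cases hqp : q.Prime ∧ 3 < q
    · obtain ⟨hqp, hq3⟩ := hqp
      -- alpha
      have hal : nb S (fun a b c d => (q : ℤ) ^ 2 ∣ dD a b c d ∧ ¬ (q : ℤ) ∣ hA a b c) ≤
          N2 * C1 * K ^ ((101 : ℝ) / 100) * T ^ ((4 : ℝ) + 1 / 25) * (1 / (q : ℝ) ^ 2) := by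
        have h1 := hN2 T hT1 q hqp hq3
        have h2 := hrc (K * T ^ 4 / (q : ℝ) ^ 2) (by positivity)
        have h3 : (K * T ^ 4 / (q : ℝ) ^ 2) ^ ((1 : ℝ) + 1 / 100) ≤
            K ^ ((101 : ℝ) / 100) * T ^ ((4 : ℝ) + 1 / 25) * (1 / (q : ℝ) ^ 2) := by
          rw [Real.div_rpow (by positivity) (by positivity), Real.mul_rpow (by positivity) (by positivity)]
          have e1 : (T ^ 4) ^ ((1 : ℝ) + 1 / 100) = T ^ ((4 : ℝ) + 1 / 25) := by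
            rw [← Real.rpow_natCast, ← Real.rpow_mul hT0.le]
            norm_num
          have e2 : ((q : ℝ) ^ 2) ≤ ((q : ℝ) ^ 2) ^ ((1 : ℝ) + 1 / 100) := by
            have h5 : (1 : ℝ) ≤ (q : ℝ) ^ 2 := one_le_pow₀ hqR
            calc (q : ℝ) ^ 2 = ((q : ℝ) ^ 2) ^ (1 : ℝ) := (Real.rpow_one _).symm
              _ ≤ _ := Real.rpow_le_rpow_of_exponent_le h5 (by norm_num)
          rw [e1]
          have e3 : (1 : ℝ) + 1 / 100 = 101 / 100 := by norm_num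
          rw [mul_one_div]
          rw [e3] at e2 ⊢
          apply div_le_div_of_nonneg_left (by positivity) (by positivity) e2
        calc nb S (fun a b c d => (q : ℤ) ^ 2 ∣ dD a b c d ∧ ¬ (q : ℤ) ∣ hA a b c)
            ≤ N2 * ((redS (K * T ^ 4 / (q : ℝ) ^ 2)).ncard : ℝ) := h1
          _ ≤ N2 * (C1 * (K * T ^ 4 / (q : ℝ) ^ 2) ^ ((1 : ℝ) + 1 / 100)) := by gcongr
          _ ≤ N2 * (C1 * (K ^ ((101 : ℝ) / 100) * T ^ ((4 : ℝ) + 1 / 25) * (1 / (q : ℝ) ^ 2))) := by gcongr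
          _ = _ := by ring
      -- beta
      have hbe : nb S (fun a _ _ _ => (q : ℤ) ^ 2 ∣ a) ≤ 81 * K * T ^ ((4 : ℝ) + 1 / 25) * (1 / (q : ℝ) ^ 2) := by
        calc nb S (fun a _ _ _ => (q : ℤ) ^ 2 ∣ a) ≤ 81 * K * T ^ 4 / (q : ℝ) ^ 2 :=
              be a0 b0 c0 d0 η k K hG T hT1 q hqp.pos
          _ = 81 * K * T ^ 4 * (1 / (q : ℝ) ^ 2) := by ring
          _ ≤ _ := by gcongr
      -- gamma A
      have hgA : nb S (fun a b c _ => (q : ℤ) ∣ a ∧ (q : ℤ) ∣ b ∧ (q : ℤ) ∣ c) ≤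
          81 * K ^ 3 * T ^ ((4 : ℝ) + 1 / 25) * (1 / (q : ℝ) ^ 2) := by
        calc nb S (fun a b c _ => (q : ℤ) ∣ a ∧ (q : ℤ) ∣ b ∧ (q : ℤ) ∣ c)
            ≤ 81 * K ^ 3 * T ^ 4 / (q : ℝ) ^ 2 := gaA a0 b0 c0 d0 η k K hG T hT1 q hqp.pos
          _ = 81 * K ^ 3 * T ^ 4 * (1 / (q : ℝ) ^ 2) := by ring
          _ ≤ _ := by gcongr
      -- gamma B
      have hgB : nb S (fun a b c d => (q : ℝ) ≤ T ∧ (q : ℤ) ∣ hA a b c ∧ (q : ℤ) ∣ hB a b c d ∧ ¬ (q : ℤ) ∣ a) ≤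
          144 * T ^ ((4 : ℝ) + 1 / 25) * (1 / (q : ℝ) ^ 2) := by
        by_cases hqT' : (q : ℝ) ≤ T
        · calc nb S (fun a b c d => (q : ℝ) ≤ T ∧ (q : ℤ) ∣ hA a b c ∧ (q : ℤ) ∣ hB a b c d ∧ ¬ (q : ℤ) ∣ a)
              ≤ nb S (fun a b c d => (q : ℤ) ∣ hA a b c ∧ (q : ℤ) ∣ hB a b c d ∧ ¬ (q : ℤ) ∣ a) :=
                nb_mono _ _ _ (fun F _ h => h.2)
            _ ≤ 144 * T ^ 4 / (q : ℝ) ^ 2 := gaB a0 b0 c0 d0 η k K hG T hT1 q hqp hqT'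
            _ = 144 * T ^ 4 * (1 / (q : ℝ) ^ 2) := by ring
            _ ≤ _ := by gcongr
        · have : nb S (fun a b c d => (q : ℝ) ≤ T ∧ (q : ℤ) ∣ hA a b c ∧ (q : ℤ) ∣ hB a b c d ∧
              ¬ (q : ℤ) ∣ a) ≤ 0 := tal_zero _ _ (fun F _ h => hqT' h.1)
          exact this.trans (by positivity)
      have hsplit : nb S (Q q) ≤ nb S (fun a b c d => (q : ℤ) ^ 2 ∣ dD a b c d ∧ ¬ (q : ℤ) ∣ hA a b c) +
          (nb S (fun a _ _ _ => (q : ℤ) ^ 2 ∣ a) +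
          (nb S (fun a b c _ => (q : ℤ) ∣ a ∧ (q : ℤ) ∣ b ∧ (q : ℤ) ∣ c) +
          nb S (fun a b c d => (q : ℝ) ≤ T ∧ (q : ℤ) ∣ hA a b c ∧ (q : ℤ) ∣ hB a b c d ∧ ¬ (q : ℤ) ∣ a))) := by
        refine (nb_add S _ (fun a b c d => (q : ℤ) ^ 2 ∣ dD a b c d ∧ ¬ (q : ℤ) ∣ hA a b c)
          (fun a b c d => (q : ℤ) ^ 2 ∣ a ∨ ((q : ℤ) ∣ a ∧ (q : ℤ) ∣ b ∧ (q : ℤ) ∣ c) ∨
          ((q : ℝ) ≤ T ∧ (q : ℤ) ∣ hA a b c ∧ (q : ℤ) ∣ hB a b c d ∧ ¬ (q : ℤ) ∣ a)) ?_).trans ?_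
        · rintro F - ⟨h1, h2, h3, h4⟩
          by_cases hA1 : (q : ℤ) ∣ hA F.1 F.2.1 F.2.2.1
          · right
            by_cases hC1' : (q : ℤ) ∣ hC F.2.1 F.2.2.1 F.2.2.2
            · right
              by_cases ha : (q : ℤ) ∣ F.1
              · left
                exact ⟨ha, gaI q hqp _ _ _ _ hA1 hC1' ha⟩
              · right
                have hB1 := beB q hqp _ _ _ _ h3 hA1
                refine ⟨?_, hA1, hB1, ha⟩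
                by_contra hcon
                push Not at hcon
                exact h4 ⟨hcon, hA1, hB1, ha⟩
            · left
              exact beI q hqp (by omega) _ _ _ _ h3 hA1 hC1'
          · left
            exact ⟨h3, hA1⟩
        · gcongr
          refine (nb_add S _ (fun a _ _ _ => (q : ℤ) ^ 2 ∣ a) (fun a b c d => ((q : ℤ) ∣ a ∧ (q : ℤ) ∣ b ∧ (q : ℤ) ∣ c) ∨
            ((q : ℝ) ≤ T ∧ (q : ℤ) ∣ hA a b c ∧ (q : ℤ) ∣ hB a b c d ∧ ¬ (q : ℤ) ∣ a)) (fun F _ h => h)).trans ?_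
          gcongr
          exact nb_add S _ _ _ (fun F _ h => h)
      calc nb S (Q q) ≤ _ := hsplit
        _ ≤ N2 * C1 * K ^ ((101 : ℝ) / 100) * T ^ ((4 : ℝ) + 1 / 25) * (1 / (q : ℝ) ^ 2) +
            (81 * K * T ^ ((4 : ℝ) + 1 / 25) * (1 / (q : ℝ) ^ 2) +
            (81 * K ^ 3 * T ^ ((4 : ℝ) + 1 / 25) * (1 / (q : ℝ) ^ 2) +
            144 * T ^ ((4 : ℝ) + 1 / 25) * (1 / (q : ℝ) ^ 2))) := by gcongr
        _ = _ := by rw [hE]; ring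
    · have : nb S (Q q) ≤ 0 := tal_zero _ _ (fun F _ h => hqp ⟨h.1, h.2.1⟩)
      exact this.trans (by positivity)
  -- the whole
  have hmain : nb S (fun a b c d => ∃ q : ℕ, q.Prime ∧ T < (q : ℝ) ^ 3 ∧ (q : ℤ) ^ 2 ∣ dD a b c d) ≤
      (∑ q ∈ I, nb S (Q q)) + nb S GC := by
    refine (nb_add S _ (fun a b c d => ∃ q ∈ I, Q q a b c d) GC ?_).trans ?_
    · rintro F hF ⟨q, h1, h2, h3⟩
      have hq3 : 3 < q := by
        by_contra hcon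
        push Not at hcon
        have h4 : (q : ℝ) ≤ 3 := by exact_mod_cast hcon
        have h5 : (q : ℝ) ^ 3 ≤ 3 ^ 3 := pow_le_pow_left₀ (by positivity) h4 3
        norm_num at h5
        linarith
      by_cases hc : T < (q : ℝ) ∧ (q : ℤ) ∣ hA F.1 F.2.1 F.2.2.1 ∧ (q : ℤ) ∣ hB F.1 F.2.1 F.2.2.1 F.2.2.2 ∧
          ¬ (q : ℤ) ∣ F.1
      · right
        exact ⟨q, h1, hc⟩
      · left
        refine ⟨q, ?_, h1, hq3, h3, hc⟩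
        rw [hI, Finset.mem_filter, Finset.mem_Icc]
        refine ⟨⟨h1.pos, ?_⟩, h2⟩
        apply Nat.le_floor
        obtain ⟨-, -, -, -, -, -, -, -, h9, h10⟩ := hgood T hT1 F hF
        have hD0 : 0 < dD F.1 F.2.1 F.2.2.1 F.2.2.2 := by
          have : (0 : ℝ) < ((dD F.1 F.2.1 F.2.2.1 F.2.2.2 : ℤ) : ℝ) := lt_of_lt_of_le (by positivity) h9
          exact_mod_cast this
        have h6 : (q : ℤ) ^ 2 ≤ dD F.1 F.2.1 F.2.2.1 F.2.2.2 := Int.le_of_dvd hD0 h3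
        have h7 : (q : ℝ) ^ 2 ≤ ((dD F.1 F.2.1 F.2.2.1 F.2.2.2 : ℤ) : ℝ) := by exact_mod_cast h6
        have h8 : (q : ℝ) ^ 2 ≤ (K * T ^ 2) ^ 2 := by
          have h11 : K * T ^ 4 ≤ K * K * T ^ 4 := by
            have : 0 ≤ T ^ 4 := by positivity
            nlinarith [mul_nonneg (mul_nonneg hK0.le (by linarith : (0:ℝ) ≤ K - 1)) this]
          calc (q : ℝ) ^ 2 ≤ K * T ^ 4 := h7.trans h10
            _ ≤ K * K * T ^ 4 := h11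
            _ = _ := by ring
        exact le_of_sq_le_sq h8 (by positivity)
    · gcongr
      exact nb_sum I S _ Q (fun F _ h => h)
  have hsum : (∑ q ∈ I, nb S (Q q)) ≤ 2 * E * T ^ ((15 : ℝ) / 4) := by
    calc (∑ q ∈ I, nb S (Q q)) ≤ ∑ q ∈ I, E * T ^ ((4 : ℝ) + 1 / 25) * (1 / (q : ℝ) ^ 2) :=
          Finset.sum_le_sum hone
      _ = E * T ^ ((4 : ℝ) + 1 / 25) * ∑ q ∈ I, (1 / (q : ℝ) ^ 2) := by rw [Finset.mul_sum]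
      _ ≤ E * T ^ ((4 : ℝ) + 1 / 25) * (2 * T ^ (-(1 : ℝ) / 3)) := by
          gcongr
          exact tal_sum T hT1 _
      _ = 2 * E * (T ^ ((4 : ℝ) + 1 / 25) * T ^ (-(1 : ℝ) / 3)) := by ring
      _ = 2 * E * T ^ ((4 : ℝ) + 1 / 25 + (-(1 : ℝ) / 3)) := by rw [← Real.rpow_add hT0]
      _ ≤ 2 * E * T ^ ((15 : ℝ) / 4) := by
          gcongr
          norm_num
  have hGCb : nb S GC ≤ 2 * C2 * T ^ ((15 : ℝ) / 4) := by
    have hlog : 1 + Real.log T ≤ 2 * T ^ ((1 : ℝ) / 2) := by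
      have h1 : Real.log T = 2 * Real.log (T ^ ((1 : ℝ) / 2)) := by
        rw [Real.log_rpow hT0]; ring
      have h2 := Real.log_le_sub_one_of_pos (Real.rpow_pos_of_pos hT0 ((1 : ℝ) / 2))
      rw [h1]; linarith
    calc nb S GC ≤ C2 * T ^ 3 * (1 + Real.log T) := hga T hT1
      _ ≤ C2 * T ^ 3 * (2 * T ^ ((1 : ℝ) / 2)) := by gcongr
      _ = 2 * C2 * (T ^ (3 : ℝ) * T ^ ((1 : ℝ) / 2)) := by norm_cast; ring
      _ = 2 * C2 * T ^ ((3 : ℝ) + 1 / 2) := by rw [← Real.rpow_add hT0]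
      _ ≤ 2 * C2 * T ^ ((15 : ℝ) / 4) := by
          gcongr
          norm_num
  calc nb S (fun a b c d => ∃ q : ℕ, q.Prime ∧ T < (q : ℝ) ^ 3 ∧ (q : ℤ) ^ 2 ∣ dD a b c d)
      ≤ (∑ q ∈ I, nb S (Q q)) + nb S GC := hmain
    _ ≤ 2 * E * T ^ ((15 : ℝ) / 4) + 2 * C2 * T ^ ((15 : ℝ) / 4) := add_le_add hsum hGCb
    _ = (2 * E + 2 * C2) * T ^ ((15 : ℝ) / 4) := by ring

end Pool.Agent.PPB
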