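import Pool.Agent.PPB.DefsB
import Pool.Agent.PPB.Api
import Pool.Agent.PPB.Eta
import Pool.Agent.PPB.SmS
import Pool.Agent.PPB.Tal
import Pool.Agent.PPB.FsD

/-!
# PPB/FinB (size 3)

Theorem B1.  PROOF.  Shrink the box (`eta`, `box_mono`, `nb_sub`).  `smS` minus `tal`: if `F` satisfies the property of `smS` and
not the one of `tal` then no `q²` divides `D(F)` (every prime has `q³ ≤ T` or `q³ > T`), so `D(F)` is squarefree
(`Int.squarefree_iff...` / `Squarefree` through `natAbs`, `Nat.squarefree_iff_prime_squarefree`), and `D(F) % 4 = 3` by `fsD`.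
`(1/4) (2 η' T / Mo)⁴ - C T ^ (15/4) ≥ (1/8) (2 η' T / Mo)⁴` for large `T`.
-/

set_option autoImplicit false

namespace Pool.Agent.PPB

private theorem finB_sf (D : ℤ) (h : ∀ q : ℕ, q.Prime → ¬ ((q : ℤ) ^ 2 ∣ D)) : Squarefree D := by
  rw [← Int.squarefree_natAbs, Nat.squarefree_iff_prime_squarefree]
  intro q hq hd
  apply h q hq
  have h1 : (((q * q : ℕ) : ℤ)) ∣ D := Int.natCast_dvd.2 hd
  have h2 : ((q * q : ℕ) : ℤ) = (q : ℤ) ^ 2 := by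
    push_cast
    ring
  rwa [h2] at h1

private theorem finB_pw (C c T : ℝ) (hc : 0 < c) (hT : 1 ≤ T) (hT2 : (|C| / c) ^ 4 ≤ T) :
    C * T ^ ((15 : ℝ) / 4) ≤ c * T ^ 4 := by
  have hT0 : 0 < T := by linarith
  have e1 : T ^ 4 = T ^ ((15 : ℝ) / 4) * T ^ ((1 : ℝ) / 4) := by
    rw [← Real.rpow_add hT0, ← Real.rpow_natCast]
    norm_num
  have hq : |C| / c ≤ T ^ ((1 : ℝ) / 4) := by
    have h0 : 0 ≤ |C| / c := by positivity
    have e2 : |C| / c = ((|C| / c) ^ 4) ^ ((1 : ℝ) / 4) := by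
      rw [← Real.rpow_natCast, ← Real.rpow_mul h0]
      norm_num
    rw [e2]
    exact Real.rpow_le_rpow (by positivity) hT2 (by norm_num)
  have hp : 0 < T ^ ((15 : ℝ) / 4) := Real.rpow_pos_of_pos hT0 _
  have h3 : C ≤ c * T ^ ((1 : ℝ) / 4) := by
    rw [div_le_iff₀ hc] at hq
    calc C ≤ |C| := le_abs_self C
      _ ≤ T ^ ((1 : ℝ) / 4) * c := hq
      _ = c * T ^ ((1 : ℝ) / 4) := by ring
  calc C * T ^ ((15 : ℝ) / 4) ≤ (c * T ^ ((1 : ℝ) / 4)) * T ^ ((15 : ℝ) / 4) :=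
        mul_le_mul_of_nonneg_right h3 hp.le
    _ = c * T ^ 4 := by
        rw [e1]
        ring

theorem finB (a0 b0 c0 d0 η : ℝ) (ha : a0 ≠ 0) (hA0 : 0 < hA a0 b0 c0) (hD0 : 0 < dD a0 b0 c0 d0) (hη : 0 < η) :
    ∃ c : ℝ, 0 < c ∧ ∃ T0 : ℝ, ∀ T : ℝ, T0 ≤ T →
      c * T ^ 4 ≤ nb (box a0 b0 c0 d0 η T) (fun a b c d => Squarefree (dD a b c d) ∧ dD a b c d % 4 = 3) := by
  obtain ⟨η', k, K, hη', hG⟩ := eta a0 b0 c0 d0 η ha hA0 hD0 hη
  have hη0 : 0 < η' := hG.1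
  obtain ⟨T1, hT1, h1⟩ := smS a0 b0 c0 d0 η' hη0
  obtain ⟨C, T2, hT2, h2⟩ := tal a0 b0 c0 d0 η' k K hG
  have hMo : (0 : ℝ) < (Mo : ℝ) := by
    have : 0 < Mo := by
      unfold Mo
      exact pow_pos (Nat.factorial_pos 320) 2
    exact_mod_cast this
  set c : ℝ := (1 / 8) * (2 * η' / Mo) ^ 4 with hc
  have hcp : 0 < c := by positivity
  refine ⟨c, hcp, max (max T1 T2) ((|C| / c) ^ 4), ?_⟩
  intro T hT
  have hTa : T1 ≤ T := ((le_max_left T1 T2).trans (le_max_left _ _)).trans hT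
  have hTb : T2 ≤ T := ((le_max_right T1 T2).trans (le_max_left _ _)).trans hT
  have hTc : (|C| / c) ^ 4 ≤ T := (le_max_right _ _).trans hT
  have hT1' : 1 ≤ T := hT1.trans hTa
  have e1 := h1 T hTa
  have e2 := h2 T hTb
  have e3 := finB_pw C c T hcp hT1' hTc
  have e4 : (1 / 4 : ℝ) * (2 * η' * T / Mo) ^ 4 = 2 * (c * T ^ 4) := by
    rw [hc]
    field_simp
    ring
  have hadd := nb_add (box a0 b0 c0 d0 η' T) (fun a b c d => fs Mo a b c d ∧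
        ∀ q : ℕ, q.Prime → (q : ℝ) ^ 3 ≤ T → ¬ ((q : ℤ) ^ 2 ∣ dD a b c d))
    (fun a b c d => Squarefree (dD a b c d) ∧ dD a b c d % 4 = 3)
    (fun a b c d => ∃ q : ℕ, q.Prime ∧ T < (q : ℝ) ^ 3 ∧ (q : ℤ) ^ 2 ∣ dD a b c d) (by
      rintro F - ⟨hf1, hf2⟩
      by_cases hR : ∃ q : ℕ, q.Prime ∧ T < (q : ℝ) ^ 3 ∧
          (q : ℤ) ^ 2 ∣ dD F.1 F.2.1 F.2.2.1 F.2.2.2
      · exact Or.inr hR
      · left
        refine ⟨finB_sf _ ?_, (fsD _ _ _ _ hf1).1⟩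
        intro q hq hd
        rcases le_or_gt ((q : ℝ) ^ 3) T with h | h
        · exact hf2 q hq h hd
        · exact hR ⟨q, hq, h, hd⟩)
  have hsub := nb_sub (box a0 b0 c0 d0 η' T) (box a0 b0 c0 d0 η T)
    (fun a b c d => Squarefree (dD a b c d) ∧ dD a b c d % 4 = 3)
    (box_mono a0 b0 c0 d0 η η' T hη' (by linarith))
  linarith

end Pool.Agent.PPB
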